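import Pool.Agent.Helper26.N9.Hemi2
import Pool.Agent.Helper24.N9.Deg3
import Pool.Agent.Helper27.N9.E0v
import Pool.Agent.Helper93.N9.Rays

/-! MP_9b91d1_co, rows CCOV and CNI (helper26). -/

open scoped RealInnerProductSpace Topology

namespace N9Q

open Pool.Agent.Helper30.N9 Pool.Agent.Helper30.N9.PlaneGraph Pool.Agent.Helper27.N9 N9H

/-- angle of a unit vector orthogonal to n -/
theorem polar {n a y : E3} (hn : ‖n‖ = 1) (ha : ‖a‖ = 1) (hna : ⟪n, a⟫ = (0 : ℝ))
    (hy : ‖y‖ = 1) (hny : ⟪n, y⟫ = (0 : ℝ)) :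
    ∃ t : ℝ, 0 ≤ t ∧ t < 2 * Real.pi ∧ y = Real.cos t • a + Real.sin t • crs n a := by
  obtain ⟨t, t0, t1, t2, t3⟩ := H93.exists_angle (H93.sq_add_sq hn ha hy hna hny)
  refine ⟨t, t0, t1, ?_⟩
  rw [t2, t3]
  exact H93.expand hn ha hna hny

theorem ccov (hCSEQ : ST_CSEQ) : ST_CCOV := by
  intro V _ _ M p h n U Sp E y hy hny
  obtain ⟨k, th, v, hk, th0, hth, thk, vk, hn0, hpv, hd1, hd2⟩ := hCSEQ V M p h n U Sp E
  obtain ⟨t, ht0, ht1, hyt⟩ := polar E.un (Sp.inc.unit (v 0)) hn0 hy hny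
  have hex : ∃ i, i < k ∧ th i ≤ t ∧ t < th (i + 1) := by
    by_contra hcon
    push Not at hcon
    have hall : ∀ i ≤ k, th i ≤ t := by
      intro i
      induction i with
      | zero => intro _; rw [th0]; exact ht0
      | succ m ih => intro hm; exact hcon m hm (ih (by omega))
    have := hall k le_rfl
    rw [thk] at this
    linarith
  obtain ⟨i, hi, hi1, hi2⟩ := hex
  obtain ⟨d, hd, e1, e2⟩ := hd1 i hi
  refine ⟨d, hd, ?_⟩
  rw [e1, e2]
  have hs : 0 < Real.sin (th (i + 1) - th i) :=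
    Real.sin_pos_of_pos_of_lt_pi (by linarith [(hth i hi).1]) (by linarith [(hth i hi).2])
  have hs1 : 0 ≤ Real.sin (th (i + 1) - t) :=
    Real.sin_nonneg_of_nonneg_of_le_pi (by linarith) (by linarith [(hth i hi).2])
  have hs2 : 0 ≤ Real.sin (t - th i) :=
    Real.sin_nonneg_of_nonneg_of_le_pi (by linarith) (by linarith [(hth i hi).2])
  refine ⟨hy, Real.sin (th (i + 1) - t) / Real.sin (th (i + 1) - th i),
    Real.sin (t - th i) / Real.sin (th (i + 1) - th i), div_nonneg hs1 hs.le,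
    div_nonneg hs2 hs.le, ?_⟩
  have hc1 : Real.cos t = Real.sin (th (i + 1) - t) / Real.sin (th (i + 1) - th i) *
      Real.cos (th i) + Real.sin (t - th i) / Real.sin (th (i + 1) - th i) *
      Real.cos (th (i + 1)) := by
    field_simp
    rw [Real.sin_sub, Real.sin_sub, Real.sin_sub]
    ring
  have hc2 : Real.sin t = Real.sin (th (i + 1) - t) / Real.sin (th (i + 1) - th i) *
      Real.sin (th i) + Real.sin (t - th i) / Real.sin (th (i + 1) - th i) *
      Real.sin (th (i + 1)) := by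
    field_simp
    rw [Real.sin_sub, Real.sin_sub, Real.sin_sub]
    ring
  rw [hyt, hpv i hi.le, hpv (i + 1) hi, hc1, hc2]
  module

theorem cni (hCCOV : ST_CCOV) : ST_CNI := by
  intro V _ _ M p h n U Sp E d hd ⟨h1, h2⟩
  have hp := Sp.inc
  have hpos : 0 < ⟪p d.fst + p d.snd, p d.fst + p d.snd⟫ := by
    rw [real_inner_self_eq_norm_sq]
    apply pow_pos
    rw [norm_pos_iff]
    intro h0
    exact hp.ne_neg d (eq_neg_of_add_eq_zero_left h0)
  have hne : p d.fst + p d.snd ≠ 0 := by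
    intro h0
    rw [h0, inner_zero_left] at hpos
    exact lt_irrefl _ hpos
  have hnp : 0 < ‖p d.fst + p d.snd‖ := norm_pos_iff.mpr hne
  obtain ⟨y, hy⟩ : ∃ y, y = ‖p d.fst + p d.snd‖⁻¹ • (p d.fst + p d.snd) := ⟨_, rfl⟩
  have hy1 : ‖y‖ = 1 := by
    rw [hy, norm_smul, norm_inv, norm_norm, inv_mul_cancel₀ hnp.ne']
  have hyn : ⟪n, y⟫ = (0 : ℝ) := by
    rw [hy, real_inner_smul_right, inner_add_right, h1, h2]; ring
  obtain ⟨e, he, hye⟩ := hCCOV V M p h n U Sp E y hy1 hyn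
  have hyd : y ∈ arc (p d.fst) (p d.snd) := by
    refine ⟨hy1, ‖p d.fst + p d.snd‖⁻¹, ‖p d.fst + p d.snd‖⁻¹, by positivity, by positivity, ?_⟩
    rw [hy, smul_add]
  by_cases hde : d.edge = e.edge
  · rw [SimpleGraph.dart_edge_eq_iff] at hde
    rcases hde with rfl | rfl
    · exact he.2 hd.2
    · exact he.2 hd.1
  · obtain ⟨v, hv, _, hyv⟩ := hp.embed d e hde y hyd hye
    have hends : v = d.fst ∨ v = d.snd := by
      have : v ∈ s(d.fst, d.snd) := hv
      rwa [Sym2.mem_iff] at this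
    have hsym : ⟪y, p d.fst⟫ = ⟪y, p d.snd⟫ := by
      rw [hy, real_inner_smul_left, real_inner_smul_left, inner_add_left, inner_add_left,
        inner_self_one (hp.unit _), inner_self_one (hp.unit _), real_inner_comm (p d.fst)]
      ring
    have hlt : ⟪p d.fst, p d.snd⟫ < (1 : ℝ) :=
      N9H.inner_lt_one (hp.unit _) (hp.unit _) (H27.qne hp d)
    rcases hends with rfl | rfl
    · rw [hyv, inner_self_one (hp.unit _)] at hsym
      linarith
    · rw [hyv, inner_self_one (hp.unit _), real_inner_comm] at hsym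
      linarith

end N9Q
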