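import Pool.Agent.Helper26.N9.Ccov
import Pool.Agent.Helper27.N9.Fan1
import Pool.Agent.Helper72.N9.Mml
import Pool.Agent.Helper24.N9.Deg3

/-! MP_9b91d1_co, row CUT1: a side with a meridional stress is cut (helper26). -/

open scoped RealInnerProductSpace Topology

namespace N9Q

open Pool.Agent.Helper30.N9 Pool.Agent.Helper30.N9.PlaneGraph

variable {V : Type} [Fintype V] [DecidableEq V] {M : PlaneGraph V}

theorem crs_ne {p : V → E3} (hp : M.InC p) (d : M.G.Dart) : crs (p d.fst) (p d.snd) ≠ 0 := by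
  intro h0
  have := crs_pos (hp.unit d.fst) (hp.unit d.snd) (H27.qne hp d) (hp.ne_neg d)
  rw [h0, inner_zero_left] at this
  exact lt_irrefl _ this

/-- a boundary dart is on the great circle -/
theorem bd_perp {p : V → E3} {n : E3} {U : M.Face → Prop} (E : M.Equ p n U) {d : M.G.Dart}
    (hd : M.Bd U d) : ⟪n, p d.fst⟫ = (0 : ℝ) ∧ ⟪n, p d.snd⟫ = (0 : ℝ) := by
  obtain ⟨c, hc, h⟩ := E.bd d hd
  have h1 : ⟪crs (p d.fst) (p d.snd), p d.fst⟫ = (0 : ℝ) := by
    rw [crs_inner]; simp only [det3]; ring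
  have h2 : ⟪crs (p d.fst) (p d.snd), p d.snd⟫ = (0 : ℝ) := by
    rw [crs_inner]; simp only [det3]; ring
  rw [h, real_inner_smul_left] at h1 h2
  exact ⟨(mul_eq_zero.mp h1).resolve_left hc.ne', (mul_eq_zero.mp h2).resolve_left hc.ne'⟩

/-- the tangent of the great circle -/
theorem crs_eq_n {n x y : E3} (hn : ‖n‖ = 1) (hx : ‖x‖ = 1) (hy : ‖y‖ = 1)
    (h1 : ⟪n, x⟫ = (0 : ℝ)) (h2 : ⟪n, y⟫ = (0 : ℝ)) (h3 : x ≠ y) (h4 : x ≠ -y) :
    ∃ κ : ℝ, κ ≠ 0 ∧ crs x y = κ • n := by
  have hpos := crs_pos hx hy h3 h4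
  have hne : crs x y ≠ 0 := by
    intro h0
    rw [h0, inner_zero_left] at hpos
    exact lt_irrefl _ hpos
  obtain ⟨s, hs⟩ : ∃ s : ℝ, n = s • crs x y :=
    ⟨_, par_of_crs hne (by rw [real_inner_comm]; exact h1) (by rw [real_inner_comm]; exact h2)⟩
  have hs0 : s ≠ 0 := by
    rintro rfl
    rw [zero_smul] at hs
    rw [hs, norm_zero] at hn
    norm_num at hn
  refine ⟨s⁻¹, inv_ne_zero hs0, ?_⟩
  rw [hs, smul_smul, inv_mul_cancel₀ hs0, one_smul]

/-- at a boundary vertex one boundary dart starts and one ends -/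
theorem bd_two (hCSEQ : ST_CSEQ) {p : V → E3} {h : M.Face → E3} {n : E3} {U : M.Face → Prop}
    (Sp : M.Std p h) (E : M.Equ p n U) {d : M.G.Dart} (hd : M.Bd U d ∨ M.Bd U d.symm) :
    (∃ e, M.Bd U e ∧ e.fst = d.fst) ∧ ∃ e, M.Bd U e ∧ e.snd = d.fst := by
  obtain ⟨k, th, v, hk, th0, hth, thk, vk, hn0, hpv, hd1, hd2⟩ := hCSEQ V M p h n U Sp E
  rcases hd with hd | hd
  · refine ⟨⟨d, hd, rfl⟩, ?_⟩
    obtain ⟨i, hi, e1, e2⟩ := hd2 d hd
    rcases Nat.eq_zero_or_pos i with h0 | h0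
    · obtain ⟨e, he, f1, f2⟩ := hd1 (k - 1) (by omega)
      refine ⟨e, he, ?_⟩
      rw [f2, Nat.sub_add_cancel hk, vk, e1, h0]
    · obtain ⟨e, he, f1, f2⟩ := hd1 (i - 1) (by omega)
      refine ⟨e, he, ?_⟩
      rw [f2, Nat.sub_add_cancel h0, e1]
  · refine ⟨?_, ⟨d.symm, hd, rfl⟩⟩
    obtain ⟨i, hi, e1, e2⟩ := hd2 d.symm hd
    have e2' : d.fst = v (i + 1) := e2
    rcases lt_or_eq_of_le (Nat.succ_le_of_lt hi) with h0 | h0
    · obtain ⟨e, he, f1, f2⟩ := hd1 (i + 1) h0
      exact ⟨e, he, by rw [f1, e2']⟩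
    · obtain ⟨e, he, f1, f2⟩ := hd1 0 hk
      refine ⟨e, he, ?_⟩
      rw [f1, e2', ← vk]
      congr 1
      exact h0.symm

theorem cut1 (hCSEQ : ST_CSEQ) (hPOTC : ST_POTC) (hL : ST_LIFT) (hMt : ST_MAXT)
    (hV : ST_VCL) (hA : ST_AXV) (hMX : ST_MAXS) : ST_CUT1 := by
  classical
  intro V _ _ M p h n y U Sp E hy hny hnm
  have hCCOV := ccov hCSEQ
  have hCNI := cni hCCOV
  have hp := Sp.inc
  -- the cone of stresses
  obtain ⟨S, hSdef⟩ : ∃ S : Set (M.G.Dart → ℝ), ∀ om, om ∈ S ↔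
      (M.Wt om ∧ (∀ d, om d ≠ 0 → M.InD U d) ∧ (∀ v, M.InV U v → M.EqAt p om v) ∧
        ∀ d, om d ≠ 0 → det3 y (p d.fst) (p d.snd) = 0) := ⟨{om | _}, fun _ => Iff.rfl⟩
  obtain ⟨om, homS, hmax⟩ := hMX M.G.Dart S
    ((hSdef 0).mpr ⟨⟨fun _ => le_rfl, fun _ => rfl⟩, fun d hd => absurd rfl hd,
      fun v _ => by unfold PlaneGraph.EqAt; simp, fun d hd => absurd rfl hd⟩)
    (by
      intro f hf g hg
      rw [hSdef] at hf hg ⊢
      obtain ⟨f1, f2, f3, f4⟩ := hf
      obtain ⟨g1, g2, g3, g4⟩ := hg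
      refine ⟨⟨fun d => add_nonneg (f1.nonneg d) (g1.nonneg d),
        fun d => by simp only [Pi.add_apply, f1.symm, g1.symm]⟩, ?_, ?_, ?_⟩
      · intro d hd
        by_cases hfd : f d = 0
        · apply g2; intro hgd; apply hd; simp [hfd, hgd]
        · exact f2 d hfd
      · intro v hv
        have a := f3 v hv
        have b := g3 v hv
        unfold PlaneGraph.EqAt at a b ⊢
        simp only [Pi.add_apply, add_smul, Finset.sum_add_distrib, a, b, add_zero]
      · intro d hd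
        by_cases hfd : f d = 0
        · apply g4; intro hgd; apply hd; simp [hfd, hgd]
        · exact f4 d hfd)
    (fun f hf d => ((hSdef f).mp hf).1.nonneg d)
  obtain ⟨hw, hin, heqI, hmer⟩ := (hSdef om).mp homS
  obtain ⟨d0, hd0⟩ : ∃ d, om d ≠ 0 := by
    by_contra hcon
    push Not at hcon
    apply hnm
    intro om' w1 w2 w3 w4 d
    by_contra hd
    exact hmax om' ((hSdef om').mpr ⟨w1, w2, w3, w4⟩) d hd (hcon d)
  -- stresses of the cone do not touch boundary vertices other than y, -y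
  have htouch : ∀ f ∈ S, ∀ d : M.G.Dart, ¬ M.InV U d.fst → p d.fst ≠ y → p d.fst ≠ -y →
      f d = 0 := by
    intro f hf d hd h1 h2
    obtain ⟨f1, f2, f3, f4⟩ := (hSdef f).mp hf
    by_contra hfd
    have hI := f2 d hfd
    obtain ⟨e, he, hee⟩ := onB_of_not_inV hI.1 hd
    have hperp : ⟪n, p d.fst⟫ = (0 : ℝ) := by
      rcases hee with hee | hee
      · rw [← he]; exact (bd_perp E hee).1
      · rw [← he]; exact (bd_perp E hee).2
    obtain ⟨α, hα, hc⟩ := H27.mer_dir hp hy (f4 d hfd) h1 h2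
    obtain ⟨κ, hκ, hc2⟩ := crs_eq_n E.un (hp.unit d.fst) hy hperp hny h1 h2
    have h3 : ⟪crs (p d.fst) (p d.snd), p d.snd⟫ = (0 : ℝ) := by
      rw [crs_inner]; simp only [det3]; ring
    rw [hc, hc2, real_inner_smul_left, real_inner_smul_left] at h3
    have h4 := ((mul_eq_zero.mp h3).resolve_left hα)
    exact hCNI V M p h n U Sp E d hI ⟨hperp, (mul_eq_zero.mp h4).resolve_left hκ⟩
  have heq : ∀ v, p v ≠ y → p v ≠ -y → M.EqAt p om v := by
    intro v h1 h2
    by_cases hv : M.InV U v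
    · exact heqI v hv
    · unfold PlaneGraph.EqAt
      apply Finset.sum_eq_zero
      intro d hd
      have hdv : d.fst = v := by simpa using hd
      rw [htouch om homS d (by rw [hdv]; exact hv) (by rw [hdv]; exact h1)
        (by rw [hdv]; exact h2), zero_smul]
  -- the lift
  obtain ⟨x, hx⟩ := hL V M (conn_of_conn3 Sp.c3) U (fun d => om d • crs (p d.fst) (p d.snd))
    (by
      intro d
      show om d.symm • crs (p d.snd) (p d.fst) = - (om d • crs (p d.fst) (p d.snd))
      rw [hw.symm, H27.crs_swap (p d.fst), smul_neg])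
    (by
      intro d hd
      have : om d = 0 := by
        by_contra h0
        exact hd (hin d h0)
      simp only [this, zero_smul])
    (by intro v hv; exact heqI v hv)
    (hPOTC V M p h n U Sp E)
  obtain ⟨l, hl1, hl2⟩ : ∃ l : M.Face → Option E3, (∀ w, U w → l w = some (x w)) ∧
      ∀ w, ¬ U w → l w = none :=
    ⟨fun w => if U w then some (x w) else none, fun w hw => if_pos hw, fun w hw => if_neg hw⟩
  have hE1 : ∀ d, M.InD U d → (M.E0 l d ↔ om d ≠ 0) := by
    intro d hd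
    unfold PlaneGraph.E0
    rw [hl1 _ hd.1, hl1 _ hd.2, ne_eq, Option.some_inj, ← ne_eq, ← sub_ne_zero,
      hx d hd.1 hd.2, ne_eq, smul_eq_zero, not_or]
    exact ⟨fun h => h.1, fun h => ⟨h, crs_ne hp d⟩⟩
  have hE2 : ∀ d, M.Bd U d → M.E0 l d := by
    intro d hd
    unfold PlaneGraph.E0
    rw [hl1 _ hd.1, hl2 _ hd.2]
    exact Option.some_ne_none _
  have hE3 : ∀ d, M.Bd U d.symm → M.E0 l d := by
    intro d hd
    have := hE2 _ hd
    unfold PlaneGraph.E0 at this ⊢
    rw [SimpleGraph.Dart.symm_symm] at this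
    exact this.symm
  have hE4 : ∀ d, M.E0 l d → (M.InD U d ∧ om d ≠ 0) ∨ M.Bd U d ∨ M.Bd U d.symm := by
    intro d hd
    by_cases h1 : U (M.fc d)
    · by_cases h2 : U (M.fc d.symm)
      · exact Or.inl ⟨⟨h1, h2⟩, (hE1 d ⟨h1, h2⟩).mp hd⟩
      · exact Or.inr (Or.inl ⟨h1, h2⟩)
    · by_cases h2 : U (M.fc d.symm)
      · refine Or.inr (Or.inr ⟨h2, ?_⟩)
        rw [SimpleGraph.Dart.symm_symm]; exact h1
      · exfalso
        apply hd
        rw [hl2 _ h1, hl2 _ h2]
  -- the vertices s and t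
  have hpole : ∀ a : E3, ‖a‖ = 1 → ⟪n, a⟫ = (0 : ℝ) →
      (∀ d, om d ≠ 0 → det3 a (p d.fst) (p d.snd) = 0) →
      (∀ v, p v ≠ a → p v ≠ -a → M.EqAt p om v) → ∃ s, p s = a ∧ ¬ M.InV U s := by
    intro a ha hna hma hea
    obtain ⟨e, he, hae, _, _⟩ := hA V M p a om hp ha hw hma hea d0 hd0
    obtain ⟨f, hf, haf⟩ := hCCOV V M p h n U Sp E a ha hna
    have hef : e.edge ≠ f.edge := by
      intro hcon
      rw [SimpleGraph.dart_edge_eq_iff] at hcon
      rcases hcon with rfl | rfl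
      · exact hf.2 (hin _ he).2
      · exact hf.2 (hin _ he).1
    obtain ⟨v, hv1, hv2, hv3⟩ := hp.embed e f hef a hae haf
    refine ⟨v, hv3.symm, ?_⟩
    intro hI
    rcases PlaneGraph.mem_edge hv2 with h' | h'
    · rw [h'] at hI
      exact hf.2 (InV.ind_fst hI).2
    · rw [h'] at hI
      exact hf.2 (InV.ind_snd hI).2
  obtain ⟨s, hs, hsI⟩ := hpole y hy hny hmer heq
  obtain ⟨t, ht, htI⟩ := hpole (-y) (by rw [norm_neg]; exact hy)
    (by rw [inner_neg_right, hny, neg_zero])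
    (fun d hd => by
      have := hmer d hd
      simp only [det3, PiLp.neg_apply] at this ⊢
      linarith)
    (fun v h1 h2 => heq v (by rw [neg_neg] at h2; exact h2) h1)
  have hcvx : M.Cvx p U := by
    intro d e hd he
    obtain ⟨c, hc, hcr⟩ := E.bd d hd
    rw [← crs_inner, hcr, real_inner_smul_left]
    exact mul_nonneg hc.le (E.up e he)
  have hdirs : ∀ d, M.E0 l d → d.fst ≠ s → d.fst ≠ t →
      (∃ e, M.E0 l e ∧ e.fst = d.fst ∧ ∃ c : ℝ, 0 < c ∧
        crs (p e.fst) (p e.snd) = c • crs (p e.fst) y) ∧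
      (∃ e, M.E0 l e ∧ e.fst = d.fst ∧ ∃ c : ℝ, 0 < c ∧
        crs (p e.fst) (p e.snd) = c • crs y (p e.fst)) := by
    intro d hd h1 h2
    have g1 : p d.fst ≠ y := by rw [← hs]; exact fun h => h1 (hp.inj h)
    have g2 : p d.fst ≠ -y := by rw [← ht]; exact fun h => h2 (hp.inj h)
    rcases hE4 d hd with ⟨hI, ho⟩ | hB
    · obtain ⟨⟨e, heo, hef, c, hc, hcr⟩, ⟨e', heo', hef', c', hc', hcr'⟩⟩ :=
        H27.both_dirs hp hy hw (fun e _ he => hmer e he) (heq d.fst g1 g2) ho g1 g2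
      exact ⟨⟨e, (hE1 e (hin e heo)).mpr heo, hef, c, hc, hcr⟩,
        ⟨e', (hE1 e' (hin e' heo')).mpr heo', hef', c', hc', hcr'⟩⟩
    · have hperp : ⟪n, p d.fst⟫ = (0 : ℝ) := by
        rcases hB with hB | hB
        · exact (bd_perp E hB).1
        · exact (bd_perp E hB).2
      obtain ⟨κ, hκ, hc2⟩ := crs_eq_n E.un (hp.unit d.fst) hy hperp hny g1 g2
      obtain ⟨⟨e, he, hef⟩, e', he', hef'⟩ := bd_two hCSEQ Sp E hB
      obtain ⟨c, hc, hcr⟩ := E.bd e he
      obtain ⟨c', hc', hcr'⟩ := E.bd e' he'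
      have hn1 : n = κ⁻¹ • crs (p d.fst) y := by
        rw [hc2, smul_smul, inv_mul_cancel₀ hκ, one_smul]
      have hn2 : n = (-κ⁻¹) • crs y (p d.fst) := by
        rw [H27.crs_swap (p d.fst) y, smul_neg, neg_smul, neg_neg]; exact hn1
      have hcr2 : crs (p e'.symm.fst) (p e'.symm.snd) = (-c') • n := by
        rw [neg_smul, ← hcr']
        exact H27.crs_swap (p e'.fst) (p e'.snd)
      have hef2 : e'.symm.fst = d.fst := hef'
      have hE' : M.E0 l e'.symm := hE3 _ (by rw [SimpleGraph.Dart.symm_symm]; exact he')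
      rcases lt_or_gt_of_ne hκ with hk | hk
      · have hki : κ⁻¹ < 0 := inv_lt_zero.mpr hk
        refine ⟨⟨e'.symm, hE', hef2, (-c') * κ⁻¹, by nlinarith, ?_⟩,
          ⟨e, hE2 e he, hef, c * (-κ⁻¹), by nlinarith, ?_⟩⟩
        · rw [hcr2, mul_smul, hef2, ← hn1]
        · rw [hcr, mul_smul, hef, ← hn2]
      · have hki : 0 < κ⁻¹ := inv_pos.mpr hk
        refine ⟨⟨e, hE2 e he, hef, c * κ⁻¹, by positivity, ?_⟩,
          ⟨e'.symm, hE', hef2, (-c') * (-κ⁻¹), by nlinarith, ?_⟩⟩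
        · rw [hcr, mul_smul, hef, ← hn1]
        · rw [hcr2, mul_smul, hef2, ← hn2]
  refine ⟨Option E3, l, s, t, none, ⟨hy, hs, ht, ?_, ?_, fun d a b c => (hdirs d a b c).1,
    fun d a b c => (hdirs d a b c).2, ?_⟩, ?_, ?_, ?_⟩
  · -- meridional
    intro d hd
    rcases hE4 d hd with ⟨hI, ho⟩ | hB
    · exact hmer d ho
    · rcases hB with hB | hB
      · obtain ⟨c, hc, hcr⟩ := E.bd d hB
        have e : det3 y (p d.fst) (p d.snd) = ⟪crs (p d.fst) (p d.snd), y⟫ := by
          rw [crs_inner]; simp only [det3]; ring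
        rw [e, hcr, real_inner_smul_left, hny, mul_zero]
      · obtain ⟨c, hc, hcr⟩ := E.bd _ hB
        have hcr' : crs (p d.snd) (p d.fst) = c • n := hcr
        have e : det3 y (p d.fst) (p d.snd) = - ⟪crs (p d.snd) (p d.fst), y⟫ := by
          rw [crs_inner]; simp only [det3]; ring
        rw [e, hcr', real_inner_smul_left, hny, mul_zero, neg_zero]
  · -- convexity
    intro d e hd he
    rcases hE4 d hd with ⟨hI, ho⟩ | hB | hB
    · have hUe : U (M.fc e) := by
        by_contra hcon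
        rw [hl2 _ hcon, hl1 _ hI.1] at he
        exact Option.some_ne_none _ he.symm
      have hxe : x (M.fc e) = x (M.fc d) := by
        rw [hl1 _ hUe, hl1 _ hI.1] at he
        exact Option.some_injective _ he
      have hpos : 0 < om d := lt_of_le_of_ne (hw.nonneg d) (Ne.symm ho)
      have hkey : 0 ≤ ⟪om d • crs (p d.fst) (p d.snd), p e.fst⟫ := by
        apply hV V M p h Sp e
        intro z hz
        have h1 := (hMt V M p h Sp U hcvx om hw x (fun d' hd' => hx d' hd'.1 hd'.2) (M.fc e)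
          (M.fc d.symm) hUe hI.2 z hz).1
        rw [hxe] at h1
        rw [← hx d hI.1 hI.2, inner_sub_left]
        linarith
      rw [real_inner_smul_left, crs_inner] at hkey
      exact (mul_nonneg_iff_of_pos_left hpos).mp hkey
    · apply hcvx d e hB
      by_contra hcon
      rw [hl2 _ hcon, hl1 _ hB.1] at he
      exact Option.some_ne_none _ he.symm
    · have hUd : ¬ U (M.fc d) := by
        have := hB.2
        rwa [SimpleGraph.Dart.symm_symm] at this
      have hUe : ¬ U (M.fc e) := by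
        intro hcon
        rw [hl1 _ hcon, hl2 _ hUd] at he
        exact Option.some_ne_none _ he
      obtain ⟨c, hc, hcr⟩ := E.bd _ hB
      have hcr2 : crs (p d.fst) (p d.snd) = (-c) • n := by
        rw [neg_smul, ← hcr]
        exact H27.crs_swap (p d.snd) (p d.fst)
      rw [← crs_inner, hcr2, real_inner_smul_left]
      have := E.dn e hUe
      nlinarith
  · obtain ⟨d, hd⟩ := E.ex
    exact ⟨d, hE2 d hd⟩
  · intro w
    constructor
    · intro hw0 hU
      rw [hl1 _ hU] at hw0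
      exact Option.some_ne_none _ hw0
    · exact hl2 w
  · exact ⟨d0, hin d0 hd0, (hE1 d0 (hin d0 hd0)).mpr hd0⟩
  · -- no meridional stress in a label class
    intro c hc om' w1 w2 w3 w4
    have hUc : ∀ w, l w = c → U w := by
      intro w hlw
      by_contra hcon
      rw [hl2 _ hcon] at hlw
      exact hc hlw.symm
    have hS' : om' ∈ S := by
      rw [hSdef]
      refine ⟨w1, fun d hd => ⟨hUc _ (w2 d hd).1, hUc _ (w2 d hd).2⟩, ?_, w4⟩
      intro v hv
      by_cases hz : ∀ d : M.G.Dart, d.fst = v → om' d = 0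
      · unfold PlaneGraph.EqAt
        apply Finset.sum_eq_zero
        intro d hd
        rw [hz d (by simpa using hd), zero_smul]
      push Not at hz
      obtain ⟨d, hdv, hd⟩ := hz
      by_cases hI : M.InV (fun w => l w = c) v
      · exact w3 v hI
      exfalso
      obtain ⟨e, he, hee⟩ := onB_of_not_inV (M := M) (T := fun w => l w = c) (d := d)
        (w2 d hd).1 (by rw [hdv]; exact hI)
      have hE0 : M.E0 l e := by
        rcases hee with hee | hee
        · intro hcon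
          exact hee.2 (hcon.symm.trans hee.1)
        · intro hcon
          apply hee.2
          rw [SimpleGraph.Dart.symm_symm]
          show l (M.fc e) = c
          rw [hcon]; exact hee.1
      have hvs : v ≠ s := fun h => hsI (by rw [← h]; exact hv)
      have hvt : v ≠ t := fun h => htI (by rw [← h]; exact hv)
      have g1 : p d.fst ≠ y := by rw [hdv, ← hs]; exact fun h => hvs (hp.inj h)
      have g2 : p d.fst ≠ -y := by rw [hdv, ← ht]; exact fun h => hvt (hp.inj h)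
      obtain ⟨α, hα, hca⟩ := H27.mer_dir hp hy (w4 d hd) g1 g2
      have hev : e.fst = v := by rw [he, hdv]
      obtain ⟨⟨e1, e1E, e1f, c1, hc1, hcr1⟩, ⟨e2, e2E, e2f, c2, hc2, hcr2⟩⟩ :=
        hdirs e hE0 (by rw [hev]; exact hvs) (by rw [hev]; exact hvt)
      have hno : ∀ e' : M.G.Dart, M.E0 l e' → d ≠ e' := by
        rintro e' he' rfl
        exact he' ((w2 d hd).1.trans (w2 d hd).2.symm)
      rcases lt_or_gt_of_ne hα with hk | hk
      · apply hno e2 e2E
        refine H27.same_dir hp (by rw [hdv, e2f, hev]) (n := crs y (p d.fst)) (c := -α)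
          (c' := c2) ?_ ?_ (by nlinarith)
        · rw [hca, H27.crs_swap (p d.fst) y, smul_neg, neg_smul, neg_neg]
        · rw [hcr2]
          have : e2.fst = d.fst := by rw [e2f, hev, hdv]
          rw [this]
      · apply hno e1 e1E
        refine H27.same_dir hp (by rw [hdv, e1f, hev]) (n := crs (p d.fst) y) (c := α)
          (c' := c1) hca ?_ (by positivity)
        rw [hcr1]
        have : e1.fst = d.fst := by rw [e1f, hev, hdv]
        rw [this]
    intro d
    by_contra hd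
    have h1 := hmax om' hS' d hd
    have h2 := w2 d hd
    have h3 : M.InD U d := ⟨hUc _ h2.1, hUc _ h2.2⟩
    exact (hE1 d h3).mpr h1 (h2.1.trans h2.2.symm)

end N9Q
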