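import Pool.Agent.Helper26.N9.Cell
import Pool.Agent.Helper30.N9.Sheet
import Pool.Agent.Helper30.N9.Sheet4

/-! MP_9b91d1_co, row FIVEB: convex cells are not flipped (helper26). -/

open scoped RealInnerProductSpace Topology

namespace N9Cell

open Pool.Agent.Helper30.N9
open Pool.Agent.Helper30.N9.PlaneGraph

variable {V : Type} [Fintype V] [DecidableEq V] {M : PlaneGraph V}

theorem coe_TF (T : Set M.Face) : ((TF T : Finset M.Face) : Set M.Face) = T := by
  ext w
  rw [Finset.mem_coe, mem_TF]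

theorem NotFl_iff {q : V → E3} {h : M.Face → E3} {T : Set M.Face} :
    NotFl M q h T ↔ ∀ g, Centre (M.bd T) (M.ga q) (M.gb q) g →
      ∑ w ∈ TF T, SA (M.fdarts w) (M.ga q) (M.gb q) (h w)
        = SA (M.bd T) (M.ga q) (M.gb q) g := by
  unfold NotFl TF
  exact Iff.rfl

/-- near a centre all unit vectors are centres -/
theorem centre_open {ι : Type*} {s : Finset ι} {a b : ι → E3} {g : E3} (hg : Centre s a b g) :
    ∀ᶠ z in 𝓝 (-g), ‖z‖ = 1 → Centre s a b (-z) := by
  have h1 : ∀ᶠ z in 𝓝 (-g), ∀ i ∈ s, 0 < ⟪-z, a i⟫ ∧ 0 < ⟪-z, b i⟫ := by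
    rw [Filter.eventually_all_finset]
    intro i hi
    have c1 : Filter.Tendsto (fun z : E3 => ⟪-z, a i⟫) (𝓝 (-g)) (𝓝 ⟪- -g, a i⟫) := by
      apply Continuous.tendsto
      fun_prop
    have c2 : Filter.Tendsto (fun z : E3 => ⟪-z, b i⟫) (𝓝 (-g)) (𝓝 ⟪- -g, b i⟫) := by
      apply Continuous.tendsto
      fun_prop
    rw [neg_neg] at c1 c2
    filter_upwards [c1.eventually_const_lt (hg.2 i hi).1,
      c2.eventually_const_lt (hg.2 i hi).2] with z e1 e2 using ⟨e1, e2⟩
  filter_upwards [h1] with z hz hz1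
  exact ⟨by rwa [norm_neg], hz⟩

theorem fiveb (hHUB : ST_HUB) (hFLIP : ST_FLIP) (hA5 : ST_A5) (hFARKAS : ST_FARKAS)
    (hHA : ST_HA) (h1 : ST_C1) (h2 : ST_C2) (h4 : ST_C4) (hSP : ST_SPANBD) : ST_FIVEB := by
  classical
  intro V _ _ M p q h hq Gp Gq hloc hle
  have key : ∀ n : ℕ, ∀ T : Set M.Face, (TF T).card = n → (∃ N, M.Cell p h T N) →
      NotFl M q hq T := by
    intro n
    induction n using Nat.strong_induction_on with
    | _ n ih =>
    intro T hcard hcell
    obtain ⟨N, C⟩ := hcell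
    rw [NotFl_iff]
    intro g hg
    have hg' : Centre (M.bd ((TF T : Finset M.Face) : Set M.Face)) (M.ga q) (M.gb q) g := by
      rw [coe_TF]; exact hg
    rcases hFLIP V M q hq (TF T) g Gq hg' with hfl | hfl
    · rw [coe_TF] at hfl
      exact hfl
    rw [coe_TF] at hfl
    by_cases hinner : ∀ v, ∃ d : M.G.Dart, d.fst = v ∧ M.fc d ∉ TF T
    · have := hA5 V M q hq (TF T) g Gq hg' hinner
      rw [coe_TF] at this
      exact this
    exfalso
    push Not at hinner
    obtain ⟨v0, hv0⟩ := hinner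
    obtain ⟨hbne, ν, hν, ho, ho', hνN, hstrict, hpos⟩ := h4 V M p h T N Gp C
    obtain ⟨d0, hd0⟩ := hbne
    obtain ⟨d1, hd1, -, -⟩ := exists_third Gp.c3 v0 d0 d0
    set A : Set V := {v | ∃ d : M.G.Dart, d.fst = v ∧ M.fc d ∉ T} with hA
    have hd1A : d1.fst ∉ A := by
      rintro ⟨d, hd, hdT⟩
      exact hdT (mem_TF.mp (hv0 d (by rw [hd, hd1])))
    obtain ⟨om, hom0, homs, homA, homne, homeq⟩ := hFARKAS V M p hloc A ⟨d1, hd1A⟩
    have hfcA : ∀ d : M.G.Dart, M.fc d ∉ T → d.fst ∈ A ∧ d.snd ∈ A := by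
      intro d hd
      refine ⟨⟨d, rfl, hd⟩, ⟨M.nxt d, M.nxt_fst d, ?_⟩⟩
      rwa [M.fc_nxt]
    have homT : ∀ d, ¬ (M.fc d ∈ T ∧ M.fc d.symm ∈ T) → om d = 0 := by
      intro d hd
      by_cases hdT : M.fc d ∈ T
      · have hdT' : M.fc d.symm ∉ T := fun hh => hd ⟨hdT, hh⟩
        have := hfcA d.symm hdT'
        exact homA d this.2 this.1
      · have := hfcA d hdT
        exact homA d this.1 this.2
    have hhub : HubHyp M p T ν :=
      { nu := hν
        ne := ⟨d0, hd0⟩
        strict := hstrict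
        left := by
          intro d hd e he
          apply h1 V M p h T N Gp C d hd
          exact h2 V M p h T N Gp C e he (left_mem_arc (Gp.inC.unit _)) }
    have hcover : ∀ᶠ z in 𝓝 (-g), ‖z‖ = 1 → M.OffAll q z →
        ∑ w ∈ Finset.univ.filter (fun w => w ∈ T), M.FW q hq w z = 1 := by
      filter_upwards [centre_open hg] with z hz hz1 hzo
      have hc := hz hz1
      have e1 := sum_FW_T Gq.inC hq T hz1 hzo
      have e2 := (bd_chain Gq.inC T).centre_indep hc hg
      rw [hfl, e2, add_sub_cancel_left, div_self (by have := Real.pi_pos; positivity)] at e1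
      exact e1
    have hNF : ∀ T' : Set M.Face, T' ⊆ T → T' ≠ T → (∃ N, M.Cell p h T' N) →
        NotFl M q hq T' := by
      intro T' hT' hne hcell'
      have hlt : (TF T').card < n := by
        rw [← hcard]
        apply Finset.card_lt_card
        rw [Finset.ssubset_iff_subset_ne]
        constructor
        · intro w hw
          rw [mem_TF] at hw ⊢
          exact hT' hw
        · intro heq
          apply hne
          rw [← coe_TF T', ← coe_TF T, heq]
      exact ih _ hlt T' rfl hcell'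
    obtain ⟨R, hR1, hR2, hR3, hR4⟩ := hHUB V M p q h hq T ν g om Gp Gq hle hhub hg.1 hom0 homs
      homT (fun v hv => homeq v (fun ⟨d, hd, hdT⟩ => hdT (hv d hd)))
      (hHA V M p h T N Gp C)
      (fun d hd => by
        have e1 := hpos d (mem_bd.mp hd).1
        have e2 := (hg.2 d hd).1
        simp only [ga] at e2
        linarith)
      (fun y hy _ => hSP V M p h T N Gp C y hy) hcover hNF (Or.inl homne)
    have e1 := hpos d0 (mem_bd.mp hd0).1
    have e2 := (hg.2 d0 hd0).1
    simp only [ga] at e2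
    rw [hR3 d0 hd0, ← hR2, R.inner_map_map, inner_neg_left] at e2
    linarith
  intro T hT
  exact key _ T rfl hT

end N9Cell
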