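import Pool.Agent.Helper30.N9.Wind
import Pool.Agent.Helper74.N9.Deg1a

/-! MP_9b91d1_co: existence of rotations with given frames (helper26). -/

open scoped RealInnerProductSpace Topology

namespace N9R

open Pool.Agent.Helper30.N9

/-- the positive frame n, a, crs n a -/
noncomputable def fr (n a : E3) : Fin 3 → E3 := ![n, a, crs n a]

theorem on_fr {n a : E3} (hn : ‖n‖ = 1) (ha : ‖a‖ = 1) (hna : ⟪n, a⟫ = (0 : ℝ)) :
    Orthonormal ℝ (fr n a) := by
  have h1 : ⟪crs n a, crs n a⟫ = (1 : ℝ) := by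
    rw [crs_inner_self, inner_self_one hn, inner_self_one ha, hna]; norm_num
  have h2 : ⟪crs n a, n⟫ = (0 : ℝ) := by rw [crs_inner]; simp only [det3]; ring
  have h3 : ⟪crs n a, a⟫ = (0 : ℝ) := by rw [crs_inner]; simp only [det3]; ring
  have h2' : ⟪n, crs n a⟫ = (0 : ℝ) := by rw [real_inner_comm]; exact h2
  have h3' : ⟪a, crs n a⟫ = (0 : ℝ) := by rw [real_inner_comm]; exact h3
  have hna' : ⟪a, n⟫ = (0 : ℝ) := by rw [real_inner_comm]; exact hna
  rw [orthonormal_iff_ite]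
  intro i j
  fin_cases i <;> fin_cases j <;>
    simp [fr, h2, h3, h2', h3', hna, hna', hn, ha]
  exact Or.inl (norm_one_iff.mpr h1)

theorem rot_ex {n a m b : E3} (hn : ‖n‖ = 1) (ha : ‖a‖ = 1) (hna : ⟪n, a⟫ = (0 : ℝ))
    (hm : ‖m‖ = 1) (hb : ‖b‖ = 1) (hmb : ⟪m, b⟫ = (0 : ℝ)) :
    ∃ R : E3 ≃ₗᵢ[ℝ] E3, LinearMap.det (R.toLinearEquiv : E3 →ₗ[ℝ] E3) = 1 ∧
      R n = m ∧ R a = b ∧ R (crs n a) = crs m b := by
  have o1 := on_fr hn ha hna
  have o2 := on_fr hm hb hmb
  have hc : Fintype.card (Fin 3) = Module.finrank ℝ E3 := by simp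
  set B1 : OrthonormalBasis (Fin 3) ℝ E3 :=
    OrthonormalBasis.mk o1 (by
      rw [o1.linearIndependent.span_eq_top_of_card_eq_finrank hc]) with hB1
  set B2 : OrthonormalBasis (Fin 3) ℝ E3 :=
    OrthonormalBasis.mk o2 (by
      rw [o2.linearIndependent.span_eq_top_of_card_eq_finrank hc]) with hB2
  have hR : ∀ i, (B1.equiv B2 (Equiv.refl _)) (fr n a i) = fr m b i := by
    intro i
    have := OrthonormalBasis.equiv_apply_basis B1 B2 (Equiv.refl _) i
    rw [hB1, hB2] at this ⊢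
    simpa using this
  have r0 : (B1.equiv B2 (Equiv.refl _)) n = m := hR 0
  have r1 : (B1.equiv B2 (Equiv.refl _)) a = b := hR 1
  have r2 : (B1.equiv B2 (Equiv.refl _)) (crs n a) = crs m b := hR 2
  refine ⟨B1.equiv B2 (Equiv.refl _), ?_, r0, r1, r2⟩
  have h := Module.Basis.det_comp (EuclideanSpace.basisFun (Fin 3) ℝ).toBasis
    ((B1.equiv B2 (Equiv.refl _)).toLinearEquiv : E3 →ₗ[ℝ] E3) ![n, a, crs n a]
  have e1 : (((B1.equiv B2 (Equiv.refl _)).toLinearEquiv : E3 →ₗ[ℝ] E3) ∘ ![n, a, crs n a])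
      = ![m, b, crs m b] := by
    funext i
    fin_cases i
    · exact r0
    · exact r1
    · exact r2
  rw [e1, ← N9Deg.det3_eq_det, ← N9Deg.det3_eq_det] at h
  have d1 : det3 n a (crs n a) = 1 := by
    rw [← crs_inner, crs_inner_self, inner_self_one hn, inner_self_one ha, hna]; norm_num
  have d2 : det3 m b (crs m b) = 1 := by
    rw [← crs_inner, crs_inner_self, inner_self_one hm, inner_self_one hb, hmb]; norm_num
  rw [d1, d2, mul_one] at h
  exact h.symm

end N9R
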