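import Pool.Agent.Helper26.N9.Hemi2
import Pool.Agent.Helper26.N9.RotEx
import Pool.Agent.Helper24.N9.Deg3
import Pool.Agent.Helper30.N9.Cx5

/-! MP_9b91d1_co, row QC (helper26). -/

open scoped RealInnerProductSpace Topology

namespace N9Q

open Pool.Agent.Helper30.N9 Pool.Agent.Helper27.N9 N9H N9R

/-- a unit vector orthogonal to m in the frame of another one -/
theorem frame_eq {m a c : E3} (hm : ‖m‖ = 1) (ha : ‖a‖ = 1) (hma : ⟪m, a⟫ = (0 : ℝ))
    (hmc : ⟪m, c⟫ = (0 : ℝ)) :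
    c = ⟪a, c⟫ • a + det3 m a c • crs m a := by
  have haa := inner_self_one ha
  have hmm := inner_self_one hm
  have h1 : ⟪crs m a, crs m a⟫ = (1 : ℝ) := by
    rw [crs_inner_self, hmm, haa, hma]; norm_num
  have h2 : ⟪crs m a, a⟫ = (0 : ℝ) := by rw [crs_inner]; simp only [det3]; ring
  have h2' : ⟪a, crs m a⟫ = (0 : ℝ) := by rw [real_inner_comm]; exact h2
  have h3 : ⟪crs m a, c⟫ = det3 m a c := crs_inner m a c
  have h3' : ⟪c, crs m a⟫ = det3 m a c := by rw [real_inner_comm]; exact h3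
  -- Parseval through det3
  have h4 : ⟪c, c⟫ = ⟪a, c⟫ ^ 2 + det3 m a c ^ 2 := by
    have e : det3 m a c ^ 2 = ⟪m, m⟫ * ⟪a, a⟫ * ⟪c, c⟫ + 2 * ⟪m, a⟫ * ⟪a, c⟫ * ⟪m, c⟫
        - ⟪m, m⟫ * ⟪a, c⟫ ^ 2 - ⟪a, a⟫ * ⟪m, c⟫ ^ 2 - ⟪c, c⟫ * ⟪m, a⟫ ^ 2 := by
      simp only [det3, inner_def]
      ring
    rw [e, hmm, haa, hma, hmc]; ring
  apply eq_of_inner_sub
  have hca : ⟪c, a⟫ = ⟪a, c⟫ := real_inner_comm _ _
  simp only [inner_sub_left, inner_sub_right, inner_add_left, inner_add_right,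
    real_inner_smul_left, real_inner_smul_right, haa, h1, h2, h2', h3, h3', hca, h4]
  ring

theorem parseval {m a c : E3} (hm : ‖m‖ = 1) (ha : ‖a‖ = 1) (hma : ⟪m, a⟫ = (0 : ℝ))
    (hmc : ⟪m, c⟫ = (0 : ℝ)) : ⟪c, c⟫ = ⟪a, c⟫ ^ 2 + det3 m a c ^ 2 := by
  have e : det3 m a c ^ 2 = ⟪m, m⟫ * ⟪a, a⟫ * ⟪c, c⟫ + 2 * ⟪m, a⟫ * ⟪a, c⟫ * ⟪m, c⟫
      - ⟪m, m⟫ * ⟪a, c⟫ ^ 2 - ⟪a, a⟫ * ⟪m, c⟫ ^ 2 - ⟪c, c⟫ * ⟪m, a⟫ ^ 2 := by
    simp only [det3, inner_def]
    ring
  rw [e, inner_self_one hm, inner_self_one ha, hma, hmc]; ring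

theorem crs_crs_self (m a : E3) : crs m (crs m a) = ⟪m, a⟫ • m - ⟪m, m⟫ • a := by
  rw [inner_def m a, inner_def m m]
  ext i
  fin_cases i <;> simp [crs] <;> ring

theorem qc (hCSEQ : ST_CSEQ) : ST_QC := by
  intro V _ _ M p q h h' n U Sp Sq hle E
  obtain ⟨k, th, v, hk, th0, hth, thk, vk, hn0, hpv, hd1, hd2⟩ := hCSEQ V M p h n U Sp E
  have hq1 : ∀ i, ‖q (v i)‖ = 1 := fun i => Sq.inc.unit (v i)
  have hp1 : ‖p (v 0)‖ = 1 := Sp.inc.unit (v 0)
  have hpp := inner_self_one hp1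
  have hnn := inner_self_one E.un
  have hcc : ⟪crs n (p (v 0)), crs n (p (v 0))⟫ = (1 : ℝ) := by
    rw [crs_inner_self, hnn, hpp, hn0]; norm_num
  have hcp : ⟪crs n (p (v 0)), p (v 0)⟫ = (0 : ℝ) := by rw [crs_inner]; simp only [det3]; ring
  have hpc : ⟪p (v 0), crs n (p (v 0))⟫ = (0 : ℝ) := by rw [real_inner_comm]; exact hcp
  have hangp : ∀ i < k, ang (p (v i)) (p (v (i + 1))) = th (i + 1) - th i := by
    intro i hi
    unfold ang
    have e : ⟪p (v i), p (v (i + 1))⟫ = Real.cos (th (i + 1) - th i) := by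
      rw [hpv i hi.le, hpv (i + 1) hi, Real.cos_sub]
      simp only [inner_add_left, inner_add_right, real_inner_smul_left, real_inner_smul_right,
        hpp, hcc, hcp, hpc]
      ring
    rw [e]
    apply Real.arccos_cos
    · linarith [(hth i hi).1]
    · linarith [(hth i hi).2]
  have hangle : ∀ i < k, ang (q (v i)) (q (v (i + 1))) ≤ th (i + 1) - th i := by
    intro i hi
    obtain ⟨d, _, h1, h2⟩ := hd1 i hi
    have := hle d
    rw [h1, h2, hangp i hi] at this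
    exact this
  have hsumth : ∑ i ∈ Finset.range k, (th (i + 1) - th i) = 2 * Real.pi := by
    rw [Finset.sum_range_sub, th0, thk]; ring
  have hsum : ∑ i ∈ Finset.range k, ang (q (v i)) (q (v (i + 1))) ≤ 2 * Real.pi := by
    rw [← hsumth]
    exact Finset.sum_le_sum fun i hi => hangle i (Finset.mem_range.mp hi)
  rcases hemi2 k (fun i => q (v i)) hk hq1 (by simp only [vk]) (by
    intro i hi
    obtain ⟨d, _, h1, h2⟩ := hd1 i hi
    intro hcon
    have := Sq.inc.inj hcon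
    rw [← h1, ← h2] at this
    exact d.adj.ne this) hsum with ⟨g, hg, hg1, hg2⟩ | ⟨hs, m, hm, hm1, hm2⟩
  · left
    refine ⟨g, hg, ?_, ?_⟩
    · intro d hd
      obtain ⟨i, hi, e1, _⟩ := hd2 d hd
      rw [e1]
      exact hg1 i hi.le
    · obtain ⟨i, hi, hpos⟩ := hg2
      rcases lt_or_eq_of_le hi with h | h
      · obtain ⟨d, hd, e1, _⟩ := hd1 i h
        exact ⟨d, hd, by rw [e1]; exact hpos⟩
      · obtain ⟨d, hd, e1, _⟩ := hd1 0 hk
        refine ⟨d, hd, ?_⟩
        rw [e1, ← vk, ← h]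
        exact hpos
  · right
    have hangq : ∀ i < k, ang (q (v i)) (q (v (i + 1))) = th (i + 1) - th i := by
      have := (Finset.sum_eq_sum_iff_of_le
        (fun i hi => hangle i (Finset.mem_range.mp hi))).mp (hs.trans hsumth.symm)
      intro i hi
      exact this i (Finset.mem_range.mpr hi)
    have hm0 : ⟪m, q (v 0)⟫ = (0 : ℝ) := hm1 0 (Nat.zero_le _)
    have hqi : ∀ i ≤ k, q (v i) = Real.cos (th i) • q (v 0) + Real.sin (th i) • crs m (q (v 0)) := by
      intro i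
      induction i with
      | zero => intro _; rw [th0, Real.cos_zero, Real.sin_zero, one_smul, zero_smul, add_zero]
      | succ j ih =>
        intro hj
        have hjk : j < k := hj
        have IH := ih hjk.le
        have e1 : ⟪q (v j), q (v (j + 1))⟫ = Real.cos (th (j + 1) - th j) := by
          rw [← cos_ang (hq1 j) (hq1 (j + 1)), hangq j hjk]
        have hsin : 0 < Real.sin (th (j + 1) - th j) :=
          Real.sin_pos_of_pos_of_lt_pi (by linarith [(hth j hjk).1]) (by linarith [(hth j hjk).2])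
        have e2 : det3 m (q (v j)) (q (v (j + 1))) = Real.sin (th (j + 1) - th j) := by
          have h1 := parseval hm (hq1 j) (hm1 j hjk.le) (hm1 (j + 1) hj)
          rw [inner_self_one (hq1 (j + 1)), e1] at h1
          have h2 := Real.sin_sq_add_cos_sq (th (j + 1) - th j)
          have h3 : det3 m (q (v j)) (q (v (j + 1))) ^ 2 = Real.sin (th (j + 1) - th j) ^ 2 := by
            linarith
          exact (pow_left_inj₀ (hm2 j hjk) hsin.le two_ne_zero).mp h3
        have e3 : crs m (q (v j)) = Real.cos (th j) • crs m (q (v 0)) -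
            Real.sin (th j) • q (v 0) := by
          rw [IH, crs_add_right, crs_smul_right, crs_smul_right, crs_crs_self, hm0,
            inner_self_one hm, zero_smul, one_smul, zero_sub, smul_neg, sub_eq_add_neg]
        have e4 := frame_eq hm (hq1 j) (hm1 j hjk.le) (hm1 (j + 1) hj)
        rw [e1, e2, e3] at e4
        rw [IH] at e4
        have e5 : th (j + 1) = (th (j + 1) - th j) + th j := by ring
        rw [e4]
        conv_rhs => rw [e5, Real.cos_add, Real.sin_add]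
        module
    obtain ⟨R, hR, r1, r2, r3⟩ := rot_ex E.un hp1 hn0 hm (hq1 0) hm0
    refine ⟨R, hR, ?_⟩
    intro d hd
    obtain ⟨i, hi, e1, _⟩ := hd2 d hd
    rw [e1, hqi i hi.le, hpv i hi.le, map_add, map_smul, map_smul, r2, r3]

end N9Q
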