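import Pool.Agent.Helper30.N9.Sheet

/-! MP_9b91d1_co, row PERI: Euclid XI.21 in spherical form (helper26). -/

namespace N9Peri

open Pool.Agent.Helper30.N9
open InnerProductGeometry
open scoped RealInnerProductSpace NNReal

theorem arg_add_of_pos {z w : ℂ} (hz : 0 < z.im) (hw : 0 < w.im) (hzw : 0 < (z * w).im) :
    z.arg + w.arg = (z * w).arg := by
  have hz0 : z ≠ 0 := by rintro rfl; simp at hz
  have hw0 : w ≠ 0 := by rintro rfl; simp at hw
  have h1 : ((z * w).arg : Real.Angle) = (z.arg : Real.Angle) + (w.arg : Real.Angle) :=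
    Complex.arg_mul_coe_angle hz0 hw0
  rw [← Real.Angle.coe_add] at h1
  obtain ⟨k, hk⟩ := Real.Angle.angle_eq_iff_two_pi_dvd_sub.mp h1
  have a1 := Complex.arg_le_pi z
  have a2 := Complex.arg_le_pi w
  have a3 := Complex.arg_le_pi (z * w)
  have b1 := Complex.arg_nonneg_iff.mpr hz.le
  have b2 := Complex.arg_nonneg_iff.mpr hw.le
  have b3 := Complex.arg_nonneg_iff.mpr hzw.le
  have c1 : z.arg ≠ Real.pi := by
    intro h; rw [Complex.arg_eq_pi_iff] at h; linarith [h.2]
  have c3 : (z * w).arg ≠ Real.pi := by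
    intro h; rw [Complex.arg_eq_pi_iff] at h; linarith [h.2]
  have c1' := lt_of_le_of_ne a1 c1
  have c3' := lt_of_le_of_ne a3 c3
  have hp := Real.pi_pos
  have hk0 : k = 0 := by
    have h2 : (k : ℝ) < 1 := by
      by_contra hcon
      push Not at hcon
      nlinarith
    have h3 : (-1 : ℝ) < k := by
      by_contra hcon
      push Not at hcon
      nlinarith
    have h4 : k < 1 := by exact_mod_cast h2
    have h5 : -1 < k := by exact_mod_cast h3
    omega
  rw [hk0] at hk
  simp at hk
  linarith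

/-- lune formula -/
theorem lune {n u v : E3} (hn : ‖n‖ = 1) (hu : ‖u‖ = 1) (hv : ‖v‖ = 1)
    (h1 : 0 < ⟪n, u⟫) (h2 : 0 < ⟪n, v⟫) (hd : 0 < det3 n u v) :
    Om n u v - Om (-n) u v
      = 2 * angle ((⟪n, u⟫)⁻¹ • u - n) ((⟪n, v⟫)⁻¹ • v - n) := by
  have hc1 : 0 < 1 + ⟪u, v⟫ := by
    apply inner_gt_neg_one hu hv
    rintro rfl
    rw [inner_neg_right] at h1
    linarith
  set a := ⟪n, u⟫ with ha
  set b := ⟪n, v⟫ with hb
  set c := ⟪u, v⟫ with hc
  set D := det3 n u v with hD
  have hgram : D ^ 2 = 1 + 2 * a * b * c - a ^ 2 - b ^ 2 - c ^ 2 := by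
    have := gram n u v
    rw [inner_self_one hn, inner_self_one hu, inner_self_one hv, real_inner_comm n v] at this
    rw [hD, this]; ring
  have hvn : ⟪v, n⟫ = b := by rw [hb, real_inner_comm]
  set w : ℂ := ⟨c - a * b, D⟩ with hw
  have hz1 : (zc n u v).im = D := rfl
  have hz2 : ((starRingEnd ℂ) (zc (-n) u v)).im = D := by
    simp only [Complex.conj_im, zc]
    rw [det3_neg_left, neg_neg]
  have hmul : zc n u v * (starRingEnd ℂ) (zc (-n) u v) = ((2 * (1 + c) : ℝ) : ℂ) * w := by
    apply Complex.ext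
    · simp only [Complex.mul_re, Complex.conj_re, Complex.conj_im, zc, inner_neg_left,
        inner_neg_right, det3_neg_left, hw, Complex.ofReal_re, Complex.ofReal_im, hvn,
        ← ha, ← hc, ← hD]
      linear_combination -hgram
    · simp only [Complex.mul_im, Complex.conj_re, Complex.conj_im, zc, inner_neg_left,
        inner_neg_right, det3_neg_left, hw, Complex.ofReal_re, Complex.ofReal_im, hvn,
        ← ha, ← hc, ← hD]
      ring
  have hargs : (zc n u v).arg + ((starRingEnd ℂ) (zc (-n) u v)).arg = w.arg := by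
    rw [arg_add_of_pos (by rw [hz1]; exact hd) (by rw [hz2]; exact hd), hmul,
      Complex.arg_real_mul _ (by linarith)]
    rw [hmul]
    simp only [Complex.mul_im, Complex.ofReal_re, Complex.ofReal_im, hw, zero_mul, add_zero]
    positivity
  have hconj : ((starRingEnd ℂ) (zc (-n) u v)).arg = - (zc (-n) u v).arg := by
    rw [Complex.arg_conj, if_neg]
    intro h
    rw [Complex.arg_eq_pi_iff] at h
    have h3 := h.2
    simp only [zc] at h3
    rw [det3_neg_left] at h3
    linarith
  have hOm : Om n u v - Om (-n) u v = 2 * w.arg := by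
    unfold Om
    rw [← hargs, hconj]; ring
  rw [hOm]
  congr 1
  rw [Complex.arg_of_im_pos (by exact hd)]
  unfold angle
  congr 1
  -- norms
  have hw2 : ‖w‖ ^ 2 = (1 - a ^ 2) * (1 - b ^ 2) := by
    rw [← Complex.normSq_eq_norm_sq, Complex.normSq_apply]
    simp only [hw]
    linear_combination hgram
  have hx2 : ‖a⁻¹ • u - n‖ ^ 2 = (1 - a ^ 2) / a ^ 2 := by
    rw [← real_inner_self_eq_norm_sq]
    simp only [inner_sub_left, inner_sub_right, real_inner_smul_left, real_inner_smul_right]
    rw [inner_self_one hn, inner_self_one hu, real_inner_comm n u, ← ha]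
    field_simp
    ring
  have hy2 : ‖b⁻¹ • v - n‖ ^ 2 = (1 - b ^ 2) / b ^ 2 := by
    rw [← real_inner_self_eq_norm_sq]
    simp only [inner_sub_left, inner_sub_right, real_inner_smul_left, real_inner_smul_right]
    rw [inner_self_one hn, inner_self_one hv, real_inner_comm n v, ← hb]
    field_simp
    ring
  have hxy : ⟪a⁻¹ • u - n, b⁻¹ • v - n⟫ = (c - a * b) / (a * b) := by
    simp only [inner_sub_left, inner_sub_right, real_inner_smul_left, real_inner_smul_right]
    rw [inner_self_one hn, real_inner_comm n u, ← ha, ← hb, ← hc]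
    field_simp
    ring
  have hnorm : ‖a⁻¹ • u - n‖ * ‖b⁻¹ • v - n‖ = ‖w‖ / (a * b) := by
    have h5 : (‖a⁻¹ • u - n‖ * ‖b⁻¹ • v - n‖) ^ 2 = (‖w‖ / (a * b)) ^ 2 := by
      rw [mul_pow, hx2, hy2, div_pow, hw2]
      field_simp
    have h6 : 0 ≤ ‖a⁻¹ • u - n‖ * ‖b⁻¹ • v - n‖ := by positivity
    have h7 : 0 ≤ ‖w‖ / (a * b) := by positivity
    exact (pow_left_inj₀ h6 h7 two_ne_zero).mp h5
  rw [hxy, hnorm]
  have hwne : ‖w‖ ≠ 0 := by
    rw [norm_ne_zero_iff]
    intro h
    have : w.im = 0 := by rw [h]; rfl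
    simp only [hw] at this
    linarith
  have hwre : w.re = c - a * b := rfl
  rw [hwre]
  field_simp

/-- Cramer in E3 -/
theorem cramerE (a b c v : E3) :
    det3 a b c • v = det3 v b c • a + det3 a v c • b + det3 a b v • c := by
  ext i
  fin_cases i <;> simp [det3] <;> ring

/-- the comparison at a vertex: A, B, C in the plane `⟪n,.⟫ = 1`, O = n. -/
theorem vertex {n A B C : E3} (hn : ‖n‖ = 1) (hA : ⟪n, A⟫ = 1) (hB : ⟪n, B⟫ = 1)
    (hC : ⟪n, C⟫ = 1) (h1 : 0 < det3 n A B) (h2 : 0 < det3 n B C) (h3 : 0 ≤ det3 A B C) :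
    angle (A - B) (n - B) + angle (n - B) (C - B) ≤ angle (A - B) (-B) + angle (-B) (C - B) ∧
    (0 < det3 A B C →
      angle (A - B) (n - B) + angle (n - B) (C - B)
        < angle (A - B) (-B) + angle (-B) (C - B)) := by
  have hnn := inner_self_one hn
  have hB0 : -B ≠ 0 := by
    intro h
    rw [neg_eq_zero] at h
    rw [h, inner_zero_right] at hB
    norm_num at hB
  have hnB : n - B ≠ 0 := by
    intro h
    rw [sub_eq_zero] at h
    rw [← h] at h2
    have : det3 n n C = 0 := by unfold det3; ring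
    linarith
  have hAB : A - B ≠ 0 := by
    intro h
    rw [sub_eq_zero] at h
    rw [h] at h1
    have : det3 n B B = 0 := by unfold det3; ring
    linarith
  have hcr := cramerE A B C n
  have hsum : det3 A B C = det3 n B C + det3 A n C + det3 A B n := by
    have h5 := congrArg (fun t => ⟪n, t⟫) hcr
    simp only [inner_add_right, real_inner_smul_right] at h5
    rw [hnn, hA, hB, hC] at h5
    linarith
  have hABn : det3 A B n = det3 n A B := by unfold det3; ring
  have hid : det3 A B C • (n - B) = det3 n B C • (A - B) + det3 n A B • (C - B) := by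
    rw [smul_sub, hcr, hABn]
    have : det3 A n C = det3 A B C - det3 n B C - det3 n A B := by
      rw [hsum, hABn]; ring
    rw [this]
    module
  rcases h3.lt_or_eq with hpos | hzero
  · have hmem : n - B ∈ Submodule.span ℝ≥0 {A - B, C - B} := by
      rw [Submodule.mem_span_pair]
      refine ⟨Real.toNNReal (det3 n B C / det3 A B C),
        Real.toNNReal (det3 n A B / det3 A B C), ?_⟩
      have h6 : n - B = (det3 A B C)⁻¹ • (det3 A B C • (n - B)) := by
        rw [smul_smul, inv_mul_cancel₀ hpos.ne', one_smul]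
      rw [h6, hid, smul_add, smul_smul, smul_smul]
      rw [NNReal.smul_def, NNReal.smul_def, Real.coe_toNNReal _ (div_pos h2 hpos).le,
        Real.coe_toNNReal _ (div_pos h1 hpos).le]
      congr 2 <;> field_simp
    have e1 := angle_eq_angle_add_add_angle_add_of_mem_span hnB hmem
    have e2 := angle_le_angle_add_angle (A - B) (-B) (C - B)
    have hstrict : angle (A - B) (C - B) ≠ angle (A - B) (-B) + angle (-B) (C - B) := by
      intro h
      rw [angle_eq_angle_add_angle_iff hB0] at h
      rcases h with h | h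
      · rw [angle_eq_pi_iff] at h
        obtain ⟨-, r, -, hr⟩ := h
        have hCe : C = B + r • (A - B) := by rw [← hr]; abel
        have : det3 A B C = 0 := by
          rw [hCe]
          simp only [det3, PiLp.add_apply, PiLp.smul_apply, PiLp.sub_apply, smul_eq_mul]
          ring
        linarith
      · rw [Submodule.mem_span_pair] at h
        obtain ⟨x, y, hxy⟩ := h
        simp only [NNReal.smul_def] at hxy
        have h7 : ⟪n, -B⟫ = (x : ℝ) * (⟪n, A⟫ - ⟪n, B⟫) + y * (⟪n, C⟫ - ⟪n, B⟫) := by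
          rw [← hxy]
          simp only [inner_add_right, real_inner_smul_right, inner_sub_right]
        rw [inner_neg_right, hA, hB, hC] at h7
        norm_num at h7
    refine ⟨by rw [← e1]; exact e2, fun _ => ?_⟩
    rw [← e1]
    exact lt_of_le_of_ne e2 hstrict
  · rw [← hzero, zero_smul] at hid
    have hpi : angle (A - B) (C - B) = Real.pi := by
      rw [angle_eq_pi_iff]
      refine ⟨hAB, -(det3 n B C / det3 n A B), ?_, ?_⟩
      · rw [neg_lt_zero]; exact div_pos h2 h1
      · have h8 : det3 n A B • (C - B) = -(det3 n B C • (A - B)) := by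
          rw [eq_neg_iff_add_eq_zero, add_comm]; exact hid.symm
        have h9 : C - B = (det3 n A B)⁻¹ • (det3 n A B • (C - B)) := by
          rw [smul_smul, inv_mul_cancel₀ h1.ne', one_smul]
        rw [h9, h8, smul_neg, smul_smul, neg_smul]
        congr 2
        field_simp
    have e1 := (angle_eq_angle_add_angle_iff (x := A - B) (z := C - B) hnB).mpr (Or.inl hpi)
    have e2 := (angle_eq_angle_add_angle_iff (x := A - B) (z := C - B) hB0).mpr (Or.inl hpi)
    refine ⟨by rw [← e1, ← e2], fun h => ?_⟩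
    exact absurd h (by rw [← hzero]; exact lt_irrefl 0)

theorem det3_smul (r s t : ℝ) (a b c : E3) :
    det3 (r • a) (s • b) (t • c) = r * s * t * det3 a b c := by
  simp only [det3, PiLp.smul_apply, smul_eq_mul]; ring

theorem st_PERI : ST_PERI := by
  intro n u ν hn hu hν hper hpos hdet hconv hstr htot
  set B : ℕ → E3 := fun i => (⟪ν, u i⟫)⁻¹ • u i with hB
  have hB1 : ∀ i, ⟪ν, B i⟫ = 1 := by
    intro i
    rw [hB]
    simp only [real_inner_smul_right]
    exact inv_mul_cancel₀ (hpos i).ne'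
  have hd1 : ∀ i, 0 < det3 ν (B i) (B (i + 1)) := by
    intro i
    have h1 : det3 ν (B i) (B (i + 1))
        = 1 * (⟪ν, u i⟫)⁻¹ * (⟪ν, u (i + 1)⟫)⁻¹ * det3 ν (u i) (u (i + 1)) := by
      rw [← det3_smul, one_smul]
    rw [h1]
    have h2 := inv_pos.mpr (hpos i)
    have h3 := inv_pos.mpr (hpos (i + 1))
    have h4 := hdet i
    positivity
  have hd2 : ∀ i, det3 (B i) (B (i + 1)) (B (i + 2))
      = (⟪ν, u i⟫)⁻¹ * (⟪ν, u (i + 1)⟫)⁻¹ * (⟪ν, u (i + 2)⟫)⁻¹
        * det3 (u i) (u (i + 1)) (u (i + 2)) := by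
    intro i
    rw [← det3_smul]
  have hq : ∀ i, 0 < (⟪ν, u i⟫)⁻¹ * (⟪ν, u (i + 1)⟫)⁻¹ * (⟪ν, u (i + 2)⟫)⁻¹ := by
    intro i
    have h2 := inv_pos.mpr (hpos i)
    have h3 := inv_pos.mpr (hpos (i + 1))
    have h4 := inv_pos.mpr (hpos (i + 2))
    positivity
  have hB0 : ∀ i, B i ≠ 0 := by
    intro i h
    have := hB1 i
    rw [h, inner_zero_right] at this
    norm_num at this
  have hBn : ∀ i, B i - ν ≠ 0 := by
    intro i h
    rw [sub_eq_zero] at h
    have := hd1 i
    rw [h] at this
    have h5 : det3 ν ν (B (i + 1)) = 0 := by unfold det3; ring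
    linarith
  have hang : ∀ i, ang (u i) (u (i + 1)) = angle (B i) (B (i + 1)) := by
    intro i
    rw [hB]
    simp only
    rw [angle_smul_left_of_pos _ _ (inv_pos.mpr (hpos i)),
      angle_smul_right_of_pos _ _ (inv_pos.mpr (hpos (i + 1)))]
    unfold ang angle
    rw [hu, hu, mul_one, div_one]
  have hBper : ∀ i, B (i + n) = B i := by
    intro i
    rw [hB]
    simp only [hper]
  -- the angle functions
  set al : ℕ → ℝ := fun i => angle (-(B i)) (B (i + 1) - B i) with hal
  set be : ℕ → ℝ := fun i => angle (B i - B (i + 1)) (-(B (i + 1))) with hbe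
  set al' : ℕ → ℝ := fun i => angle (ν - B i) (B (i + 1) - B i) with hal'
  set be' : ℕ → ℝ := fun i => angle (B i - B (i + 1)) (ν - B (i + 1)) with hbe'
  have t1 : ∀ i, angle (B i) (B (i + 1)) + al i + be i = Real.pi := by
    intro i
    have h := angle_add_angle_sub_add_angle_sub_eq_pi (B i) (hB0 (i + 1))
    rw [hal, hbe]
    simp only
    rw [← angle_neg_neg (B i) (B i - B (i + 1)), neg_sub,
      ← angle_neg_neg (B (i + 1)) (B (i + 1) - B i), neg_sub,
      angle_comm (-(B (i + 1)))] at h
    exact h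
  have t2 : ∀ i, angle (B i - ν) (B (i + 1) - ν) + al' i + be' i = Real.pi := by
    intro i
    have h := angle_add_angle_sub_add_angle_sub_eq_pi (B i - ν) (hBn (i + 1))
    rw [hal', hbe']
    simp only
    rw [sub_sub_sub_cancel_right, sub_sub_sub_cancel_right,
      ← angle_neg_neg (B i - ν) (B i - B (i + 1)), neg_sub, neg_sub,
      ← angle_neg_neg (B (i + 1) - ν) (B (i + 1) - B i), neg_sub, neg_sub,
      angle_comm (ν - B (i + 1))] at h
    exact h
  have hv := fun i => vertex hν (hB1 i) (hB1 (i + 1)) (hB1 (i + 2)) (hd1 i) (hd1 (i + 1))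
    (by rw [hd2]; exact mul_nonneg (hq i).le (hconv i))
  have hle : ∀ i, be' i + al' (i + 1) ≤ be i + al (i + 1) := fun i => (hv i).1
  obtain ⟨i0, hi0⟩ := hstr
  have hlt0 : be' i0 + al' (i0 + 1) < be i0 + al (i0 + 1) :=
    (hv i0).2 (by rw [hd2]; exact mul_pos (hq i0) hi0)
  have hBper' : ∀ k i, B (i + k * n) = B i := by
    intro k
    induction k with
    | zero => intro i; simp
    | succ k ih =>
      intro i
      rw [Nat.succ_mul, ← add_assoc, hBper, ih]
  have hmod : ∀ j, B (i0 % n + j) = B (i0 + j) := by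
    intro j
    have h1 : i0 + j = (i0 % n + j) + (i0 / n) * n := by
      have := Nat.mod_add_div i0 n
      rw [mul_comm] at this
      omega
    rw [h1, hBper']
  have hlt : be' (i0 % n) + al' (i0 % n + 1) < be (i0 % n) + al (i0 % n + 1) := by
    have e0 : B (i0 % n) = B i0 := hmod 0
    have e1 : B (i0 % n + 1) = B (i0 + 1) := hmod 1
    have e2 : B (i0 % n + 1 + 1) = B (i0 + 1 + 1) := hmod 2
    rw [hbe, hal, hbe', hal'] at hlt0 ⊢
    simp only at hlt0 ⊢
    rw [e0, e1, e2]
    exact hlt0
  have hsumlt : ∑ i ∈ Finset.range n, (be' i + al' (i + 1))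
      < ∑ i ∈ Finset.range n, (be i + al (i + 1)) := by
    apply Finset.sum_lt_sum (fun i _ => hle i)
    exact ⟨i0 % n, Finset.mem_range.mpr (Nat.mod_lt _ hn), hlt⟩
  have hshift : ∀ f : ℕ → ℝ, f n = f 0 →
      ∑ i ∈ Finset.range n, f (i + 1) = ∑ i ∈ Finset.range n, f i := by
    intro f hf
    have h1 := Finset.sum_range_succ f n
    have h2 := Finset.sum_range_succ' f n
    linarith
  have hn0 : B n = B 0 := by
    have := hBper 0
    rwa [zero_add] at this
  have hn1 : B (n + 1) = B (0 + 1) := by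
    have := hBper 1
    rwa [add_comm 1 n] at this
  have s1 : ∑ i ∈ Finset.range n, al (i + 1) = ∑ i ∈ Finset.range n, al i := by
    apply hshift
    rw [hal]
    simp only
    rw [hn0, hn1]
  have s2 : ∑ i ∈ Finset.range n, al' (i + 1) = ∑ i ∈ Finset.range n, al' i := by
    apply hshift
    rw [hal']
    simp only
    rw [hn0, hn1]
  rw [Finset.sum_add_distrib, Finset.sum_add_distrib, s1, s2] at hsumlt
  have T1 : ∑ i ∈ Finset.range n, (angle (B i) (B (i + 1)) + al i + be i)
      = ∑ i ∈ Finset.range n, (angle (B i - ν) (B (i + 1) - ν) + al' i + be' i) := by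
    apply Finset.sum_congr rfl
    intro i _
    rw [t1, t2]
  simp only [Finset.sum_add_distrib] at T1
  have T2 : ∑ i ∈ Finset.range n, (Om ν (u i) (u (i + 1)) - Om (-ν) (u i) (u (i + 1)))
      = ∑ i ∈ Finset.range n, 2 * angle (B i - ν) (B (i + 1) - ν) := by
    apply Finset.sum_congr rfl
    intro i _
    exact lune hν (hu i) (hu (i + 1)) (hpos i) (hpos (i + 1)) (hdet i)
  rw [T2, ← Finset.mul_sum] at htot
  rw [Finset.sum_congr rfl (fun i _ => hang i)]
  linarith

end N9Peri
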