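import Pool.Agent.Helper30.N9.Sheet3
import Pool.Agent.Helper26.N9.Peri
import Pool.Agent.Helper27.N9.Hemiq

/-! MP_9b91d1_co: cells of complexes, common lemmas (helper26). -/

open scoped RealInnerProductSpace Topology

namespace N9X

open Pool.Agent.Helper30.N9
open Pool.Agent.Helper30.N9.Cx
open N9Peri (cramerE)

variable {U D C : Type} [Fintype U] [DecidableEq U] [Fintype D] [DecidableEq D]
    [Fintype C] [DecidableEq C] {X : Cx U D C}

theorem mem_bd {T : Set C} {d : D} : d ∈ X.bd T ↔ X.left d ∈ T ∧ X.left (X.rev d) ∉ T := by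
  classical
  unfold Cx.bd
  simp

open Classical in
/-- the cells of T as a finset -/
noncomputable def TF (T : Set C) : Finset C := Finset.univ.filter (fun w => w ∈ T)

theorem mem_TF {T : Set C} {w : C} : w ∈ TF T ↔ w ∈ T := by
  classical
  unfold TF
  simp

open Classical in
theorem sum_TF {A : Type*} [AddCommMonoid A] (T : Set C) (f : D → A) :
    ∑ w ∈ TF T, ∑ e ∈ X.cd w, f e
      = ∑ e ∈ Finset.univ.filter (fun e : D => X.left e ∈ T), f e := by
  unfold TF
  rw [Finset.sum_filter, Finset.sum_filter, ← sum_cells (X := X)]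
  apply Finset.sum_congr rfl
  intro w _
  by_cases hw : w ∈ T
  · rw [if_pos hw]
    apply Finset.sum_congr rfl
    intro e he
    rw [mem_cd] at he
    rw [if_pos (by rw [he]; exact hw)]
  · rw [if_neg hw]
    symm
    apply Finset.sum_eq_zero
    intro e he
    rw [mem_cd] at he
    rw [if_neg (by rw [he]; exact hw)]

open Classical in
theorem sum_split {A : Type*} [AddCommMonoid A] (T : Set C) (f : D → A) :
    ∑ e ∈ Finset.univ.filter (fun e : D => X.left e ∈ T), f e
      = ∑ e ∈ X.bd T, f e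
        + ∑ e ∈ Finset.univ.filter (fun e : D => X.left e ∈ T ∧ X.left (X.rev e) ∈ T), f e := by
  have h1 : Finset.univ.filter (fun e : D => X.left e ∈ T)
      = X.bd T ∪ Finset.univ.filter (fun e : D => X.left e ∈ T ∧ X.left (X.rev e) ∈ T) := by
    ext e
    simp only [Finset.mem_filter, Finset.mem_univ, true_and, Finset.mem_union, mem_bd]
    tauto
  rw [h1, Finset.sum_union]
  rw [Finset.disjoint_left]
  intro e he he'
  rw [mem_bd] at he
  rw [Finset.mem_filter] at he'
  exact he.2 he'.2.2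

open Classical in
theorem sum_inner {A : Type*} [AddCommMonoid A] (T : Set C) (f : D → A) :
    ∑ e ∈ Finset.univ.filter (fun e : D => X.left e ∈ T ∧ X.left (X.rev e) ∈ T), f (X.rev e)
      = ∑ e ∈ Finset.univ.filter (fun e : D => X.left e ∈ T ∧ X.left (X.rev e) ∈ T), f e := by
  apply Finset.sum_nbij' (fun e => X.rev e) (fun e => X.rev e)
  · intro e he
    rw [Finset.mem_filter] at he ⊢
    rw [X.rev_rev]
    exact ⟨Finset.mem_univ _, he.2.2, he.2.1⟩
  · intro e he
    rw [Finset.mem_filter] at he ⊢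
    rw [X.rev_rev]
    exact ⟨Finset.mem_univ _, he.2.2, he.2.1⟩
  · intro e _
    exact X.rev_rev e
  · intro e _
    exact X.rev_rev e
  · intro e _
    rfl

theorem bd_closed {A : Type*} [AddCommGroup A] (T : Set C) (g : U → A) :
    ∑ d ∈ X.bd T, g (X.snd d) = ∑ d ∈ X.bd T, g (X.fst d) := by
  classical
  have h1 := sum_split (X := X) T (fun d : D => g (X.snd d))
  have h2 := sum_split (X := X) T (fun d : D => g (X.fst d))
  have h3 := sum_inner (X := X) T (fun d : D => g (X.fst d))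
  have h4 : ∑ w ∈ TF T, ∑ e ∈ X.cd w, g (X.snd e) = ∑ w ∈ TF T, ∑ e ∈ X.cd w, g (X.fst e) :=
    Finset.sum_congr rfl (fun w _ => sum_closed w g)
  rw [sum_TF, sum_TF] at h4
  rw [h1, h2] at h4
  simp only [X.fst_rev] at h3
  rw [h3] at h4
  exact add_right_cancel h4

theorem bd_chain (T : Set C) : Chain (X.bd T) X.qa X.qb where
  ua := fun _ _ => X.unit _
  ub := fun _ _ => X.unit _
  ne := fun i _ => qne i
  nn := fun i _ => X.nn i
  closed := fun g => bd_closed T (fun v => g (X.p v))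

/-- inner darts cancel -/
theorem sum_odd (T : Set C) {f : D → ℝ} (hf : ∀ d, f (X.rev d) = - f d) :
    ∑ w ∈ TF T, ∑ e ∈ X.cd w, f e = ∑ e ∈ X.bd T, f e := by
  classical
  rw [sum_TF, sum_split]
  have h3 := sum_inner (X := X) T f
  simp only [hf, Finset.sum_neg_distrib] at h3
  have h4 : ∑ e ∈ Finset.univ.filter
      (fun e : D => X.left e ∈ T ∧ X.left (X.rev e) ∈ T), f e = 0 := by linarith
  rw [h4, add_zero]

theorem sum_SA_T (T : Set C) {z : E3} (hz : ‖z‖ = 1) (ho : X.Offa z) :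
    ∑ w ∈ TF T, SA (X.cd w) X.qa X.qb (-z) = SA (X.bd T) X.qa X.qb (-z) := by
  unfold SA
  apply sum_odd
  intro d
  rw [qa_rev, qb_rev]
  exact Om_swap (slit_d hz ho d)

theorem sum_w_T (T : Set C) {z : E3} (hz : ‖z‖ = 1) (ho : X.Offa z) :
    ∑ w ∈ TF T, X.w w z = (∑ w ∈ TF T, SA (X.cd w) X.qa X.qb (X.hc w)
        - SA (X.bd T) X.qa X.qb (-z)) / (4 * Real.pi) := by
  rw [← sum_SA_T T hz ho, ← Finset.sum_sub_distrib, Finset.sum_div]
  rfl

theorem sum_w_mem (T : Set C) {z : E3} (hz : ‖z‖ = 1) (ho : X.Offa z)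
    (hT : ∃ w ∈ T, X.w w z = 1) : ∑ w ∈ TF T, X.w w z = 1 := by
  obtain ⟨w, hw, hw1⟩ := hT
  rw [Finset.sum_eq_single w]
  · exact hw1
  · intro w' _ hw'
    exact w_unique hz ho hw1 w' hw'
  · intro hn
    rw [mem_TF] at hn
    exact absurd hw hn

theorem sum_w_not (T : Set C) {z : E3} (hz : ‖z‖ = 1) (ho : X.Offa z)
    (hT : ¬ ∃ w ∈ T, X.w w z = 1) : ∑ w ∈ TF T, X.w w z = 0 := by
  apply Finset.sum_eq_zero
  intro w hw
  rcases w_cases hz ho w with h1 | h1
  · exact h1
  · exact absurd ⟨w, mem_TF.mp hw, h1⟩ hT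

theorem not_mem_neg {T : Set C} {N : Set E3} (H : X.Cell T N) {y : E3} (hy : y ∈ N)
    (hy0 : y ≠ 0) : -y ∉ N := by
  intro hn
  obtain ⟨s, hs⟩ := H.pointed
  have h1 := hs y hy hy0
  have h2 := hs (-y) hn (neg_ne_zero.mpr hy0)
  rw [inner_neg_right] at h2
  linarith

theorem smul_mem {T : Set C} {N : Set E3} (H : X.Cell T N) {y : E3} (hy : y ∈ N) {t : ℝ}
    (ht : 0 ≤ t) : t • y ∈ N := by
  have := H.cvx y hy y hy t 0 ht le_rfl
  rwa [zero_smul, add_zero] at this

theorem nrm_mem {T : Set C} {N : Set E3} (H : X.Cell T N) {y : E3} (hy0 : y ≠ 0) :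
    nrm y ∈ N ↔ y ∈ N := by
  constructor
  · intro hn
    have h1 := smul_mem H hn (norm_nonneg y)
    have h2 : ‖y‖ • nrm y = y := by
      unfold nrm
      rw [smul_smul, mul_inv_cancel₀ (norm_ne_zero_iff.mpr hy0), one_smul]
    rwa [h2] at h1
  · intro hn
    exact smul_mem H hn (by positivity)

/-- the area identity for the boundary of a cell -/
theorem area_id {T : Set C} {N : Set E3} (H : X.Cell T N) {ν : E3} (hν : ‖ν‖ = 1)
    (ho : X.Offa ν) (ho' : X.Offa (-ν)) (hN : ν ∈ N) :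
    SA (X.bd T) X.qa X.qb ν - SA (X.bd T) X.qa X.qb (-ν) = 4 * Real.pi := by
  have hν0 : ν ≠ 0 := ne_zero_of_unit hν
  have hν' : ‖-ν‖ = 1 := by rwa [norm_neg]
  have h1 := sum_w_mem T hν ho ((H.reg ν hν ho).mpr hN)
  have h2 := sum_w_not T hν' ho' (fun hh => not_mem_neg H hN hν0 ((H.reg (-ν) hν' ho').mp hh))
  rw [sum_w_T T hν ho] at h1
  rw [sum_w_T T hν' ho', neg_neg] at h2
  have hpi := Real.pi_pos
  have h3 : (4 * Real.pi) ≠ 0 := by positivity
  rw [div_eq_iff h3] at h1 h2
  linarith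

theorem det_zero_of_perp {a b c n : E3} (hn : n ≠ 0) (ha : ⟪n, a⟫ = 0) (hb : ⟪n, b⟫ = 0)
    (hc : ⟪n, c⟫ = 0) : det3 a b c = 0 := by
  have h1 := congrArg (fun t => ⟪n, t⟫) (cramerE a b c n)
  simp only [inner_add_right, real_inner_smul_right] at h1
  rw [ha, hb, hc] at h1
  simp only [mul_zero, add_zero] at h1
  rcases mul_eq_zero.mp h1 with h2 | h2
  · exact h2
  · exact absurd (inner_self_eq_zero.mp h2) hn

theorem sum_cycle {D : Type} [DecidableEq D] {B : Finset D} {u : ℕ → D}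
    (hu : ∀ i, u i ∈ B) (hall : ∀ d ∈ B, ∃ i < B.card, u i = d) (f : D → ℝ) :
    ∑ d ∈ B, f d = ∑ i ∈ Finset.range B.card, f (u i) := by
  have himg : (Finset.range B.card).image u = B := by
    ext d
    rw [Finset.mem_image]
    constructor
    · rintro ⟨i, _, rfl⟩
      exact hu i
    · intro hd
      obtain ⟨i, hi, rfl⟩ := hall d hd
      exact ⟨i, Finset.mem_range.mpr hi, rfl⟩
  have hinj : Set.InjOn u (Finset.range B.card : Set ℕ) := by
    apply Finset.card_image_iff.mp
    rw [himg, Finset.card_range]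
  conv_lhs => rw [← himg]
  rw [Finset.sum_image hinj]

theorem in_out_card (T : Set C) (v : U) :
    ((X.bd T).filter (fun d => X.snd d = v)).card
      = ((X.bd T).filter (fun d => X.fst d = v)).card := by
  have h := bd_closed (X := X) T (fun x : U => if x = v then (1 : ℤ) else 0)
  rw [Finset.sum_boole, Finset.sum_boole] at h
  exact_mod_cast h

theorem next_exists {T : Set C} {d : D} (hd : d ∈ X.bd T) :
    ∃ e ∈ X.bd T, X.fst e = X.snd d := by
  have h1 : 0 < ((X.bd T).filter (fun e => X.snd e = X.snd d)).card :=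
    Finset.card_pos.mpr ⟨d, Finset.mem_filter.mpr ⟨hd, rfl⟩⟩
  rw [in_out_card] at h1
  obtain ⟨e, he⟩ := Finset.card_pos.mp h1
  rw [Finset.mem_filter] at he
  exact ⟨e, he.1, he.2⟩

theorem in_unique {T : Set C} (h3 : ∀ d ∈ X.bd T, ∀ e ∈ X.bd T, X.fst d = X.fst e → d = e)
    {d e : D} (hd : d ∈ X.bd T) (he : e ∈ X.bd T) (h : X.snd d = X.snd e) : d = e := by
  have h1 : ((X.bd T).filter (fun x => X.fst x = X.snd d)).card ≤ 1 := by
    rw [Finset.card_le_one]
    intro a ha b hb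
    rw [Finset.mem_filter] at ha hb
    exact h3 a ha.1 b hb.1 (by rw [ha.2, hb.2])
  rw [← in_out_card, Finset.card_le_one] at h1
  exact h1 d (Finset.mem_filter.mpr ⟨hd, rfl⟩) e (Finset.mem_filter.mpr ⟨he, h.symm⟩)

theorem det3_mid (a b : E3) (t : ℝ) : det3 a b (a + t • b) = 0 := by
  simp only [det3, PiLp.add_apply, PiLp.smul_apply, smul_eq_mul]; ring

/-- a closed nonempty subset of the boundary is the whole boundary -/
theorem closed_all {T : Set C} {N : Set E3} (H : X.Cell T N)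
    (h1 : ∀ d ∈ X.bd T, ∀ y ∈ N, 0 ≤ det3 (X.qa d) (X.qb d) y)
    (h2 : ∀ d : D, X.left d ∈ T → arc (X.qa d) (X.qb d) ⊆ N) {ν : E3} (hν : ‖ν‖ = 1)
    (hd : ∀ d ∈ X.bd T, 0 < det3 (X.qa d) (X.qb d) ν) {A : Finset D}
    (hA : A ⊆ X.bd T) (hne : A.Nonempty) (hch : Chain A X.qa X.qb) : A = X.bd T := by
  have hν0 : ν ≠ 0 := ne_zero_of_unit hν
  -- constant on the left side
  have hW1 : ∀ y, (∀ d ∈ X.bd T, 0 < det3 (X.qa d) (X.qb d) y) →
      W A X.qa X.qb ν (nrm y) = W A X.qa X.qb ν (nrm ν) := by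
    intro y hy
    have hconv : Convex ℝ {y : E3 | ∀ d ∈ X.bd T, 0 < det3 (X.qa d) (X.qb d) y} := by
      have : {y : E3 | ∀ d ∈ X.bd T, 0 < det3 (X.qa d) (X.qb d) y}
          = ⋂ d ∈ X.bd T, {y : E3 | 0 < det3 (X.qa d) (X.qb d) y} := by
        ext y
        simp
      rw [this]
      exact convex_iInter (fun d => convex_iInter (fun _ => convex_det_pos _ _))
    obtain ⟨e0, he0⟩ := hne
    apply hch.W_const hconv.isPreconnected _ _ hy hd
    · intro x hx h0
      have := hx e0 (hA he0)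
      rw [h0] at this
      have h5 : det3 (X.qa e0) (X.qb e0) 0 = 0 := by simp [det3]
      linarith
    · intro x hx j hj
      exact not_mem_arc_of_det (hx j (hA hj)).ne'
  have hW0 : ∀ d ∈ X.bd T, ∀ y, det3 (X.qa d) (X.qb d) y < 0 →
      W A X.qa X.qb ν (nrm y) = W A X.qa X.qb ν (nrm (-ν)) := by
    intro d hdd y hy
    have hneg : (-ν) ∈ {y : E3 | det3 (X.qa d) (X.qb d) y < 0} := by
      show det3 (X.qa d) (X.qb d) (-ν) < 0
      rw [det3_neg_right]
      have := hd d hdd
      linarith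
    have h0 : ∀ x ∈ {y : E3 | det3 (X.qa d) (X.qb d) y < 0}, x ≠ 0 := by
      intro x hx h0
      have hx' : det3 (X.qa d) (X.qb d) x < 0 := hx
      rw [h0] at hx'
      have h5 : det3 (X.qa d) (X.qb d) 0 = 0 := by simp [det3]
      linarith
    apply hch.W_const (convex_det_neg _ _).isPreconnected h0 _ hy hneg
    intro x hx j hj hm
    have hjT : X.left j ∈ T := (mem_bd.mp (hA hj)).1
    have hxN : x ∈ N := (nrm_mem H (h0 x hx)).mp (h2 j hjT hm)
    have := h1 d hdd x hxN
    have hx' : det3 (X.qa d) (X.qb d) x < 0 := hx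
    linarith
  -- data at the middle of a boundary dart
  have hmid : ∀ e ∈ X.bd T, ∀ ε : ℝ, 0 < ε →
      (∀ d ∈ X.bd T, 0 < det3 (X.qa d) (X.qb d) (X.qa e + (1 : ℝ) • X.qb e + ε • ν)) ∧
      det3 (X.qa e) (X.qb e) (X.qa e + (1 : ℝ) • X.qb e + (-ε) • ν) < 0 := by
    intro e he ε hε
    have hpp := pt_props (X.unit (X.fst e)) (X.unit (X.snd e)) (qne e) (X.nn e)
      (zero_lt_one (α := ℝ))
    have hyN : X.qa e + (1 : ℝ) • X.qb e ∈ N :=
      (nrm_mem H hpp.1).mp (h2 e (mem_bd.mp he).1 hpp.2.1)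
    constructor
    · intro d hdd
      rw [det3_add_right, det3_smul_right]
      have e1 := h1 d hdd _ hyN
      have e2 := mul_pos hε (hd d hdd)
      linarith
    · rw [det3_add_right, det3_smul_right, det3_mid]
      have e2 := mul_pos hε (hd e he)
      linarith
  have hball : ∀ e : D, ∀ δ : ℝ, 0 < δ →
      (X.qa e + (1 : ℝ) • X.qb e + (δ / 2) • ν) ∈ Metric.ball (X.qa e + (1 : ℝ) • X.qb e) δ ∧
      (X.qa e + (1 : ℝ) • X.qb e + (-(δ / 2)) • ν)
        ∈ Metric.ball (X.qa e + (1 : ℝ) • X.qb e) δ := by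
    intro e δ hδ
    rw [Metric.mem_ball, Metric.mem_ball, dist_eq_norm, dist_eq_norm, add_sub_cancel_left,
      add_sub_cancel_left, norm_smul, norm_smul, hν, mul_one, mul_one, Real.norm_eq_abs,
      Real.norm_eq_abs, abs_neg, abs_of_pos (by linarith)]
    constructor <;> linarith
  have hdisj : ∀ e ∈ X.bd T, ∀ j ∈ X.bd T, j ≠ e →
      nrm (X.qa e + (1 : ℝ) • X.qb e) ∉ arc (X.qa j) (X.qb j) := by
    intro e he j hj hje
    have hpp := pt_props (X.unit (X.fst e)) (X.unit (X.snd e)) (qne e) (X.nn e)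
      (zero_lt_one (α := ℝ))
    apply not_other hpp.2.1 hpp.2.2.1 hpp.2.2.2 hje
    rintro rfl
    exact (mem_bd.mp he).2 (mem_bd.mp hj).1
  have hin : ∀ e ∈ A, W A X.qa X.qb ν (nrm ν) = W A X.qa X.qb ν (nrm (-ν)) + 1 := by
    intro e he
    have heB := hA he
    have hpp := pt_props (X.unit (X.fst e)) (X.unit (X.snd e)) (qne e) (X.nn e)
      (zero_lt_one (α := ℝ))
    obtain ⟨δ, hδ, w, hw⟩ := local1 hch he hpp.1 hpp.2.1 hpp.2.2.1 hpp.2.2.2
      (fun j hj hje => hdisj e heB j (hA hj) hje) ν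
    obtain ⟨b1, b2⟩ := hball e δ hδ
    obtain ⟨m1, m2⟩ := hmid e heB (δ / 2) (by linarith)
    have w1 := ((hw _ b1).2.2.2.1 (m1 e heB)).2
    have w2 := ((hw _ b2).2.2.2.2 m2).2
    rw [hW1 _ m1] at w1
    rw [hW0 e heB _ m2] at w2
    rw [w1, w2]
  have hout : ∀ e ∈ X.bd T, e ∉ A →
      W A X.qa X.qb ν (nrm ν) = W A X.qa X.qb ν (nrm (-ν)) := by
    intro e heB he
    have hpp := pt_props (X.unit (X.fst e)) (X.unit (X.snd e)) (qne e) (X.nn e)
      (zero_lt_one (α := ℝ))
    obtain ⟨δ, hδ, hw⟩ := exists_ball_off hch hpp.1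
      (fun j hj => hdisj e heB j (hA hj) (fun h0 => he (h0 ▸ hj)))
    obtain ⟨b1, b2⟩ := hball e δ hδ
    obtain ⟨m1, m2⟩ := hmid e heB (δ / 2) (by linarith)
    have w1 := hch.W_const (convex_ball _ _).isPreconnected (fun x hx => (hw x hx).1)
      (fun x hx => (hw x hx).2) b1 b2 ν
    rw [hW1 _ m1, hW0 e heB _ m2] at w1
    exact w1
  obtain ⟨e0, he0⟩ := hne
  apply Finset.Subset.antisymm hA
  intro e he
  by_contra hcon
  have a1 := hin e0 he0
  have a2 := hout e he hcon
  linarith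

theorem xc5 (h1 : ST_XC1) (h2 : ST_XC2) (h3 : ST_XC3) (h4 : ST_XC4) : ST_XC5 := by
  classical
  intro U D C _ _ _ _ _ _ X T N H
  obtain ⟨hne, ν, hν, ho, ho', hN, hd, hpos⟩ := h4 U D C X T N H
  have hc3 := h3 U D C X T N H
  have hex : ∀ x : {d // d ∈ X.bd T}, ∃ y : {d // d ∈ X.bd T}, X.fst y.1 = X.snd x.1 := by
    rintro ⟨d, hd'⟩
    obtain ⟨e, he, hes⟩ := next_exists hd'
    exact ⟨⟨e, he⟩, hes⟩
  choose f hf using hex
  have hinj : Function.Injective f := by
    intro x y hxy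
    apply Subtype.ext
    apply in_unique hc3 x.2 y.2
    rw [← hf x, ← hf y, hxy]
  obtain ⟨d0, hd0⟩ := hne
  set x0 : {d // d ∈ X.bd T} := ⟨d0, hd0⟩ with hx0
  have hper : x0 ∈ Function.periodicPts f := hinj.mem_periodicPts x0
  have hpos0 := Function.minimalPeriod_pos_of_mem_periodicPts hper
  set n0 := Function.minimalPeriod f x0 with hn0
  set u : ℕ → D := fun i => (f^[i] x0).1 with hu
  have hnext : ∀ i, X.fst (u (i + 1)) = X.snd (u i) := by
    intro i
    rw [hu]
    simp only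
    rw [Function.iterate_succ_apply', hf]
  have huinj : Set.InjOn u (Finset.range n0 : Set ℕ) := by
    intro i hi j hj hij
    rw [Finset.mem_coe, Finset.mem_range] at hi hj
    exact Function.iterate_injOn_Iio_minimalPeriod (f := f) (x := x0) hi hj (Subtype.ext hij)
  have hun : u n0 = u 0 := by
    rw [hu]
    simp only
    rw [hn0, Function.iterate_minimalPeriod]
    rfl
  set A : Finset D := (Finset.range n0).image u with hA
  have hAsub : A ⊆ X.bd T := by
    intro d hd'
    rw [hA, Finset.mem_image] at hd'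
    obtain ⟨i, _, rfl⟩ := hd'
    exact (f^[i] x0).2
  have hAne : A.Nonempty := ⟨u 0, Finset.mem_image.mpr ⟨0, Finset.mem_range.mpr hpos0, rfl⟩⟩
  have hch : Chain A X.qa X.qb :=
    { ua := fun _ _ => X.unit _
      ub := fun _ _ => X.unit _
      ne := fun i _ => qne i
      nn := fun i _ => X.nn i
      closed := by
        intro g
        rw [hA, Finset.sum_image huinj, Finset.sum_image huinj]
        have e1 : ∑ i ∈ Finset.range n0, g (X.qb (u i))
            = ∑ i ∈ Finset.range n0, g (X.qa (u (i + 1))) := by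
          apply Finset.sum_congr rfl
          intro i _
          unfold qa qb
          rw [hnext i]
        rw [e1]
        have e2 := Finset.sum_range_succ (fun i => g (X.qa (u i))) n0
        have e3 := Finset.sum_range_succ' (fun i => g (X.qa (u i))) n0
        rw [e2, hun] at e3
        exact (add_right_cancel e3).symm }
  have hAB := closed_all H (h1 U D C X T N H) (h2 U D C X T N H) hν hd hAsub hAne hch
  have hcard : (X.bd T).card = n0 := by
    rw [← hAB, hA, Finset.card_image_of_injOn huinj, Finset.card_range]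
  refine ⟨u, fun i => (f^[i] x0).2, hnext, ?_, ?_⟩
  · intro i
    rw [hcard, hu]
    simp only
    rw [hn0, Function.iterate_add_minimalPeriod_eq]
  · intro d hd'
    rw [← hAB, hA, Finset.mem_image] at hd'
    obtain ⟨i, hi, rfl⟩ := hd'
    rw [hcard]
    exact ⟨i, Finset.mem_range.mp hi, rfl⟩

theorem xc6 (h1 : ST_XC1) (h2 : ST_XC2) (h4 : ST_XC4) (h5 : ST_XC5) (hs : ST_XSPANBD) :
    ST_XC6 := by
  intro UU D C _ _ _ _ _ _ X T N H
  obtain ⟨hne, ν, hν, ho, ho', hN, hd, hpos⟩ := h4 UU D C X T N H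
  obtain ⟨u, hu, hnext, hper, hall⟩ := h5 UU D C X T N H
  have hn0 : 0 < (X.bd T).card := Finset.card_pos.mpr hne
  have hsum := fun f => sum_cycle hu hall f
  set n := (X.bd T).card with hn
  set U : ℕ → E3 := fun i => X.qa (u i) with hU
  have hsnd : ∀ i, X.qb (u i) = U (i + 1) := by
    intro i
    rw [hU]
    unfold qa qb
    simp only
    rw [hnext i]
  have hunit : ∀ i, ‖U i‖ = 1 := fun i => X.unit _
  have hUper : ∀ i, U (i + n) = U i := by
    intro i
    rw [hU]
    simp only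
    rw [hper i]
  have hfc : ∀ i, X.left (u i) ∈ T := fun i => (mem_bd.mp (hu i)).1
  have hUpos : ∀ i, 0 < ⟪ν, U i⟫ := fun i => hpos (u i) (hfc i)
  have hUdet : ∀ i, 0 < det3 ν (U i) (U (i + 1)) := by
    intro i
    have := hd (u i) (hu i)
    rw [hsnd i] at this
    rwa [det3_rot] at this
  have hUN : ∀ i, U i ∈ N := by
    intro i
    exact h2 UU D C X T N H (u i) (hfc i) (left_mem_arc (X.unit _))
  have hUconv : ∀ i, 0 ≤ det3 (U i) (U (i + 1)) (U (i + 2)) := by
    intro i
    have := h1 UU D C X T N H (u i) (hu i) (U (i + 2)) (hUN _)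
    rwa [hsnd i] at this
  have hstrict : ∃ i, 0 < det3 (U i) (U (i + 1)) (U (i + 2)) := by
    by_contra hcon
    push Not at hcon
    have hzero : ∀ i, det3 (U i) (U (i + 1)) (U (i + 2)) = 0 := fun i =>
      le_antisymm (hcon i) (hUconv i)
    set m := crs (U 0) (U 1) with hm
    have hm0 : m ≠ 0 := by
      intro h0
      have e1 : ⟪m, ν⟫ = det3 (U 0) (U 1) ν := crs_inner _ _ _
      rw [h0, inner_zero_left] at e1
      have e2 := hUdet 0
      have e3 : det3 (U 0) (U 1) ν = det3 ν (U 0) (U 1) := by unfold det3; ring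
      rw [zero_add] at e2
      linarith
    have hperp : ∀ i, ⟪m, U i⟫ = 0 ∧ ⟪m, U (i + 1)⟫ = 0 := by
      intro i
      induction i with
      | zero =>
        rw [zero_add, hm, crs_inner, crs_inner, det3_self_left, det3_self_right]
        exact ⟨rfl, rfl⟩
      | succ i ih =>
        refine ⟨ih.2, ?_⟩
        have e1 := congrArg (fun t => ⟪m, t⟫) (cramerE ν (U i) (U (i + 1)) (U (i + 2)))
        simp only [inner_add_right, real_inner_smul_right] at e1
        have e2 : det3 (U (i + 2)) (U i) (U (i + 1)) = 0 := by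
          have : det3 (U (i + 2)) (U i) (U (i + 1)) = det3 (U i) (U (i + 1)) (U (i + 2)) := by
            unfold det3; ring
          rw [this]; exact hzero i
        rw [ih.1, ih.2, e2] at e1
        simp only [mul_zero, zero_mul, add_zero] at e1
        rcases mul_eq_zero.mp e1 with e3 | e3
        · exact absurd e3 (hUdet i).ne'
        · exact e3
    have hU0 : U 0 = 0 := by
      apply hs UU D C X T N H
      intro d hd'
      obtain ⟨i, _, rfl⟩ := hall d hd'
      rw [hsnd i]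
      exact det_zero_of_perp hm0 (hperp i).1 (hperp i).2 (hperp 0).1
    have := hunit 0
    rw [hU0, norm_zero] at this
    norm_num at this
  have htot : ∑ i ∈ Finset.range n, (Om ν (U i) (U (i + 1)) - Om (-ν) (U i) (U (i + 1)))
      = 4 * Real.pi := by
    rw [← area_id H hν ho ho' hN]
    unfold SA
    rw [← Finset.sum_sub_distrib, hsum]
    apply Finset.sum_congr rfl
    intro i _
    rw [hsnd i]
  have key := N9Peri.st_PERI n U ν hn0 hunit hν hUper hUpos hUdet hUconv hstrict htot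
  rw [hsum]
  refine lt_of_eq_of_lt ?_ key
  apply Finset.sum_congr rfl
  intro i _
  rw [hsnd i]

theorem xc7 (h5 : ST_XC5) (h6 : ST_XC6) : ST_XC7 := by
  intro U D C _ _ _ _ _ _ X T N H q hq hle
  have hlt := h6 U D C X T N H
  obtain ⟨u, hu, hnext, hper, hall⟩ := h5 U D C X T N H
  have hsum := fun f => sum_cycle hu hall f
  set n := (X.bd T).card with hn
  have hsnd : ∀ i, q (X.snd (u i)) = q (X.fst (u (i + 1))) := by
    intro i
    rw [hnext i]
  have hcl : q (X.fst (u n)) = q (X.fst (u 0)) := by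
    have := hper 0
    rw [zero_add] at this
    rw [this]
  have hlt2 : ∑ i ∈ Finset.range n, ang (q (X.fst (u i))) (q (X.fst (u (i + 1))))
      < 2 * Real.pi := by
    refine lt_of_le_of_lt ?_ hlt
    rw [hsum]
    apply Finset.sum_le_sum
    intro i _
    rw [← hsnd i]
    exact hle (u i) (hu i)
  obtain ⟨g, hg, hgp⟩ := Pool.Agent.Helper27.N9.st_HEMIQ n (fun i => q (X.fst (u i)))
    (fun i => hq _) hcl hlt2
  refine ⟨g, hg, ?_⟩
  intro d hd
  obtain ⟨i, hi, rfl⟩ := hall d hd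
  refine ⟨hgp i hi.le, ?_⟩
  show 0 < ⟪g, q (X.snd (u i))⟫
  rw [hsnd i]
  exact hgp (i + 1) hi

end N9X
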