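import Pool.Agent.Helper26.N9.G6c
import Pool.Agent.Helper67.N9.G04

/-! MP_9b91d1_co: G6 (helper26). -/

namespace N9G6

open N9

theorem st_G6 : ST_G6 := by
  intro I K _ _ _ _ p h x P
  exact g6_of P (G67.g0 P) (G67.n1 P) (G67.ep P)

end N9G6
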