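import Pool.Agent.Helper26.N9.Cell

/-! MP_9b91d1_co, row C5: the boundary of a cell is one cycle (helper26). -/

open scoped RealInnerProductSpace Topology

namespace N9Cell

open Pool.Agent.Helper30.N9
open Pool.Agent.Helper30.N9.PlaneGraph

variable {V : Type} [Fintype V] [DecidableEq V] {M : PlaneGraph V}

theorem in_out_card (T : Set M.Face) (v : V) :
    ((M.bd T).filter (fun d => d.snd = v)).card = ((M.bd T).filter (fun d => d.fst = v)).card := by
  have h := bd_closed (M := M) T (fun x : V => if x = v then (1 : ℤ) else 0)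
  rw [Finset.sum_boole, Finset.sum_boole] at h
  exact_mod_cast h

theorem next_exists {T : Set M.Face} {d : M.G.Dart} (hd : d ∈ M.bd T) :
    ∃ e ∈ M.bd T, e.fst = d.snd := by
  have h1 : 0 < ((M.bd T).filter (fun e => e.snd = d.snd)).card :=
    Finset.card_pos.mpr ⟨d, Finset.mem_filter.mpr ⟨hd, rfl⟩⟩
  rw [in_out_card] at h1
  obtain ⟨e, he⟩ := Finset.card_pos.mp h1
  rw [Finset.mem_filter] at he
  exact ⟨e, he.1, he.2⟩

theorem in_unique {T : Set M.Face} (h3 : ∀ d ∈ M.bd T, ∀ e ∈ M.bd T, d.fst = e.fst → d = e)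
    {d e : M.G.Dart} (hd : d ∈ M.bd T) (he : e ∈ M.bd T) (h : d.snd = e.snd) : d = e := by
  have h1 : ((M.bd T).filter (fun x => x.fst = d.snd)).card ≤ 1 := by
    rw [Finset.card_le_one]
    intro a ha b hb
    rw [Finset.mem_filter] at ha hb
    exact h3 a ha.1 b hb.1 (by rw [ha.2, hb.2])
  rw [← in_out_card, Finset.card_le_one] at h1
  exact h1 d (Finset.mem_filter.mpr ⟨hd, rfl⟩) e (Finset.mem_filter.mpr ⟨he, h.symm⟩)

theorem det3_mid (a b : E3) (t : ℝ) : det3 a b (a + t • b) = 0 := by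
  simp only [det3, PiLp.add_apply, PiLp.smul_apply, smul_eq_mul]; ring

/-- a closed nonempty subset of the boundary is the whole boundary -/
theorem closed_all {p : V → E3} {h : M.Face → E3} {T : Set M.Face} {N : Set E3}
    (G : Good M p h) (C : M.Cell p h T N)
    (h1 : ∀ d ∈ M.bd T, ∀ y ∈ N, 0 ≤ det3 (p d.fst) (p d.snd) y)
    (h2 : ∀ d : M.G.Dart, M.fc d ∈ T → arc (p d.fst) (p d.snd) ⊆ N) {ν : E3} (hν : ‖ν‖ = 1)
    (hd : ∀ d ∈ M.bd T, 0 < det3 (p d.fst) (p d.snd) ν) {A : Finset M.G.Dart}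
    (hA : A ⊆ M.bd T) (hne : A.Nonempty) (hch : Chain A (M.ga p) (M.gb p)) :
    A = M.bd T := by
  have hν0 : ν ≠ 0 := ne_zero_of_unit hν
  -- constant on the left side
  have hW1 : ∀ y, (∀ d ∈ M.bd T, 0 < det3 (p d.fst) (p d.snd) y) →
      W A (M.ga p) (M.gb p) ν (nrm y) = W A (M.ga p) (M.gb p) ν (nrm ν) := by
    intro y hy
    have hconv : Convex ℝ {y : E3 | ∀ d ∈ M.bd T, 0 < det3 (p d.fst) (p d.snd) y} := by
      have : {y : E3 | ∀ d ∈ M.bd T, 0 < det3 (p d.fst) (p d.snd) y}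
          = ⋂ d ∈ M.bd T, {y : E3 | 0 < det3 (p d.fst) (p d.snd) y} := by
        ext y
        simp
      rw [this]
      exact convex_iInter (fun d => convex_iInter (fun _ => convex_det_pos _ _))
    obtain ⟨e0, he0⟩ := hne
    apply hch.W_const hconv.isPreconnected _ _ hy hd
    · intro x hx h0
      have := hx e0 (hA he0)
      rw [h0] at this
      have h5 : det3 (p e0.fst) (p e0.snd) 0 = 0 := by simp [det3]
      linarith
    · intro x hx j hj
      exact not_mem_arc_of_det (hx j (hA hj)).ne'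
  have hW0 : ∀ d ∈ M.bd T, ∀ y, det3 (p d.fst) (p d.snd) y < 0 →
      W A (M.ga p) (M.gb p) ν (nrm y) = W A (M.ga p) (M.gb p) ν (nrm (-ν)) := by
    intro d hdd y hy
    have hneg : (-ν) ∈ {y : E3 | det3 (p d.fst) (p d.snd) y < 0} := by
      show det3 (p d.fst) (p d.snd) (-ν) < 0
      rw [det3_neg_right]
      have := hd d hdd
      linarith
    have h0 : ∀ x ∈ {y : E3 | det3 (p d.fst) (p d.snd) y < 0}, x ≠ 0 := by
      intro x hx h0
      have hx' : det3 (p d.fst) (p d.snd) x < 0 := hx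
      rw [h0] at hx'
      have h5 : det3 (p d.fst) (p d.snd) 0 = 0 := by simp [det3]
      linarith
    apply hch.W_const (convex_det_neg _ _).isPreconnected h0 _ hy hneg
    intro x hx j hj hm
    have hjT : M.fc j ∈ T := (mem_bd.mp (hA hj)).1
    have hxN : x ∈ N := (nrm_mem C (h0 x hx)).mp (h2 j hjT hm)
    have := h1 d hdd x hxN
    have hx' : det3 (p d.fst) (p d.snd) x < 0 := hx
    linarith
  -- data at the middle of a boundary dart
  have hmid : ∀ e ∈ M.bd T, ∀ ε : ℝ, 0 < ε →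
      (∀ d ∈ M.bd T, 0 < det3 (p d.fst) (p d.snd) (p e.fst + (1 : ℝ) • p e.snd + ε • ν)) ∧
      det3 (p e.fst) (p e.snd) (p e.fst + (1 : ℝ) • p e.snd + (-ε) • ν) < 0 := by
    intro e he ε hε
    have hpp := pt_props (G.inC.unit e.fst) (G.inC.unit e.snd) (G.inC.q_ne e) (G.inC.ne_neg e)
      (zero_lt_one (α := ℝ))
    have hyN : p e.fst + (1 : ℝ) • p e.snd ∈ N :=
      (nrm_mem C hpp.1).mp (h2 e (mem_bd.mp he).1 hpp.2.1)
    constructor
    · intro d hdd
      rw [det3_add_right, det3_smul_right]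
      have e1 := h1 d hdd _ hyN
      have e2 := mul_pos hε (hd d hdd)
      linarith
    · rw [det3_add_right, det3_smul_right, det3_mid]
      have e2 := mul_pos hε (hd e he)
      linarith
  have hball : ∀ e : M.G.Dart, ∀ δ : ℝ, 0 < δ →
      (p e.fst + (1 : ℝ) • p e.snd + (δ / 2) • ν) ∈ Metric.ball (p e.fst + (1 : ℝ) • p e.snd) δ ∧
      (p e.fst + (1 : ℝ) • p e.snd + (-(δ / 2)) • ν)
        ∈ Metric.ball (p e.fst + (1 : ℝ) • p e.snd) δ := by
    intro e δ hδ
    rw [Metric.mem_ball, Metric.mem_ball, dist_eq_norm, dist_eq_norm, add_sub_cancel_left,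
      add_sub_cancel_left, norm_smul, norm_smul, hν, mul_one, mul_one, Real.norm_eq_abs,
      Real.norm_eq_abs, abs_neg, abs_of_pos (by linarith)]
    constructor <;> linarith
  have hdisj : ∀ e ∈ M.bd T, ∀ j ∈ M.bd T, j ≠ e →
      nrm (p e.fst + (1 : ℝ) • p e.snd) ∉ arc (p j.fst) (p j.snd) := by
    intro e he j hj hje
    have hpp := pt_props (G.inC.unit e.fst) (G.inC.unit e.snd) (G.inC.q_ne e) (G.inC.ne_neg e)
      (zero_lt_one (α := ℝ))
    apply arc_disj G.inC hje _ hpp.2.1 hpp.2.2.1 hpp.2.2.2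
    rintro rfl
    exact (mem_bd.mp he).2 (mem_bd.mp hj).1
  have hin : ∀ e ∈ A, W A (M.ga p) (M.gb p) ν (nrm ν)
      = W A (M.ga p) (M.gb p) ν (nrm (-ν)) + 1 := by
    intro e he
    have heB := hA he
    have hpp := pt_props (G.inC.unit e.fst) (G.inC.unit e.snd) (G.inC.q_ne e) (G.inC.ne_neg e)
      (zero_lt_one (α := ℝ))
    obtain ⟨δ, hδ, w, hw⟩ := local1 hch he hpp.1 hpp.2.1 hpp.2.2.1 hpp.2.2.2
      (fun j hj hje => hdisj e heB j (hA hj) hje) ν
    obtain ⟨b1, b2⟩ := hball e δ hδ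
    obtain ⟨m1, m2⟩ := hmid e heB (δ / 2) (by linarith)
    have w1 := ((hw _ b1).2.2.2.1 (m1 e heB)).2
    have w2 := ((hw _ b2).2.2.2.2 m2).2
    rw [hW1 _ m1] at w1
    rw [hW0 e heB _ m2] at w2
    rw [w1, w2]
  have hout : ∀ e ∈ M.bd T, e ∉ A → W A (M.ga p) (M.gb p) ν (nrm ν)
      = W A (M.ga p) (M.gb p) ν (nrm (-ν)) := by
    intro e heB he
    have hpp := pt_props (G.inC.unit e.fst) (G.inC.unit e.snd) (G.inC.q_ne e) (G.inC.ne_neg e)
      (zero_lt_one (α := ℝ))
    obtain ⟨δ, hδ, hw⟩ := exists_ball_off hch hpp.1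
      (fun j hj => hdisj e heB j (hA hj) (fun h0 => he (h0 ▸ hj)))
    obtain ⟨b1, b2⟩ := hball e δ hδ
    obtain ⟨m1, m2⟩ := hmid e heB (δ / 2) (by linarith)
    have w1 := hch.W_const (convex_ball _ _).isPreconnected (fun x hx => (hw x hx).1)
      (fun x hx => (hw x hx).2) b1 b2 ν
    rw [hW1 _ m1, hW0 e heB _ m2] at w1
    exact w1
  obtain ⟨e0, he0⟩ := hne
  apply Finset.Subset.antisymm hA
  intro e he
  by_contra hcon
  have a1 := hin e0 he0
  have a2 := hout e he hcon
  linarith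

theorem c5 (h1 : ST_C1) (h2 : ST_C2) (h3 : ST_C3) (h4 : ST_C4) : ST_C5 := by
  classical
  intro V _ _ M p h T N G C
  obtain ⟨hne, ν, hν, ho, ho', hN, hd, hpos⟩ := h4 V M p h T N G C
  have hc3 := h3 V M p h T N G C
  have hex : ∀ x : {d // d ∈ M.bd T}, ∃ y : {d // d ∈ M.bd T}, y.1.fst = x.1.snd := by
    rintro ⟨d, hd'⟩
    obtain ⟨e, he, hes⟩ := next_exists hd'
    exact ⟨⟨e, he⟩, hes⟩
  choose f hf using hex
  have hinj : Function.Injective f := by
    intro x y hxy
    apply Subtype.ext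
    apply in_unique hc3 x.2 y.2
    rw [← hf x, ← hf y, hxy]
  obtain ⟨d0, hd0⟩ := hne
  set x0 : {d // d ∈ M.bd T} := ⟨d0, hd0⟩ with hx0
  have hper : x0 ∈ Function.periodicPts f := hinj.mem_periodicPts x0
  have hpos0 := Function.minimalPeriod_pos_of_mem_periodicPts hper
  set n0 := Function.minimalPeriod f x0 with hn0
  set u : ℕ → M.G.Dart := fun i => (f^[i] x0).1 with hu
  have hnext : ∀ i, (u (i + 1)).fst = (u i).snd := by
    intro i
    rw [hu]
    simp only
    rw [Function.iterate_succ_apply', hf]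
  have huinj : Set.InjOn u (Finset.range n0 : Set ℕ) := by
    intro i hi j hj hij
    rw [Finset.mem_coe, Finset.mem_range] at hi hj
    exact Function.iterate_injOn_Iio_minimalPeriod (f := f) (x := x0) hi hj (Subtype.ext hij)
  have hun : u n0 = u 0 := by
    rw [hu]
    simp only
    rw [hn0, Function.iterate_minimalPeriod]
    rfl
  set A : Finset M.G.Dart := (Finset.range n0).image u with hA
  have hAsub : A ⊆ M.bd T := by
    intro d hd'
    rw [hA, Finset.mem_image] at hd'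
    obtain ⟨i, _, rfl⟩ := hd'
    exact (f^[i] x0).2
  have hAne : A.Nonempty := ⟨u 0, Finset.mem_image.mpr ⟨0, Finset.mem_range.mpr hpos0, rfl⟩⟩
  have hch : Chain A (M.ga p) (M.gb p) :=
    { ua := fun _ _ => G.inC.unit _
      ub := fun _ _ => G.inC.unit _
      ne := fun i _ => G.inC.q_ne i
      nn := fun i _ => G.inC.ne_neg i
      closed := by
        intro g
        rw [hA, Finset.sum_image huinj, Finset.sum_image huinj]
        have e1 : ∑ i ∈ Finset.range n0, g (M.gb p (u i))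
            = ∑ i ∈ Finset.range n0, g (M.ga p (u (i + 1))) := by
          apply Finset.sum_congr rfl
          intro i _
          simp only [ga, gb]
          rw [hnext i]
        rw [e1]
        have e2 := Finset.sum_range_succ (fun i => g (M.ga p (u i))) n0
        have e3 := Finset.sum_range_succ' (fun i => g (M.ga p (u i))) n0
        rw [e2, hun] at e3
        exact (add_right_cancel e3).symm }
  have hAB := closed_all G C (h1 V M p h T N G C) (h2 V M p h T N G C) hν hd hAsub hAne hch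
  have hcard : (M.bd T).card = n0 := by
    rw [← hAB, hA, Finset.card_image_of_injOn huinj, Finset.card_range]
  refine ⟨u, fun i => (f^[i] x0).2, hnext, ?_, ?_⟩
  · intro i
    rw [hcard, hu]
    simp only
    rw [hn0, Function.iterate_add_minimalPeriod_eq]
  · intro d hd'
    rw [← hAB, hA, Finset.mem_image] at hd'
    obtain ⟨i, hi, rfl⟩ := hd'
    rw [hcard]
    exact ⟨i, Finset.mem_range.mp hi, rfl⟩

end N9Cell
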