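import Pool.Agent.Helper26.N9.Cell
import Pool.Agent.Helper26.N9.Peri
import Pool.Agent.Helper27.N9.Hemiq

/-! MP_9b91d1_co, rows C6 and C7 (helper26). -/

open scoped RealInnerProductSpace Topology

namespace N9Cell

open Pool.Agent.Helper30.N9
open Pool.Agent.Helper30.N9.PlaneGraph
open N9Peri (cramerE)

theorem det_zero_of_perp {a b c n : E3} (hn : n ≠ 0) (ha : ⟪n, a⟫ = 0) (hb : ⟪n, b⟫ = 0)
    (hc : ⟪n, c⟫ = 0) : det3 a b c = 0 := by
  have h1 := congrArg (fun t => ⟪n, t⟫) (cramerE a b c n)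
  simp only [inner_add_right, real_inner_smul_right] at h1
  rw [ha, hb, hc] at h1
  simp only [mul_zero, add_zero] at h1
  rcases mul_eq_zero.mp h1 with h2 | h2
  · exact h2
  · exact absurd (inner_self_eq_zero.mp h2) hn

theorem sum_cycle {D : Type} [DecidableEq D] {B : Finset D} {u : ℕ → D}
    (hu : ∀ i, u i ∈ B) (hall : ∀ d ∈ B, ∃ i < B.card, u i = d) (f : D → ℝ) :
    ∑ d ∈ B, f d = ∑ i ∈ Finset.range B.card, f (u i) := by
  have himg : (Finset.range B.card).image u = B := by
    ext d
    rw [Finset.mem_image]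
    constructor
    · rintro ⟨i, _, rfl⟩
      exact hu i
    · intro hd
      obtain ⟨i, hi, rfl⟩ := hall d hd
      exact ⟨i, Finset.mem_range.mpr hi, rfl⟩
  have hinj : Set.InjOn u (Finset.range B.card : Set ℕ) := by
    apply Finset.card_image_iff.mp
    rw [himg, Finset.card_range]
  conv_lhs => rw [← himg]
  rw [Finset.sum_image hinj]

theorem c6 (h1 : ST_C1) (h2 : ST_C2) (h4 : ST_C4) (h5 : ST_C5) (hs : ST_SPANBD) : ST_C6 := by
  intro V _ _ M p h T N G C
  obtain ⟨hne, ν, hν, ho, ho', hN, hd, hpos⟩ := h4 V M p h T N G C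
  obtain ⟨u, hu, hnext, hper, hall⟩ := h5 V M p h T N G C
  have hn0 : 0 < (M.bd T).card := Finset.card_pos.mpr hne
  have hsum := fun f => sum_cycle hu hall f
  set n := (M.bd T).card with hn
  set U : ℕ → E3 := fun i => p (u i).fst with hU
  have hsnd : ∀ i, p (u i).snd = U (i + 1) := by
    intro i
    rw [hU]
    simp only
    rw [hnext i]
  have hunit : ∀ i, ‖U i‖ = 1 := fun i => G.inC.unit _
  have hUper : ∀ i, U (i + n) = U i := by
    intro i
    rw [hU]
    simp only
    rw [hper i]
  have hfc : ∀ i, M.fc (u i) ∈ T := fun i => (mem_bd.mp (hu i)).1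
  have hUpos : ∀ i, 0 < ⟪ν, U i⟫ := fun i => hpos (u i) (hfc i)
  have hUdet : ∀ i, 0 < det3 ν (U i) (U (i + 1)) := by
    intro i
    have := hd (u i) (hu i)
    rw [hsnd i] at this
    rwa [det3_rot] at this
  have hUN : ∀ i, U i ∈ N := by
    intro i
    exact h2 V M p h T N G C (u i) (hfc i) (left_mem_arc (G.inC.unit _))
  have hUconv : ∀ i, 0 ≤ det3 (U i) (U (i + 1)) (U (i + 2)) := by
    intro i
    have := h1 V M p h T N G C (u i) (hu i) (U (i + 2)) (hUN _)
    rwa [hsnd i] at this
  have hstrict : ∃ i, 0 < det3 (U i) (U (i + 1)) (U (i + 2)) := by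
    by_contra hcon
    push Not at hcon
    have hzero : ∀ i, det3 (U i) (U (i + 1)) (U (i + 2)) = 0 := fun i =>
      le_antisymm (hcon i) (hUconv i)
    set m := crs (U 0) (U 1) with hm
    have hm0 : m ≠ 0 := by
      intro h0
      have e1 : ⟪m, ν⟫ = det3 (U 0) (U 1) ν := crs_inner _ _ _
      rw [h0, inner_zero_left] at e1
      have e2 := hUdet 0
      have e3 : det3 (U 0) (U 1) ν = det3 ν (U 0) (U 1) := by unfold det3; ring
      rw [zero_add] at e2
      linarith
    have hperp : ∀ i, ⟪m, U i⟫ = 0 ∧ ⟪m, U (i + 1)⟫ = 0 := by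
      intro i
      induction i with
      | zero =>
        rw [zero_add, hm, crs_inner, crs_inner, det3_self_left, det3_self_right]
        exact ⟨rfl, rfl⟩
      | succ i ih =>
        refine ⟨ih.2, ?_⟩
        have e1 := congrArg (fun t => ⟪m, t⟫) (cramerE ν (U i) (U (i + 1)) (U (i + 2)))
        simp only [inner_add_right, real_inner_smul_right] at e1
        have e2 : det3 (U (i + 2)) (U i) (U (i + 1)) = 0 := by
          have : det3 (U (i + 2)) (U i) (U (i + 1)) = det3 (U i) (U (i + 1)) (U (i + 2)) := by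
            unfold det3; ring
          rw [this]; exact hzero i
        rw [ih.1, ih.2, e2] at e1
        simp only [mul_zero, zero_mul, add_zero] at e1
        rcases mul_eq_zero.mp e1 with e3 | e3
        · exact absurd e3 (hUdet i).ne'
        · exact e3
    have hU0 : U 0 = 0 := by
      apply hs V M p h T N G C
      intro d hd'
      obtain ⟨i, _, rfl⟩ := hall d hd'
      rw [hsnd i]
      exact det_zero_of_perp hm0 (hperp i).1 (hperp i).2 (hperp 0).1
    have := hunit 0
    rw [hU0, norm_zero] at this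
    norm_num at this
  have htot : ∑ i ∈ Finset.range n, (Om ν (U i) (U (i + 1)) - Om (-ν) (U i) (U (i + 1)))
      = 4 * Real.pi := by
    rw [← area_id G C hν ho ho' hN]
    unfold SA
    rw [← Finset.sum_sub_distrib, hsum]
    apply Finset.sum_congr rfl
    intro i _
    simp only [ga, gb]
    rw [hsnd i]
  have key := N9Peri.st_PERI n U ν hn0 hunit hν hUper hUpos hUdet hUconv hstrict htot
  rw [hsum]
  refine lt_of_eq_of_lt ?_ key
  apply Finset.sum_congr rfl
  intro i _
  rw [hsnd i]

theorem c7 (h5 : ST_C5) (h6 : ST_C6) : ST_C7 := by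
  intro V _ _ M p h T N G C q hq hle
  have hlt := h6 V M p h T N G C
  obtain ⟨u, hu, hnext, hper, hall⟩ := h5 V M p h T N G C
  have hsum := fun f => sum_cycle hu hall f
  set n := (M.bd T).card with hn
  have hsnd : ∀ i, q (u i).snd = q (u (i + 1)).fst := by
    intro i
    rw [hnext i]
  have hcl : q (u n).fst = q (u 0).fst := by
    have := hper 0
    rw [zero_add] at this
    rw [this]
  have hlt2 : ∑ i ∈ Finset.range n, ang (q (u i).fst) (q (u (i + 1)).fst) < 2 * Real.pi := by
    refine lt_of_le_of_lt ?_ hlt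
    rw [hsum]
    apply Finset.sum_le_sum
    intro i _
    rw [← hsnd i]
    exact hle (u i)
  obtain ⟨g, hg, hgp⟩ := Pool.Agent.Helper27.N9.st_HEMIQ n (fun i => q (u i).fst)
    (fun i => hq _) hcl hlt2
  refine ⟨g, hg, ?_⟩
  intro d hd
  obtain ⟨i, hi, rfl⟩ := hall d hd
  refine ⟨hgp i hi.le, ?_⟩
  simp only [gb]
  rw [hsnd i]
  exact hgp (i + 1) hi

end N9Cell
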