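import Pool.Agent.Helper30.N9.Sheet2

/-! MP_9b91d1_co: cells, common lemmas (helper26). -/

open scoped RealInnerProductSpace Topology

namespace N9Cell

open Pool.Agent.Helper30.N9
open Pool.Agent.Helper30.N9.PlaneGraph

variable {V : Type} [Fintype V] [DecidableEq V] {M : PlaneGraph V}

theorem mem_bd {T : Set M.Face} {d : M.G.Dart} :
    d ∈ M.bd T ↔ M.fc d ∈ T ∧ M.fc d.symm ∉ T := by
  classical
  unfold PlaneGraph.bd
  simp

open Classical in
/-- the faces of T as a finset -/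
noncomputable def TF (T : Set M.Face) : Finset M.Face := Finset.univ.filter (fun w => w ∈ T)

theorem mem_TF {T : Set M.Face} {w : M.Face} : w ∈ TF T ↔ w ∈ T := by
  classical
  unfold TF
  simp

open Classical in
theorem sum_TF {A : Type*} [AddCommMonoid A] (T : Set M.Face) (f : M.G.Dart → A) :
    ∑ w ∈ TF T, ∑ e ∈ M.fdarts w, f e
      = ∑ e ∈ Finset.univ.filter (fun e : M.G.Dart => M.fc e ∈ T), f e := by
  unfold TF
  rw [Finset.sum_filter, Finset.sum_filter, ← sum_faces]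
  apply Finset.sum_congr rfl
  intro w _
  by_cases hw : w ∈ T
  · rw [if_pos hw]
    apply Finset.sum_congr rfl
    intro e he
    rw [mem_fdarts] at he
    rw [if_pos (by rw [he]; exact hw)]
  · rw [if_neg hw]
    symm
    apply Finset.sum_eq_zero
    intro e he
    rw [mem_fdarts] at he
    rw [if_neg (by rw [he]; exact hw)]

open Classical in
theorem sum_split {A : Type*} [AddCommMonoid A] (T : Set M.Face) (f : M.G.Dart → A) :
    ∑ e ∈ Finset.univ.filter (fun e : M.G.Dart => M.fc e ∈ T), f e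
      = ∑ e ∈ M.bd T, f e
        + ∑ e ∈ Finset.univ.filter (fun e : M.G.Dart => M.fc e ∈ T ∧ M.fc e.symm ∈ T), f e := by
  have h1 : Finset.univ.filter (fun e : M.G.Dart => M.fc e ∈ T)
      = M.bd T ∪ Finset.univ.filter (fun e : M.G.Dart => M.fc e ∈ T ∧ M.fc e.symm ∈ T) := by
    ext e
    simp only [Finset.mem_filter, Finset.mem_univ, true_and, Finset.mem_union, mem_bd]
    tauto
  rw [h1, Finset.sum_union]
  rw [Finset.disjoint_left]
  intro e he he'
  rw [mem_bd] at he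
  rw [Finset.mem_filter] at he'
  exact he.2 he'.2.2

open Classical in
theorem sum_inner {A : Type*} [AddCommMonoid A] (T : Set M.Face) (f : M.G.Dart → A) :
    ∑ e ∈ Finset.univ.filter (fun e : M.G.Dart => M.fc e ∈ T ∧ M.fc e.symm ∈ T), f e.symm
      = ∑ e ∈ Finset.univ.filter (fun e : M.G.Dart => M.fc e ∈ T ∧ M.fc e.symm ∈ T), f e := by
  apply Finset.sum_nbij' (fun e => e.symm) (fun e => e.symm)
  · intro e he
    rw [Finset.mem_filter] at he ⊢
    rw [SimpleGraph.Dart.symm_symm]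
    exact ⟨Finset.mem_univ _, he.2.2, he.2.1⟩
  · intro e he
    rw [Finset.mem_filter] at he ⊢
    rw [SimpleGraph.Dart.symm_symm]
    exact ⟨Finset.mem_univ _, he.2.2, he.2.1⟩
  · intro e _
    exact SimpleGraph.Dart.symm_symm e
  · intro e _
    exact SimpleGraph.Dart.symm_symm e
  · intro e _
    rfl

theorem bd_closed {A : Type*} [AddCommGroup A] (T : Set M.Face) (g : V → A) :
    ∑ d ∈ M.bd T, g d.snd = ∑ d ∈ M.bd T, g d.fst := by
  classical
  have h1 := sum_split T (fun d : M.G.Dart => g d.snd)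
  have h2 := sum_split T (fun d : M.G.Dart => g d.fst)
  have h3 := sum_inner T (fun d : M.G.Dart => g d.fst)
  have h4 : ∑ w ∈ TF T, ∑ e ∈ M.fdarts w, g e.snd = ∑ w ∈ TF T, ∑ e ∈ M.fdarts w, g e.fst :=
    Finset.sum_congr rfl (fun w _ => sum_snd w g)
  rw [sum_TF, sum_TF] at h4
  rw [h1, h2] at h4
  have h5 : ∀ e : M.G.Dart, e.symm.fst = e.snd := fun _ => rfl
  simp only [h5] at h3
  rw [h3] at h4
  exact add_right_cancel h4

theorem bd_chain {q : V → E3} (hq : M.InC q) (T : Set M.Face) :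
    Chain (M.bd T) (M.ga q) (M.gb q) where
  ua := fun i _ => hq.unit _
  ub := fun i _ => hq.unit _
  ne := fun i _ => hq.q_ne i
  nn := fun i _ => hq.ne_neg i
  closed := fun g => bd_closed T (fun v => g (q v))

/-- inner darts cancel -/
theorem sum_odd (T : Set M.Face) {f : M.G.Dart → ℝ} (hf : ∀ d, f d.symm = - f d) :
    ∑ w ∈ TF T, ∑ e ∈ M.fdarts w, f e = ∑ e ∈ M.bd T, f e := by
  classical
  rw [sum_TF, sum_split]
  have h3 := sum_inner T f
  simp only [hf, Finset.sum_neg_distrib] at h3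
  have h4 : ∑ e ∈ Finset.univ.filter
      (fun e : M.G.Dart => M.fc e ∈ T ∧ M.fc e.symm ∈ T), f e = 0 := by linarith
  rw [h4, add_zero]

theorem sum_SA_T {q : V → E3} (hq : M.InC q) (T : Set M.Face) {z : E3} (hz : ‖z‖ = 1)
    (ho : M.OffAll q z) : ∑ w ∈ TF T, SA (M.fdarts w) (M.ga q) (M.gb q) (-z)
      = SA (M.bd T) (M.ga q) (M.gb q) (-z) := by
  unfold SA
  apply sum_odd
  intro d
  simp only [ga, gb]
  exact Om_swap (slit_of_not_mem hz (hq.unit _) (hq.unit _) (hq.q_ne d) (hq.ne_neg d) (ho d))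

theorem sum_FW_T {q : V → E3} (hq : M.InC q) (h : M.Face → E3) (T : Set M.Face) {z : E3}
    (hz : ‖z‖ = 1) (ho : M.OffAll q z) : ∑ w ∈ TF T, M.FW q h w z
      = (∑ w ∈ TF T, SA (M.fdarts w) (M.ga q) (M.gb q) (h w)
        - SA (M.bd T) (M.ga q) (M.gb q) (-z)) / (4 * Real.pi) := by
  rw [← sum_SA_T hq T hz ho, ← Finset.sum_sub_distrib, Finset.sum_div]
  rfl

theorem sum_FW_mem {p : V → E3} {h : M.Face → E3} (G : Good M p h) (T : Set M.Face) {z : E3}
    (hz : ‖z‖ = 1) (ho : M.OffAll p z) (hT : ∃ w ∈ T, M.FW p h w z = 1) :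
    ∑ w ∈ TF T, M.FW p h w z = 1 := by
  obtain ⟨w0, h1, h2⟩ := tiling G.per G.c3 G.inC G.cen hz ho
  obtain ⟨w, hw, hw1⟩ := hT
  have hww : w = w0 := by
    by_contra hne
    have := h2 w hne
    rw [this] at hw1
    norm_num at hw1
  rw [Finset.sum_eq_single w0]
  · exact h1
  · intro w' _ hw'
    exact h2 w' hw'
  · intro hn
    rw [← hww, mem_TF] at hn
    exact absurd hw hn

theorem sum_FW_not {p : V → E3} {h : M.Face → E3} (G : Good M p h) (T : Set M.Face) {z : E3}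
    (hz : ‖z‖ = 1) (ho : M.OffAll p z) (hT : ¬ ∃ w ∈ T, M.FW p h w z = 1) :
    ∑ w ∈ TF T, M.FW p h w z = 0 := by
  obtain ⟨w0, h1, h2⟩ := tiling G.per G.c3 G.inC G.cen hz ho
  apply Finset.sum_eq_zero
  intro w hw
  apply h2
  rintro rfl
  exact hT ⟨w, mem_TF.mp hw, h1⟩

theorem not_mem_neg {p : V → E3} {h : M.Face → E3} {T : Set M.Face} {N : Set E3}
    (C : M.Cell p h T N) {y : E3} (hy : y ∈ N) (hy0 : y ≠ 0) : -y ∉ N := by
  intro hn
  obtain ⟨s, hs⟩ := C.pointed
  have h1 := hs y hy hy0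
  have h2 := hs (-y) hn (neg_ne_zero.mpr hy0)
  rw [inner_neg_right] at h2
  linarith

theorem smul_mem {p : V → E3} {h : M.Face → E3} {T : Set M.Face} {N : Set E3}
    (C : M.Cell p h T N) {y : E3} (hy : y ∈ N) {t : ℝ} (ht : 0 ≤ t) : t • y ∈ N := by
  have := C.cvx y hy y hy t 0 ht le_rfl
  rwa [zero_smul, add_zero] at this

theorem nrm_mem {p : V → E3} {h : M.Face → E3} {T : Set M.Face} {N : Set E3}
    (C : M.Cell p h T N) {y : E3} (hy0 : y ≠ 0) : nrm y ∈ N ↔ y ∈ N := by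
  constructor
  · intro hn
    have h1 := smul_mem C hn (norm_nonneg y)
    have h2 : ‖y‖ • nrm y = y := by
      unfold nrm
      rw [smul_smul, mul_inv_cancel₀ (norm_ne_zero_iff.mpr hy0), one_smul]
    rwa [h2] at h1
  · intro hn
    exact smul_mem C hn (by positivity)

/-- the area identity for the boundary of a cell -/
theorem area_id {p : V → E3} {h : M.Face → E3} {T : Set M.Face} {N : Set E3} (G : Good M p h)
    (C : M.Cell p h T N) {ν : E3} (hν : ‖ν‖ = 1) (ho : M.OffAll p ν) (ho' : M.OffAll p (-ν))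
    (hN : ν ∈ N) : SA (M.bd T) (M.ga p) (M.gb p) ν - SA (M.bd T) (M.ga p) (M.gb p) (-ν)
      = 4 * Real.pi := by
  have hν0 : ν ≠ 0 := ne_zero_of_unit hν
  have hν' : ‖-ν‖ = 1 := by rwa [norm_neg]
  have h1 := sum_FW_mem G T hν ho ((C.reg ν hν ho).mpr hN)
  have h2 := sum_FW_not G T hν' ho' (fun hh => not_mem_neg C hN hν0 ((C.reg (-ν) hν' ho').mp hh))
  rw [sum_FW_T G.inC h T hν ho] at h1
  rw [sum_FW_T G.inC h T hν' ho', neg_neg] at h2
  have hpi := Real.pi_pos
  have h3 : (4 * Real.pi) ≠ 0 := by positivity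
  rw [div_eq_iff h3] at h1 h2
  linarith

end N9Cell
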