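import Pool.Agent.Helper24.N9.Stm

/-! MP_9b91d1_co, block G6, part a: cones over a convex polygon (helper26). -/

namespace N9G6

open N9

theorem dt_add_r (a b c d : V3) : dt a b (c + d) = dt a b c + dt a b d := by
  simp only [dt, Pi.add_apply]; ring
theorem dt_sub_r (a b c d : V3) : dt a b (c - d) = dt a b c - dt a b d := by
  simp only [dt, Pi.sub_apply]; ring
theorem dt_smul_r (a b : V3) (r : ℝ) (c : V3) : dt a b (r • c) = r * dt a b c := by
  simp only [dt, Pi.smul_apply, smul_eq_mul]; ring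
theorem dt_zero_r (a b : V3) : dt a b 0 = 0 := by
  simp [dt]
theorem dt_left_eq (a b : V3) : dt a b a = 0 := by unfold dt; ring
theorem dt_right_eq (a b : V3) : dt a b b = 0 := by unfold dt; ring

theorem dt_sum_r {J : Type} (a b : V3) (s : Finset J) (f : J → V3) :
    dt a b (∑ i ∈ s, f i) = ∑ i ∈ s, dt a b (f i) := by
  classical
  induction s using Finset.induction_on with
  | empty => simp [dt_zero_r]
  | insert i s hi ih => rw [Finset.sum_insert hi, Finset.sum_insert hi, dt_add_r, ih]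

theorem ip_sum_r {J : Type} (a : V3) (s : Finset J) (f : J → V3) :
    ip a (∑ i ∈ s, f i) = ∑ i ∈ s, ip a (f i) := by
  classical
  induction s using Finset.induction_on with
  | empty => simp [ip]
  | insert i s hi ih => rw [Finset.sum_insert hi, Finset.sum_insert hi, ip_add_right, ih]

variable {I : Type} [DecidableEq I] {p : I → V3} {S : Finset I}

theorem side_nonneg {i j : I} (h : Side p S i j) {m : I} (hm : m ∈ S) :
    0 ≤ dt (p i) (p j) (p m) := by
  by_cases h1 : m = i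
  · rw [h1, dt_left_eq]
  by_cases h2 : m = j
  · rw [h2, dt_right_eq]
  exact (h.2.2.2 m hm h1 h2).le

theorem side_third (hS : ConvPos p S) {i j : I} (h : Side p S i j) :
    ∃ k ∈ S, k ≠ i ∧ k ≠ j ∧ 0 < dt (p i) (p j) (p k) := by
  obtain ⟨k, hk, hka, hkj⟩ : ∃ k ∈ S, k ≠ i ∧ k ≠ j := by
    have h1 : 0 < ((S.erase i).erase j).card := by
      rw [Finset.card_erase_of_mem (Finset.mem_erase.mpr ⟨h.2.2.1.symm, h.2.1⟩),
        Finset.card_erase_of_mem h.1]
      have := hS.card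
      omega
    obtain ⟨k, hk⟩ := Finset.card_pos.mp h1
    rw [Finset.mem_erase, Finset.mem_erase] at hk
    exact ⟨k, hk.2.2, hk.2.1, hk.1⟩
  exact ⟨k, hk, hka, hkj, h.2.2.2 k hk hka hkj⟩

theorem side_center (hS : ConvPos p S) {i j : I} (h : Side p S i j) :
    0 < dt (p i) (p j) (∑ m ∈ S, p m) := by
  obtain ⟨k, hk, -, -, hpos⟩ := side_third hS h
  rw [dt_sum_r]
  exact Finset.sum_pos' (fun m hm => side_nonneg h hm) ⟨k, hk, hpos⟩

/-- a vector in the cone of the polygon is a nonnegative combination of a side and the centre -/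
theorem n2 (hS : ConvPos p S) (c v : V3) (E : Finset (I × I)) (hE : ∀ e ∈ E, Side p S e.1 e.2)
    (hE' : ∀ i j, Side p S i j → (i, j) ∈ E)
    (hc : ∀ e ∈ E, 0 < dt (p e.1) (p e.2) c) (hne : E.Nonempty)
    (hv : ∀ e ∈ E, 0 ≤ dt (p e.1) (p e.2) v) :
    ∃ e ∈ E, ∃ al be : ℝ, 0 ≤ al ∧ 0 ≤ be ∧
      v = (E.inf' hne (fun e => dt (p e.1) (p e.2) v / dt (p e.1) (p e.2) c)) • c
        + (al • p e.1 + be • p e.2) := by
  obtain ⟨e, he, hmin⟩ := E.exists_mem_eq_inf' hne
    (fun e => dt (p e.1) (p e.2) v / dt (p e.1) (p e.2) c)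
  set ga := E.inf' hne (fun e => dt (p e.1) (p e.2) v / dt (p e.1) (p e.2) c) with hga
  set w := v - ga • c with hw
  have hw0 : dt (p e.1) (p e.2) w = 0 := by
    rw [hw, dt_sub_r, dt_smul_r, hmin]
    have := (hc e he).ne'
    field_simp
    ring
  have hwn : ∀ e' ∈ E, 0 ≤ dt (p e'.1) (p e'.2) w := by
    intro e' he'
    have h1 : ga ≤ dt (p e'.1) (p e'.2) v / dt (p e'.1) (p e'.2) c :=
      Finset.inf'_le (fun e => dt (p e.1) (p e.2) v / dt (p e.1) (p e.2) c) he'
    rw [le_div_iff₀ (hc e' he')] at h1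
    rw [hw, dt_sub_r, dt_smul_r]
    linarith
  have hs := hE e he
  obtain ⟨k, hk, hki, hkj, hD⟩ := side_third hS hs
  have hcr := cramer (p e.1) (p e.2) (p k) w
  rw [hw0, zero_smul, add_zero] at hcr
  set D := dt (p e.1) (p e.2) (p k) with hDdef
  set al := dt w (p e.2) (p k) / D with hal
  set be := dt (p e.1) w (p k) / D with hbe
  have hweq : w = al • p e.1 + be • p e.2 := by
    have h2 : w = D⁻¹ • (D • w) := by
      rw [smul_smul, inv_mul_cancel₀ hD.ne', one_smul]
    rw [h2, hcr, smul_add, smul_smul, smul_smul, hal, hbe]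
    congr 2 <;> field_simp
  obtain ⟨l, hl⟩ := hS.exists_succ hs.2.1
  obtain ⟨m, hm⟩ := hS.exists_pred hs.1
  have hli : e.1 ≠ l := Side.ne_of_card hS hs hl
  have hmj : m ≠ e.2 := Side.ne_of_card hS hm hs
  have a1 : 0 < dt (p e.2) (p l) (p e.1) := hl.2.2.2 e.1 hs.1 hs.2.2.1 hli
  have a2 : 0 < dt (p m) (p e.1) (p e.2) := hm.2.2.2 e.2 hs.2.1 hmj.symm hs.2.2.1.symm
  have b1 : 0 ≤ dt (p e.2) (p l) w := hwn (e.2, l) (hE' _ _ hl)
  have b2 : 0 ≤ dt (p m) (p e.1) w := hwn (m, e.1) (hE' _ _ hm)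
  rw [hweq, dt_add_r, dt_smul_r, dt_smul_r] at b1 b2
  rw [dt_left_eq, mul_zero, add_zero] at b1
  rw [dt_right_eq, mul_zero, zero_add] at b2
  refine ⟨e, he, al, be, ?_, ?_, ?_⟩
  · by_contra hcon
    push Not at hcon
    have := mul_neg_of_neg_of_pos hcon a1
    linarith
  · by_contra hcon
    push Not at hcon
    have := mul_neg_of_neg_of_pos hcon a2
    linarith
  · rw [← hweq, hw]; abel

end N9G6
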