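import Pool.Agent.Helper26.N9.G6a

/-! MP_9b91d1_co, block G6, part b: coordinates in V3 (helper26). -/

namespace N9G6

open N9

theorem eq_zero_of_ip {a b c z : V3} (hd : dt a b c ≠ 0) (ha : ip a z = 0) (hb : ip b z = 0)
    (hc : ip c z = 0) : z = 0 := by
  by_contra hz
  have h1 := nsq_pos hz
  have h2 : ip (dt a b c • z) z = 0 := by
    rw [cramer a b c z, ip_add_left, ip_add_left, ip_smul_left, ip_smul_left, ip_smul_left,
      ha, hb, hc]
    ring
  rw [ip_smul_left, ip_self] at h2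
  rcases mul_eq_zero.mp h2 with h3 | h3
  · exact hd h3
  · exact h1.ne' h3

variable {I K : Type} [Fintype I] [DecidableEq I] [Fintype K] [DecidableEq K]
  {p : I → V3} {h : I → ℝ} {x : K → V3}

theorem mem_act {y : V3} {i : I} : i ∈ actAt p h y ↔ ip (p i) y = h i := by
  classical
  unfold actAt
  simp

theorem mem_sid {k : K} {e : I × I} :
    e ∈ sides p h x k ↔ Side p (actAt p h (x k)) e.1 e.2 := by
  classical
  unfold sides
  simp

theorem c0_pos (hP : Poly p h x) (hG : ∀ k, ConvPos p (actAt p h (x k))) (k : K) :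
    0 < ip (x k) (∑ i ∈ actAt p h (x k), p i) := by
  rw [ip_sum_r]
  apply Finset.sum_pos
  · intro i hi
    rw [ip_comm, mem_act.mp hi]
    exact hP.hpos i
  · rw [← Finset.card_pos]
    have := (hG k).card
    omega

theorem c0_nsq (hP : Poly p h x) (hG : ∀ k, ConvPos p (actAt p h (x k))) (k : K) :
    0 < nsq (∑ i ∈ actAt p h (x k), p i) := by
  apply nsq_pos
  intro h0
  have := c0_pos hP hG k
  rw [h0] at this
  simp [ip] at this

theorem nsq_smul (r : ℝ) (a : V3) : nsq (r • a) = r ^ 2 * nsq a := by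
  simp only [nsq_eq, Pi.smul_apply, smul_eq_mul]; ring

theorem cen_nsq (hP : Poly p h x) (hG : ∀ k, ConvPos p (actAt p h (x k))) (k : K) :
    nsq (cen p h x k) = 1 := by
  unfold cen
  rw [nsq_smul, inv_pow, Real.sq_sqrt (nsq_nonneg _), inv_mul_cancel₀ (c0_nsq hP hG k).ne']

theorem cen_pos (hP : Poly p h x) (hG : ∀ k, ConvPos p (actAt p h (x k))) (k : K) :
    0 < ip (x k) (cen p h x k) := by
  unfold cen
  rw [ip_smul_right]
  exact mul_pos (inv_pos.mpr (Real.sqrt_pos.mpr (c0_nsq hP hG k))) (c0_pos hP hG k)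

theorem cen_dt (hP : Poly p h x) (hG : ∀ k, ConvPos p (actAt p h (x k))) (k : K) :
    ∀ e ∈ sides p h x k, 0 < dt (p e.1) (p e.2) (cen p h x k) := by
  intro e he
  unfold cen
  rw [dt_smul_r]
  exact mul_pos (inv_pos.mpr (Real.sqrt_pos.mpr (c0_nsq hP hG k)))
    (side_center (hG k) (mem_sid.mp he))

theorem sides_ne (hG : ∀ k, ConvPos p (actAt p h (x k))) (k : K) :
    (sides p h x k).Nonempty := by
  have hc := (hG k).card
  obtain ⟨i, hi⟩ : (actAt p h (x k)).Nonempty := by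
    rw [← Finset.card_pos]; omega
  obtain ⟨j, hj⟩ := (hG k).exists_succ hi
  exact ⟨(i, j), mem_sid.mpr hj⟩

/-- the ratio function -/
noncomputable def Rk (p : I → V3) (h : I → ℝ) (x : K → V3)
    (hne : ∀ k, (sides p h x k).Nonempty) (k : K) (v : V3) : ℝ :=
  (sides p h x k).inf' (hne k)
    (fun e => dt (p e.1) (p e.2) v / dt (p e.1) (p e.2) (cen p h x k))

theorem Rk_nonneg (hP : Poly p h x) (hG : ∀ k, ConvPos p (actAt p h (x k)))
    {k : K} {v : V3} (hv : ∀ e ∈ sides p h x k, 0 ≤ dt (p e.1) (p e.2) v) :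
    0 ≤ Rk p h x (sides_ne hG) k v := by
  unfold Rk
  rw [Finset.le_inf'_iff]
  intro e he
  exact div_nonneg (hv e he) (cen_dt hP hG k e he).le

theorem dt_of_Rk_pos (hP : Poly p h x) (hG : ∀ k, ConvPos p (actAt p h (x k)))
    {k : K} {v : V3} (hR : 0 < Rk p h x (sides_ne hG) k v) :
    ∀ e ∈ sides p h x k, 0 < dt (p e.1) (p e.2) v := by
  intro e he
  unfold Rk at hR
  rw [Finset.lt_inf'_iff] at hR
  have h1 := hR e he
  have h2 := cen_dt hP hG k e he
  rw [lt_div_iff₀ h2, zero_mul] at h1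
  exact h1

theorem n2k (hP : Poly p h x) (hG : ∀ k, ConvPos p (actAt p h (x k)))
    {k : K} {v : V3} (hv : ∀ e ∈ sides p h x k, 0 ≤ dt (p e.1) (p e.2) v) :
    ∃ e ∈ sides p h x k, ∃ al be : ℝ, 0 ≤ al ∧ 0 ≤ be ∧
      v = Rk p h x (sides_ne hG) k v • cen p h x k + (al • p e.1 + be • p e.2) :=
  n2 (hG k) (cen p h x k) v (sides p h x k) (fun _ he => mem_sid.mp he)
    (fun i j hij => mem_sid.mpr hij) (cen_dt hP hG k) (sides_ne hG k) hv

theorem eq_xk (hP : Poly p h x) {k : K} {y : V3}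
    (hy : ∀ i ∈ actAt p h (x k), ip (p i) y = h i) : y = x k := by
  obtain ⟨i, hi, j, hj, l, hl, hd⟩ := hP.span k
  have h1 : y - x k = 0 := by
    apply eq_zero_of_ip hd
    · rw [ip_sub_right, hy i hi, mem_act.mp hi, sub_self]
    · rw [ip_sub_right, hy j hj, mem_act.mp hj, sub_self]
    · rw [ip_sub_right, hy l hl, mem_act.mp hl, sub_self]
  exact sub_eq_zero.mp h1

theorem ip_cen (k : K) (y : V3) : ip (cen p h x k) y =
    (Real.sqrt (nsq (∑ i ∈ actAt p h (x k), p i)))⁻¹ * ∑ i ∈ actAt p h (x k), ip (p i) y := by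
  unfold cen
  rw [ip_smul_left, ip_comm, ip_sum_r]
  congr 1
  exact Finset.sum_congr rfl (fun i _ => ip_comm _ _)

theorem ip_cen_le {k : K} {y : V3} (hy : ∀ i, ip (p i) y ≤ h i) :
    ip (cen p h x k) y ≤ ip (cen p h x k) (x k) := by
  rw [ip_cen, ip_cen]
  apply mul_le_mul_of_nonneg_left _ (inv_nonneg.mpr (Real.sqrt_nonneg _))
  apply Finset.sum_le_sum
  intro i hi
  rw [mem_act.mp hi]
  exact hy i

theorem ip_cen_lt (hP : Poly p h x) (hG : ∀ k, ConvPos p (actAt p h (x k))) {k : K} {y : V3}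
    (hy : ∀ i, ip (p i) y ≤ h i) (hne : y ≠ x k) :
    ip (cen p h x k) y < ip (cen p h x k) (x k) := by
  rw [ip_cen, ip_cen]
  apply mul_lt_mul_of_pos_left _ (inv_pos.mpr (Real.sqrt_pos.mpr (c0_nsq hP hG k)))
  apply Finset.sum_lt_sum
  · intro i hi
    rw [mem_act.mp hi]
    exact hy i
  · by_contra hcon
    push Not at hcon
    apply hne
    apply eq_xk hP
    intro i hi
    have h1 := hcon i hi
    rw [mem_act.mp hi] at h1
    exact le_antisymm (hy i) h1

/-- N3, weak form -/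
theorem n3 (hP : Poly p h x) (hG : ∀ k, ConvPos p (actAt p h (x k))) {k : K} {v y : V3}
    (hv : ∀ e ∈ sides p h x k, 0 ≤ dt (p e.1) (p e.2) v) (hy : ∀ i, ip (p i) y ≤ h i) :
    ip v y ≤ ip v (x k) := by
  obtain ⟨e, he, al, be, hal, hbe, hveq⟩ := n2k hP hG hv
  have hR := Rk_nonneg hP hG hv
  have hs := mem_sid.mp he
  rw [hveq]
  simp only [ip_add_left, ip_smul_left]
  rw [mem_act.mp hs.1, mem_act.mp hs.2.1]
  have h1 := mul_le_mul_of_nonneg_left (ip_cen_le (k := k) (x := x) hy) hR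
  have h2 := mul_le_mul_of_nonneg_left (hy e.1) hal
  have h3 := mul_le_mul_of_nonneg_left (hy e.2) hbe
  linarith

/-- N3, strict form -/
theorem n3s (hP : Poly p h x) (hG : ∀ k, ConvPos p (actAt p h (x k))) {k : K} {v y : V3}
    (hv : 0 < Rk p h x (sides_ne hG) k v) (hy : ∀ i, ip (p i) y ≤ h i) (hne : y ≠ x k) :
    ip v y < ip v (x k) := by
  obtain ⟨e, he, al, be, hal, hbe, hveq⟩ := n2k hP hG
    (fun e he => (dt_of_Rk_pos hP hG hv e he).le)
  have hs := mem_sid.mp he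
  have key : ∀ z, ip v z = Rk p h x (sides_ne hG) k v * ip (cen p h x k) z +
      (al * ip (p e.1) z + be * ip (p e.2) z) := by
    intro z
    have h5 : ip v z = ip (Rk p h x (sides_ne hG) k v • cen p h x k +
      (al • p e.1 + be • p e.2)) z := congrArg (fun t => ip t z) hveq
    rw [h5]
    simp only [ip_add_left, ip_smul_left]
  rw [key y, key (x k), mem_act.mp hs.1, mem_act.mp hs.2.1]
  have h1 := mul_lt_mul_of_pos_left (ip_cen_lt hP hG (k := k) (x := x) hy hne) hv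
  have h2 := mul_le_mul_of_nonneg_left (hy e.1) hal
  have h3 := mul_le_mul_of_nonneg_left (hy e.2) hbe
  linarith

/-- coordinate of the centre k -/
noncomputable def bK (p : I → V3) (h : I → ℝ) (x : K → V3)
    (hne : ∀ k, (sides p h x k).Nonempty) (k : K) (v : V3) : ℝ :=
  max 0 (Rk p h x hne k v)

theorem bK_other (hP : Poly p h x) (hG : ∀ k, ConvPos p (actAt p h (x k))) {k k' : K} {v : V3}
    (hv : ∀ e ∈ sides p h x k, 0 ≤ dt (p e.1) (p e.2) v) (hk : k' ≠ k) :
    bK p h x (sides_ne hG) k' v = 0 := by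
  unfold bK
  apply max_eq_left
  by_contra hcon
  push Not at hcon
  have h1 := n3 hP hG hv (y := x k') (fun i => hP.mem k' i)
  have h2 := n3s hP hG hcon (y := x k) (fun i => hP.mem k i)
    (fun h0 => hk (hP.inj h0).symm)
  linarith

/-- the remainder -/
noncomputable def wv (p : I → V3) (h : I → ℝ) (x : K → V3)
    (hne : ∀ k, (sides p h x k).Nonempty) (v : V3) : V3 :=
  v - ∑ k, bK p h x hne k v • cen p h x k

theorem wv_eq (hP : Poly p h x) (hG : ∀ k, ConvPos p (actAt p h (x k))) {k : K} {v : V3}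
    (hv : ∀ e ∈ sides p h x k, 0 ≤ dt (p e.1) (p e.2) v) :
    ∃ e ∈ sides p h x k, ∃ al be : ℝ, 0 ≤ al ∧ 0 ≤ be ∧
      wv p h x (sides_ne hG) v = al • p e.1 + be • p e.2 := by
  obtain ⟨e, he, al, be, hal, hbe, hveq⟩ := n2k hP hG hv
  refine ⟨e, he, al, be, hal, hbe, ?_⟩
  unfold wv
  rw [Finset.sum_eq_single k]
  · have h1 : bK p h x (sides_ne hG) k v = Rk p h x (sides_ne hG) k v :=
      max_eq_right (Rk_nonneg hP hG hv)
    rw [h1, sub_eq_iff_eq_add, add_comm]
    exact hveq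
  · intro k' _ hk'
    rw [bK_other hP hG hv hk', zero_smul]
  · intro h0
    exact absurd (Finset.mem_univ k) h0

/-- the directed edges -/
noncomputable def edg (p : I → V3) (h : I → ℝ) (x : K → V3) : Finset (I × I) :=
  Finset.univ.biUnion (fun k => sides p h x k)

theorem mem_edg {e : I × I} : e ∈ edg p h x ↔ ∃ k, e ∈ sides p h x k := by
  unfold edg; simp

/-- maximum over the edge points -/
noncomputable def mx {J : Type} (E : Finset J) (hE : E.Nonempty) (Y : J → V3) (w : V3) : ℝ :=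
  E.sup' hE (fun e => ip w (Y e))

theorem mx_eq {E : Finset (I × I)} (hE : E.Nonempty) {Y : I × I → V3} {h' : I → ℝ}
    (hY : ∀ e ∈ E, ∀ m, ip (p m) (Y e) ≤ h' m)
    (hY' : ∀ e ∈ E, ip (p e.1) (Y e) = h' e.1 ∧ ip (p e.2) (Y e) = h' e.2)
    {e : I × I} (he : e ∈ E) {al be : ℝ} (hal : 0 ≤ al) (hbe : 0 ≤ be) :
    mx E hE Y (al • p e.1 + be • p e.2) = al * h' e.1 + be * h' e.2 := by
  unfold mx
  apply le_antisymm
  · apply Finset.sup'_le
    intro e' he'
    rw [ip_add_left, ip_smul_left, ip_smul_left]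
    exact add_le_add (mul_le_mul_of_nonneg_left (hY e' he' e.1) hal)
      (mul_le_mul_of_nonneg_left (hY e' he' e.2) hbe)
  · refine le_trans (le_of_eq ?_) (Finset.le_sup' _ he)
    rw [ip_add_left, ip_smul_left, ip_smul_left, (hY' e he).1, (hY' e he).2]

end N9G6
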