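import Pool.Agent.Helper26.N9.G6b

/-! MP_9b91d1_co, block G6, part c: the coordinates (helper26). -/

namespace N9G6

open N9
open Filter Topology
open scoped RealInnerProductSpace

theorem cont_dt (a b : V3) : Continuous (fun v : V3 => dt a b v) := by
  unfold dt; fun_prop

theorem cont_ip (b : V3) : Continuous (fun v : V3 => ip v b) := by
  unfold ip; fun_prop

theorem cont_ip' (a : V3) : Continuous (fun v : V3 => ip a v) := by
  unfold ip; fun_prop

theorem ip_crv (a b c : V3) : ip a (crv b c) = dt a b c := by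
  simp [ip_eq, crv, dt]
  ring

theorem exists_dual {a b c : V3} (hd : dt a b c ≠ 0) :
    ∃ u, ip a u = 1 ∧ ip b u = 0 := by
  refine ⟨(dt a b c)⁻¹ • crv b c, ?_, ?_⟩
  · rw [ip_smul_right, ip_crv, inv_mul_cancel₀ hd]
  · rw [ip_smul_right, ip_crv]
    have : dt b b c = 0 := by unfold dt; ring
    rw [this, mul_zero]

variable {I K : Type} [Fintype I] [DecidableEq I] [Fintype K] [DecidableEq K]
  {p : I → V3} {h : I → ℝ} {x : K → V3}

theorem cont_mx {J : Type} {E : Finset J} (hE : E.Nonempty) (Y : J → V3) :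
    Continuous (fun w => mx E hE Y w) := by
  unfold mx
  exact Continuous.finset_sup'_apply hE (fun e _ => cont_ip (Y e))

theorem cont_Rk (hne : ∀ k, (sides p h x k).Nonempty) (k : K) :
    Continuous (fun v => Rk p h x hne k v) := by
  unfold Rk
  exact Continuous.finset_inf'_apply (hne k) (fun e _ => (cont_dt _ _).div_const _)

theorem cont_bK (hne : ∀ k, (sides p h x k).Nonempty) (k : K) :
    Continuous (fun v => bK p h x hne k v) := by
  unfold bK
  exact continuous_const.max (cont_Rk hne k)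

theorem cont_wv (hne : ∀ k, (sides p h x k).Nonempty) :
    Continuous (fun v => wv p h x hne v) := by
  unfold wv
  refine continuous_id.sub ?_
  apply continuous_finsetSum
  intro k _
  exact (cont_bK hne k).smul continuous_const

/-- perturbation of an edge point, one end -/
theorem pert_aux {i j l : I} {y u : V3} (hy1 : ip (p i) y = h i) (hy2 : ip (p j) y = h j)
    (hy : ∀ m, m ≠ i → m ≠ j → ip (p m) y < h m) (hij : i ≠ j)
    (hu1 : ip (p i) u = 1) (hu2 : ip (p j) u = 0) (hl : l = i) :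
    ∀ᶠ ε in 𝓝[>] (0 : ℝ), ∃ y', (∀ m, ip (p m) y' ≤ h m - if m = l then ε else 0) ∧
      (ip (p i) y' = h i - if i = l then ε else 0) ∧
      (ip (p j) y' = h j - if j = l then ε else 0) := by
  subst hl
  have h1 : ∀ m, ∀ᶠ ε in 𝓝[>] (0 : ℝ), m ≠ l → m ≠ j → ip (p m) y - ε * ip (p m) u ≤ h m := by
    intro m
    by_cases hc : m ≠ l ∧ m ≠ j
    · have h2 : Tendsto (fun ε : ℝ => ip (p m) y - ε * ip (p m) u) (𝓝 0)
          (𝓝 (ip (p m) y - 0 * ip (p m) u)) := by
        apply Continuous.tendsto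
        fun_prop
      rw [zero_mul, sub_zero] at h2
      have h3 := h2.eventually_lt_const (hy m hc.1 hc.2)
      have h4 : ∀ᶠ ε in 𝓝[>] (0 : ℝ), ip (p m) y - ε * ip (p m) u < h m :=
        h3.filter_mono nhdsWithin_le_nhds
      filter_upwards [h4] with ε hε _ _ using hε.le
    · apply Filter.Eventually.of_forall
      intro ε ha hb
      exact absurd ⟨ha, hb⟩ hc
  rw [← Filter.eventually_all] at h1
  filter_upwards [h1, self_mem_nhdsWithin] with ε hε _
  have e1 : ip (p l) (y - ε • u) = h l - if l = l then ε else 0 := by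
    rw [ip_sub_right, ip_smul_right, hy1, hu1, if_pos rfl, mul_one]
  have e2 : ip (p j) (y - ε • u) = h j - if j = l then ε else 0 := by
    rw [ip_sub_right, ip_smul_right, hy2, hu2, if_neg hij.symm, mul_zero]
  refine ⟨y - ε • u, ?_, e1, e2⟩
  intro m
  by_cases hm1 : m = l
  · rw [hm1]; exact e1.le
  by_cases hm2 : m = j
  · rw [hm2]; exact e2.le
  rw [ip_sub_right, ip_smul_right, if_neg hm1, sub_zero]
  exact hε m hm1 hm2

theorem pert (hG : ∀ k, ConvPos p (actAt p h (x k)))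
    (hEP : ∀ k, ∀ e ∈ sides p h x k, ∃ y, ip (p e.1) y = h e.1 ∧ ip (p e.2) y = h e.2 ∧
      ∀ m, m ≠ e.1 → m ≠ e.2 → ip (p m) y < h m) {e : I × I} (he : e ∈ edg p h x) (l : I) :
    ∀ᶠ ε in 𝓝[>] (0 : ℝ), ∃ y', (∀ m, ip (p m) y' ≤ h m - if m = l then ε else 0) ∧
      (ip (p e.1) y' = h e.1 - if e.1 = l then ε else 0) ∧
      (ip (p e.2) y' = h e.2 - if e.2 = l then ε else 0) := by
  obtain ⟨k, hk⟩ := mem_edg.mp he
  obtain ⟨y, hy1, hy2, hy⟩ := hEP k e hk
  have hs := mem_sid.mp hk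
  obtain ⟨m, hm, hm1, hm2, hpos⟩ := side_third (hG k) hs
  by_cases hl1 : l = e.1
  · obtain ⟨u, hu1, hu2⟩ := exists_dual hpos.ne'
    exact pert_aux hy1 hy2 hy hs.2.2.1 hu1 hu2 hl1
  by_cases hl2 : l = e.2
  · have hpos' : dt (p e.2) (p e.1) (p m) ≠ 0 := by
      rw [dt_swap']
      exact (neg_neg_of_pos hpos).ne
    obtain ⟨u, hu1, hu2⟩ := exists_dual hpos'
    have := pert_aux hy2 hy1 (fun m a b => hy m b a) hs.2.2.1.symm hu1 hu2 hl2
    filter_upwards [this] with ε hε
    obtain ⟨y', ha, hb, hc⟩ := hε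
    exact ⟨y', ha, hc, hb⟩
  have hgap : 0 < h l - ip (p l) y := sub_pos.mpr (hy l hl1 hl2)
  have h3 : ∀ᶠ ε in 𝓝[>] (0 : ℝ), ε < h l - ip (p l) y :=
    (tendsto_id.eventually_lt_const hgap).filter_mono nhdsWithin_le_nhds
  filter_upwards [h3] with ε hε
  have e1 : ip (p e.1) y = h e.1 - if e.1 = l then ε else 0 := by
    rw [if_neg (Ne.symm hl1), sub_zero, hy1]
  have e2 : ip (p e.2) y = h e.2 - if e.2 = l then ε else 0 := by
    rw [if_neg (Ne.symm hl2), sub_zero, hy2]
  refine ⟨y, ?_, e1, e2⟩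
  intro m
  by_cases hm : m = l
  · rw [hm, if_pos rfl]; linarith
  rw [if_neg hm, sub_zero]
  by_cases hm1 : m = e.1
  · rw [hm1]; exact hy1.le
  by_cases hm2 : m = e.2
  · rw [hm2]; exact hy2.le
  exact (hy m hm1 hm2).le

/-- coordinates in V3 -/
theorem coords (hP : Poly p h x) (hG : ∀ k, ConvPos p (actAt p h (x k)))
    (hN1 : ∀ v : V3, ∃ k, ∀ e ∈ sides p h x k, 0 ≤ dt (p e.1) (p e.2) v)
    (hEP : ∀ k, ∀ e ∈ sides p h x k, ∃ y, ip (p e.1) y = h e.1 ∧ ip (p e.2) y = h e.2 ∧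
      ∀ m, m ≠ e.1 → m ≠ e.2 → ip (p m) y < h m) :
    ∃ B : (I ⊕ K) → V3 → ℝ, (∀ n, Continuous (B n)) ∧
      ∀ k v, (∀ e ∈ sides p h x k, 0 ≤ dt (p e.1) (p e.2) v) →
        (∀ n, 0 ≤ B n v) ∧ (∑ n, B n v • Sum.elim p (cen p h x) n = v) ∧
        ∃ e ∈ sides p h x k, ∀ n, B n v ≠ 0 →
          n = Sum.inr k ∨ n = Sum.inl e.1 ∨ n = Sum.inl e.2 := by
  have hE : (edg p h x).Nonempty := by
    obtain ⟨k, -⟩ := hN1 0
    obtain ⟨e, he⟩ := sides_ne hG k
    exact ⟨e, mem_edg.mpr ⟨k, he⟩⟩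
  have hY0 : ∀ e ∈ edg p h x, ∃ y, (∀ m, ip (p m) y ≤ h m) ∧ ip (p e.1) y = h e.1 ∧
      ip (p e.2) y = h e.2 := by
    intro e he
    obtain ⟨k, hk⟩ := mem_edg.mp he
    obtain ⟨y, hy1, hy2, hy⟩ := hEP k e hk
    refine ⟨y, ?_, hy1, hy2⟩
    intro m
    by_cases hm1 : m = e.1
    · rw [hm1]; exact hy1.le
    by_cases hm2 : m = e.2
    · rw [hm2]; exact hy2.le
    exact (hy m hm1 hm2).le
  choose! Y hY using hY0
  have hall : ∀ᶠ ε in 𝓝[>] (0 : ℝ), ∀ e : I × I, ∀ l : I, e ∈ edg p h x →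
      ∃ y', (∀ m, ip (p m) y' ≤ h m - if m = l then ε else 0) ∧
      (ip (p e.1) y' = h e.1 - if e.1 = l then ε else 0) ∧
      (ip (p e.2) y' = h e.2 - if e.2 = l then ε else 0) := by
    rw [Filter.eventually_all]
    intro e
    rw [Filter.eventually_all]
    intro l
    by_cases he : e ∈ edg p h x
    · filter_upwards [pert hG hEP he l] with ε hε _ using hε
    · exact Filter.Eventually.of_forall (fun ε h0 => absurd h0 he)
  obtain ⟨ε, hε, hε0⟩ := (hall.and self_mem_nhdsWithin).exists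
  have hεpos : (0 : ℝ) < ε := hε0
  choose! Y' hY' using hε
  refine ⟨Sum.elim
    (fun l v => (mx (edg p h x) hE Y (wv p h x (sides_ne hG) v)
      - mx (edg p h x) hE (fun e => Y' e l) (wv p h x (sides_ne hG) v)) / ε)
    (fun k v => bK p h x (sides_ne hG) k v), ?_, ?_⟩
  · rintro (l | k)
    · exact (((cont_mx hE Y).comp (cont_wv (sides_ne hG))).sub
        ((cont_mx hE (fun e => Y' e l)).comp (cont_wv (sides_ne hG)))).div_const ε
    · exact cont_bK (sides_ne hG) k
  · intro k v hv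
    obtain ⟨e, he, al, be, hal, hbe, hw⟩ := wv_eq hP hG hv
    have hs := mem_sid.mp he
    have heE : e ∈ edg p h x := mem_edg.mpr ⟨k, he⟩
    have hval : ∀ l, (mx (edg p h x) hE Y (wv p h x (sides_ne hG) v)
      - mx (edg p h x) hE (fun e => Y' e l) (wv p h x (sides_ne hG) v)) / ε
        = al * (if e.1 = l then 1 else 0) + be * (if e.2 = l then 1 else 0) := by
      intro l
      rw [hw, mx_eq hE (h' := h) (fun e he m => (hY e he).1 m) (fun e he => (hY e he).2) heE
        hal hbe, mx_eq hE (h' := fun m => h m - if m = l then ε else 0)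
        (fun e he m => (hY' e l he).1 m) (fun e he => (hY' e l he).2) heE hal hbe]
      rw [div_eq_iff hεpos.ne']
      by_cases h1 : e.1 = l <;> by_cases h2 : e.2 = l <;> simp only [h1, h2, if_true, if_false] <;>
        ring
    refine ⟨?_, ?_, e, he, ?_⟩
    · rintro (l | k')
      · simp only [Sum.elim_inl]
        rw [hval]
        apply add_nonneg
        · apply mul_nonneg hal
          split_ifs <;> norm_num
        · apply mul_nonneg hbe
          split_ifs <;> norm_num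
      · simp only [Sum.elim_inr]
        exact le_max_left _ _
    · rw [Fintype.sum_sum_type]
      simp only [Sum.elim_inl, Sum.elim_inr]
      have h1 : ∑ l, ((mx (edg p h x) hE Y (wv p h x (sides_ne hG) v)
        - mx (edg p h x) hE (fun e => Y' e l) (wv p h x (sides_ne hG) v)) / ε) • p l
          = wv p h x (sides_ne hG) v := by
        rw [Finset.sum_congr rfl (fun l _ => by rw [hval l])]
        simp only [add_smul, Finset.sum_add_distrib, mul_ite, mul_one, mul_zero, ite_smul,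
          zero_smul, Finset.sum_ite_eq, Finset.mem_univ, if_true]
        exact hw.symm
      rw [h1]
      unfold wv
      abel
    · rintro (l | k') hn
      · simp only [Sum.elim_inl] at hn
        rw [hval] at hn
        by_cases h1 : e.1 = l
        · right; left; rw [h1]
        by_cases h2 : e.2 = l
        · right; right; rw [h2]
        rw [if_neg h1, if_neg h2, mul_zero, mul_zero, add_zero] at hn
        exact absurd rfl hn
      · simp only [Sum.elim_inr] at hn
        left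
        by_contra hcon
        exact hn (bK_other hP hG hv (fun h0 => hcon (by rw [h0])))

theorem ofLp_toE (v : V3) : (toE v).ofLp = v := rfl

theorem toE_sum {J : Type} (s : Finset J) (c : J → ℝ) (a : J → V3) :
    ∑ n ∈ s, c n • toE (a n) = toE (∑ n ∈ s, c n • a n) := by
  classical
  induction s using Finset.induction_on with
  | empty => simp [toE]
  | insert i s hi ih =>
    rw [Finset.sum_insert hi, Finset.sum_insert hi, ih]
    rfl

theorem inner_toE (a b : V3) : ⟪toE a, toE b⟫ = ip a b := by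
  simp [toE, PiLp.inner_apply, Fin.sum_univ_three, ip_eq, mul_comm]

theorem norm_toE {a : V3} (ha : nsq a = 1) : ‖toE a‖ = 1 := by
  have h1 : ‖toE a‖ ^ 2 = 1 := by
    rw [← real_inner_self_eq_norm_sq, inner_toE, ip_self, ha]
  nlinarith [norm_nonneg (toE a)]

theorem g6_of (hP : Poly p h x) (hG : ∀ k, ConvPos p (actAt p h (x k)))
    (hN1 : ∀ v : V3, ∃ k, ∀ e ∈ sides p h x k, 0 ≤ dt (p e.1) (p e.2) v)
    (hEP : ∀ k, ∀ e ∈ sides p h x k, ∃ y, ip (p e.1) y = h e.1 ∧ ip (p e.2) y = h e.2 ∧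
      ∀ m, m ≠ e.1 → m ≠ e.2 → ip (p m) y < h m) :
    ∃ β : (I ⊕ K) → Pool.Agent.Helper30.N9.E3 → ℝ,
      Fan (fun n => toE (Sum.elim p (cen p h x) n)) (fanT p h x) β ∧
      ∀ k, ∀ c : I → ℝ, (∀ i, 0 ≤ c i) → (∀ i, c i ≠ 0 → i ∈ actAt p h (x k)) →
        ∀ n, β n (toE (∑ i, c i • p i)) ≠ 0 →
          n = Sum.inr k ∨ ∃ i ∈ actAt p h (x k), n = Sum.inl i := by
  obtain ⟨B, hc, hB⟩ := coords hP hG hN1 hEP
  refine ⟨fun n v => B n v.ofLp, ⟨?_, ?_, ?_, ?_, ?_, ?_⟩, ?_⟩
  · rintro (i | k)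
    · exact norm_toE (hP.unit i)
    · exact norm_toE (cen_nsq hP hG k)
  · intro n
    exact (hc n).comp (PiLp.continuous_ofLp 2 _)
  · intro n v
    obtain ⟨k, hk⟩ := hN1 v.ofLp
    exact (hB k _ hk).1 n
  · intro v
    obtain ⟨k, hk⟩ := hN1 v.ofLp
    rw [toE_sum, (hB k _ hk).2.1]
    rfl
  · intro v
    obtain ⟨k, hk⟩ := hN1 v.ofLp
    obtain ⟨e, he, hn⟩ := (hB k _ hk).2.2
    refine ⟨(Sum.inr k, Sum.inl e.1, Sum.inl e.2), ?_, hn⟩
    unfold fanT
    rw [Finset.mem_biUnion]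
    exact ⟨k, Finset.mem_univ k, Finset.mem_image.mpr ⟨e, he, rfl⟩⟩
  · intro t ht
    unfold fanT at ht
    rw [Finset.mem_biUnion] at ht
    obtain ⟨k, -, hk⟩ := ht
    obtain ⟨e, he, rfl⟩ := Finset.mem_image.mp hk
    have hs := mem_sid.mp he
    refine ⟨toE (x k), ?_, ?_, ?_⟩
    · simp only [Sum.elim_inr]
      rw [inner_toE]
      exact cen_pos hP hG k
    · simp only [Sum.elim_inl]
      rw [inner_toE, ip_comm, mem_act.mp hs.1]
      exact hP.hpos _
    · simp only [Sum.elim_inl]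
      rw [inner_toE, ip_comm, mem_act.mp hs.2.1]
      exact hP.hpos _
  · intro k c hc0 hcS n hn
    have hk : ∀ e ∈ sides p h x k, 0 ≤ dt (p e.1) (p e.2) (∑ i, c i • p i) := by
      intro e he
      rw [dt_sum_r]
      apply Finset.sum_nonneg
      intro i _
      rw [dt_smul_r]
      by_cases h0 : c i = 0
      · rw [h0, zero_mul]
      · exact mul_nonneg (hc0 i) (side_nonneg (mem_sid.mp he) (hcS i h0))
    obtain ⟨e, he, hne⟩ := (hB k _ hk).2.2
    have hs := mem_sid.mp he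
    rcases hne n hn with h1 | h1 | h1
    · exact Or.inl h1
    · exact Or.inr ⟨e.1, hs.1, h1⟩
    · exact Or.inr ⟨e.2, hs.2.1, h1⟩

end N9G6
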