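import Pool.Agent.Helper27.N9.Hemiq
import Pool.Agent.Helper30.N9.Wind
import Pool.Agent.Helper24.N9.Deg1

/-! MP_9b91d1_co, row HEMI2 (helper26). -/

open scoped RealInnerProductSpace Topology

namespace N9H

open Pool.Agent.Helper30.N9 Pool.Agent.Helper27.N9

theorem norm_one_of_inner {a : E3} (ha : ⟪a, a⟫ = (1 : ℝ)) : ‖a‖ = 1 := by
  rw [real_inner_self_eq_norm_sq] at ha
  nlinarith [norm_nonneg a]

theorem eq_of_inner_sub {x y : E3} (h : ⟪x - y, x - y⟫ = (0 : ℝ)) : x = y :=
  sub_eq_zero.mp (inner_self_eq_zero.mp h)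

/-- a point on a geodesic from u to v, antipodal ends allowed -/
theorem exists_between' {u v : E3} (hu : ‖u‖ = 1) (hv : ‖v‖ = 1)
    {s : ℝ} (hs : 0 ≤ s) (hst : s ≤ ang u v) :
    ∃ w : E3, ‖w‖ = 1 ∧ ang u w = s ∧ ang w v = ang u v - s := by
  rcases lt_or_eq_of_le (ang_le_pi u v) with ht | ht
  · exact exists_between hu hv ht hs hst
  · have huv : ⟪u, v⟫ = (-1 : ℝ) := by rw [← cos_ang hu hv, ht, Real.cos_pi]
    have hve : v = -u := by
      apply eq_of_inner_sub
      rw [inner_sub_left, inner_sub_right, inner_sub_right, inner_neg_left, inner_neg_right,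
        inner_neg_right, inner_neg_left, real_inner_comm u v, huv, inner_self_one hu,
        inner_self_one hv]
      norm_num
    obtain ⟨e, he, hue⟩ := exists_perp hu
    have heu : ⟪e, u⟫ = (0 : ℝ) := by rw [real_inner_comm]; exact hue
    have hcs := Real.sin_sq_add_cos_sq s
    have hwu : ⟪u, Real.cos s • u + Real.sin s • e⟫ = Real.cos s := by
      rw [inner_add_right, real_inner_smul_right, real_inner_smul_right, hue,
        inner_self_one hu]; ring
    refine ⟨Real.cos s • u + Real.sin s • e, ?_, ?_, ?_⟩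
    · apply norm_one_of_inner
      rw [inner_add_left, real_inner_smul_left, hwu, real_inner_smul_left, inner_add_right,
        real_inner_smul_right, real_inner_smul_right, heu, inner_self_one he]
      linear_combination hcs
    · unfold ang
      rw [hwu]
      exact Real.arccos_cos hs (by rw [ht] at hst; exact hst)
    · unfold ang
      rw [hve, inner_neg_right, inner_neg_right, inner_self_one hu, real_inner_comm, hwu,
        Real.arccos_neg, Real.arccos_neg_one, Real.arccos_cos hs (by rw [ht] at hst; exact hst)]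

/-- points with the inner products of a great circle lie on one -/
theorem geo {a : E3} (ha : ‖a‖ = 1) (P : ℕ → Prop) (w : ℕ → E3) (s : ℕ → ℝ)
    (hw : ∀ i, ‖w i‖ = 1) (h1 : ∀ i, P i → ⟪a, w i⟫ = Real.cos (s i))
    (h2 : ∀ i j, P i → P j → ⟪w i, w j⟫ = Real.cos (s i - s j)) :
    ∃ u : E3, ‖u‖ = 1 ∧ ⟪a, u⟫ = (0 : ℝ) ∧
      ∀ i, P i → w i = Real.cos (s i) • a + Real.sin (s i) • u := by
  have haa := inner_self_one ha
  by_cases hex : ∃ i, P i ∧ Real.sin (s i) ≠ 0
  · obtain ⟨i, hPi, hsi⟩ := hex
    set u : E3 := (Real.sin (s i))⁻¹ • (w i - Real.cos (s i) • a) with hu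
    have hau : ⟪a, u⟫ = (0 : ℝ) := by
      rw [hu, real_inner_smul_right, inner_sub_right, real_inner_smul_right, h1 i hPi, haa]
      ring
    have hcs := Real.sin_sq_add_cos_sq (s i)
    have hua : ⟪u, a⟫ = (0 : ℝ) := by rw [real_inner_comm]; exact hau
    have huu : ⟪u, u⟫ = (1 : ℝ) := by
      have e1 : ⟪u, u⟫ = (Real.sin (s i))⁻¹ * (⟪u, w i⟫ - Real.cos (s i) * ⟪u, a⟫) := by
        conv_lhs => rw [show ⟪u, u⟫ = ⟪u, (Real.sin (s i))⁻¹ • (w i - Real.cos (s i) • a)⟫ from rfl]
        rw [real_inner_smul_right, inner_sub_right, real_inner_smul_right]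
      have e2 : ⟪u, w i⟫ = (Real.sin (s i))⁻¹ * (1 - Real.cos (s i) * Real.cos (s i)) := by
        rw [hu, real_inner_smul_left, inner_sub_left, real_inner_smul_left, h1 i hPi,
          inner_self_one (hw i)]
      rw [e1, hua, e2]
      field_simp
      linear_combination -hcs
    refine ⟨u, norm_one_of_inner huu, hau, ?_⟩
    intro j hPj
    have huj : ⟪u, w j⟫ = Real.sin (s j) := by
      rw [hu, real_inner_smul_left, inner_sub_left, real_inner_smul_left, h1 j hPj,
        h2 i j hPi hPj, Real.cos_sub]
      field_simp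
      ring
    have hcj := Real.sin_sq_add_cos_sq (s j)
    apply eq_of_inner_sub
    have hja : ⟪w j, a⟫ = Real.cos (s j) := by rw [real_inner_comm]; exact h1 j hPj
    have hju : ⟪w j, u⟫ = Real.sin (s j) := by rw [real_inner_comm]; exact huj
    simp only [inner_sub_left, inner_sub_right, inner_add_left, inner_add_right,
      real_inner_smul_left, real_inner_smul_right, haa, huu, hau, hua, h1 j hPj, huj, hja, hju,
      inner_self_one (hw j)]
    linear_combination -hcj
  · push Not at hex
    obtain ⟨u, hu, hau⟩ := exists_perp ha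
    refine ⟨u, hu, hau, ?_⟩
    intro j hPj
    rw [hex j hPj, zero_smul, add_zero]
    apply eq_of_inner_sub
    have hja : ⟪w j, a⟫ = Real.cos (s j) := by rw [real_inner_comm]; exact h1 j hPj
    have hcj := Real.sin_sq_add_cos_sq (s j)
    rw [hex j hPj] at hcj
    simp only [inner_sub_left, inner_sub_right, real_inner_smul_left, real_inner_smul_right, haa,
      h1 j hPj, hja, inner_self_one (hw j)]
    linear_combination -hcj

theorem det3_comb (m a c : E3) (c1 s1 c2 s2 : ℝ) :
    det3 m (c1 • a + s1 • c) (c2 • a + s2 • c) = (c1 * s2 - s1 * c2) * det3 m a c := by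
  simp only [det3, PiLp.add_apply, PiLp.smul_apply, smul_eq_mul]
  ring

theorem inner_lt_one {a b : E3} (ha : ‖a‖ = 1) (hb : ‖b‖ = 1) (hab : a ≠ b) :
    ⟪a, b⟫ < (1 : ℝ) := by
  have h : 0 < ‖a - b‖ ^ 2 := pow_pos (norm_pos_iff.mpr (sub_ne_zero.mpr hab)) 2
  rw [norm_sub_sq_real, ha, hb] at h
  linarith

theorem hemi2 : ST_HEMI2 := by
  intro n v hn hv hcl hne hL
  set S : ℕ → ℝ := fun m => ∑ k ∈ Finset.range m, ang (v k) (v (k + 1)) with hS
  have hSn : ∑ i ∈ Finset.range n, ang (v i) (v (i + 1)) = S n := rfl
  rw [hSn] at hL ⊢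
  rcases lt_or_eq_of_le hL with hlt | hLeq
  · obtain ⟨g, hg, hgi⟩ := st_HEMIQ n v hv hcl hlt
    exact Or.inl ⟨g, hg, fun i hi => (hgi i hi).le, 0, Nat.zero_le _, hgi 0 (Nat.zero_le _)⟩
  have hpath : ∀ i j, i ≤ j → ang (v i) (v j) ≤ S j - S i := fun i j h => ang_path hv h
  have hmono : ∀ i j, i ≤ j → S i ≤ S j := fun i j h => by
    have := hpath i j h; have := ang_nonneg (v i) (v j); linarith
  have hS0 : S 0 = 0 := by simp [hS]
  have hpi := Real.pi_pos
  have hex : ∃ j, j < n ∧ S j ≤ Real.pi ∧ Real.pi ≤ S (j + 1) := by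
    by_contra hne
    push Not at hne
    have hall : ∀ j, j ≤ n → S j ≤ Real.pi := by
      intro j
      induction j with
      | zero => intro _; rw [hS0]; linarith
      | succ m ih =>
        intro hm
        exact (hne m (by omega) (ih (by omega))).le
    have hlast := hne (n - 1) (by omega) (hall (n - 1) (by omega))
    rw [Nat.sub_add_cancel hn] at hlast
    linarith
  obtain ⟨k, hkn, hk1, hk2⟩ := hex
  have hstep : S (k + 1) = S k + ang (v k) (v (k + 1)) := Finset.sum_range_succ _ _
  obtain ⟨b, hb, hb1, hb2⟩ := exists_between' (hv k) (hv (k + 1))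
    (s := Real.pi - S k) (by linarith) (by linarith)
  -- first half
  have hf : ∀ i ≤ k, ang (v i) b ≤ Real.pi - S i := by
    intro i hi
    have h1 := ang_tri (hv i) (hv k) hb
    have h2 := hpath i k hi
    linarith
  have hs : ∀ i, k + 1 ≤ i → ang (v i) b ≤ S i - Real.pi := by
    intro i hi
    have h1 := ang_tri (hv i) (hv (k + 1)) hb
    have h2 := hpath (k + 1) i hi
    rw [ang_comm (v i) (v (k + 1)), ang_comm (v (k + 1)) b] at h1
    linarith
  have ha0 : ∀ i, ang (v 0) (v i) ≤ S i := by
    intro i
    have := hpath 0 i (Nat.zero_le _)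
    linarith
  have ha1 : ∀ i ≤ n, ang (v i) (v 0) ≤ 2 * Real.pi - S i := by
    intro i hi
    have := hpath i n hi
    rw [hcl, hLeq] at this
    exact this
  have hsum : ∀ i ≤ n, ang (v 0) (v i) + ang (v i) b ≤ Real.pi := by
    intro i hi
    rcases Nat.lt_or_ge k i with h | h
    · have h1 := hs i h
      have h2 := ha1 i hi
      rw [ang_comm] at h2
      linarith
    · have h1 := hf i h
      have h2 := ha0 i
      linarith
  by_cases hba : b = -v 0
  · -- the antipodal case
    have hvb : ang (v 0) b = Real.pi := by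
      unfold ang
      rw [hba, inner_neg_right, inner_self_one (hv 0), Real.arccos_neg_one]
    have q1 : ∀ i j, i ≤ j → j ≤ k → ang (v 0) (v i) = S i ∧ ang (v i) (v j) = S j - S i := by
      intro i j hij hjk
      have t1 := ang_tri (hv 0) (hv i) hb
      have t2 := ang_tri (hv i) (hv j) hb
      have t3 := hf j hjk
      have t4 := ha0 i
      have t5 := hpath i j hij
      rw [hvb] at t1
      exact ⟨by linarith, by linarith⟩
    have q2 : ∀ i j, i ≤ j → k + 1 ≤ i → j ≤ n →
        ang (v 0) (v j) = 2 * Real.pi - S j ∧ ang (v i) (v j) = S j - S i := by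
      intro i j hij hki hjn
      have t1 := ang_tri (hv 0) (hv j) hb
      have t2 := ang_tri (hv j) (hv i) hb
      have t3 := hs i hki
      have t4 := ha1 j hjn
      have t5 := hpath i j hij
      rw [ang_comm] at t4
      rw [ang_comm (v j) (v i)] at t2
      rw [hvb] at t1
      exact ⟨by linarith, by linarith⟩
    obtain ⟨u, hu, hau, hue⟩ := geo (hv 0) (fun i => i ≤ k) v S hv
      (by
        intro i hi
        rw [← cos_ang (hv 0) (hv i), (q1 i i le_rfl hi).1])
      (by
        intro i j hi hj
        rcases le_total i j with hij | hij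
        · rw [← cos_ang (hv i) (hv j), (q1 i j hij hj).2, ← Real.cos_neg]
          congr 1; ring
        · rw [← cos_ang (hv i) (hv j), ang_comm, (q1 j i hij hi).2])
    obtain ⟨w, hw, haw, hwe⟩ := geo (hv 0) (fun i => k + 1 ≤ i ∧ i ≤ n) v S hv
      (by
        intro i hi
        rw [← cos_ang (hv 0) (hv i), (q2 i i le_rfl hi.1 hi.2).1, Real.cos_two_pi_sub])
      (by
        intro i j hi hj
        rcases le_total i j with hij | hij
        · rw [← cos_ang (hv i) (hv j), (q2 i j hij hi.1 hj.2).2, ← Real.cos_neg]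
          congr 1; ring
        · rw [← cos_ang (hv i) (hv j), ang_comm, (q2 j i hij hj.1 hi.2).2])
    have hsin1 : ∀ i ≤ k, 0 ≤ Real.sin (S i) := by
      intro i hi
      apply Real.sin_nonneg_of_nonneg_of_le_pi
      · rw [← hS0]; exact hmono 0 i (Nat.zero_le _)
      · exact (hmono i k hi).trans hk1
    have hsin2 : ∀ i, k + 1 ≤ i → i ≤ n → Real.sin (S i) ≤ 0 := by
      intro i hi hin
      have e : Real.sin (S i) = - Real.sin (2 * Real.pi - S i) := by
        rw [Real.sin_two_pi_sub]; ring
      rw [e]
      have : 0 ≤ Real.sin (2 * Real.pi - S i) := by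
        apply Real.sin_nonneg_of_nonneg_of_le_pi
        · have := hmono i n hin
          linarith
        · have := hmono (k + 1) i hi
          linarith
      linarith
    -- the great circle case
    have hgc : ∀ c : E3, ‖c‖ = 1 → ⟪v 0, c⟫ = (0 : ℝ) →
        (∀ i ≤ n, v i = Real.cos (S i) • v 0 + Real.sin (S i) • c) →
        ∃ m : E3, ‖m‖ = 1 ∧ (∀ i ≤ n, ⟪m, v i⟫ = 0) ∧
          ∀ i < n, 0 ≤ det3 m (v i) (v (i + 1)) := by
      intro c hc hac hce
      have hmm : ⟪crs (v 0) c, crs (v 0) c⟫ = (1 : ℝ) := by
        rw [crs_inner_self, inner_self_one (hv 0), inner_self_one hc, hac]; norm_num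
      refine ⟨crs (v 0) c, norm_one_of_inner hmm, ?_, ?_⟩
      · intro i hi
        rw [hce i hi, inner_add_right, real_inner_smul_right, real_inner_smul_right, crs_inner,
          crs_inner]
        simp only [det3]
        ring
      · intro i hi
        rw [hce i hi.le, hce (i + 1) hi, det3_comb]
        have e : det3 (crs (v 0) c) (v 0) c = 1 := by
          rw [← hmm, crs_inner]
          simp only [det3]
          ring
        have hstep : S (i + 1) = S i + ang (v i) (v (i + 1)) := Finset.sum_range_succ _ _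
        have e2 : Real.cos (S i) * Real.sin (S (i + 1)) - Real.sin (S i) * Real.cos (S (i + 1))
            = Real.sin (ang (v i) (v (i + 1))) := by
          have : ang (v i) (v (i + 1)) = S (i + 1) - S i := by rw [hstep]; ring
          rw [this, Real.sin_sub]; ring
        rw [e, e2, mul_one]
        exact Real.sin_nonneg_of_nonneg_of_le_pi (ang_nonneg _ _) (ang_le_pi _ _)
    by_cases huw : u = w
    · right
      refine ⟨hLeq, hgc u hu hau ?_⟩
      intro i hi
      rcases Nat.lt_or_ge k i with h | h
      · rw [huw]; exact hwe i ⟨h, hi⟩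
      · exact hue i h
    · have huw1 : ⟪u, w⟫ < (1 : ℝ) := inner_lt_one hu hw huw
      by_cases hall : ∀ i ≤ n, Real.sin (S i) = 0
      · right
        refine ⟨hLeq, hgc u hu hau ?_⟩
        intro i hi
        rcases Nat.lt_or_ge k i with h | h
        · rw [hwe i ⟨h, hi⟩, hall i hi, zero_smul, zero_smul]
        · exact hue i h
      · left
        push Not at hall
        obtain ⟨i0, hi0, hsi0⟩ := hall
        have hg0 : 0 < ‖u - w‖ := norm_pos_iff.mpr (sub_ne_zero.mpr huw)
        have key : ∀ i ≤ n, ⟪u - w, v i⟫ = |Real.sin (S i)| * (1 - ⟪u, w⟫) := by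
          intro i hi
          rcases Nat.lt_or_ge k i with h | h
          · rw [abs_of_nonpos (hsin2 i h hi), hwe i ⟨h, hi⟩, inner_sub_left, inner_add_right,
              inner_add_right, real_inner_smul_right, real_inner_smul_right,
              real_inner_smul_right, real_inner_smul_right, real_inner_comm (v 0) u, hau,
              real_inner_comm (v 0) w, haw, inner_self_one hw]
            ring
          · rw [abs_of_nonneg (hsin1 i h), hue i h, inner_sub_left, inner_add_right,
              inner_add_right, real_inner_smul_right, real_inner_smul_right,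
              real_inner_smul_right, real_inner_smul_right, real_inner_comm (v 0) u, hau,
              real_inner_comm (v 0) w, haw, inner_self_one hu, real_inner_comm u w]
            ring
        refine ⟨‖u - w‖⁻¹ • (u - w), ?_, ?_, i0, hi0, ?_⟩
        · rw [norm_smul, norm_inv, norm_norm, inv_mul_cancel₀ hg0.ne']
        · intro i hi
          rw [real_inner_smul_left, key i hi]
          have := abs_nonneg (Real.sin (S i))
          have := inv_pos.mpr hg0
          have : 0 ≤ 1 - ⟪u, w⟫ := by linarith
          positivity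
        · rw [real_inner_smul_left, key i0 hi0]
          have := abs_pos.mpr hsi0
          have := inv_pos.mpr hg0
          have : 0 < 1 - ⟪u, w⟫ := by linarith
          positivity
  · left
    have hab1 : -1 < ⟪v 0, b⟫ := by
      have h1 : -v 0 ≠ b := fun h => hba h.symm
      have := inner_lt_one (by rw [norm_neg]; exact hv 0) hb h1
      rw [inner_neg_left] at this
      linarith
    have key : ∀ i ≤ n, 0 ≤ ⟪v 0 + b, v i⟫ := by
      intro i hi
      have t := hsum i hi
      have t1 : Real.cos (Real.pi - ang (v 0) (v i)) ≤ Real.cos (ang (v i) b) := by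
        apply Real.cos_le_cos_of_nonneg_of_le_pi
        · exact ang_nonneg _ _
        · have := ang_nonneg (v 0) (v i); linarith
        · linarith
      rw [Real.cos_pi_sub, cos_ang (hv 0) (hv i), cos_ang (hv i) hb] at t1
      rw [inner_add_left, real_inner_comm (v i) b]
      linarith
    have key0 : 0 < ⟪v 0 + b, v 0⟫ := by
      rw [inner_add_left, inner_self_one (hv 0), real_inner_comm (v 0) b]
      linarith
    have hg0 : 0 < ‖v 0 + b‖ := by
      apply norm_pos_iff.mpr
      intro h
      rw [h, inner_zero_left] at key0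
      exact lt_irrefl _ key0
    refine ⟨‖v 0 + b‖⁻¹ • (v 0 + b), ?_, ?_, 0, Nat.zero_le _, ?_⟩
    · rw [norm_smul, norm_inv, norm_norm, inv_mul_cancel₀ hg0.ne']
    · intro i hi
      rw [real_inner_smul_left]
      exact mul_nonneg (inv_pos.mpr hg0).le (key i hi)
    · rw [real_inner_smul_left]
      exact mul_pos (inv_pos.mpr hg0) key0

end N9H
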