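import Pool.Agent.Helper30.N9.Defs

/-!
MP_9b91d1_co, test of the definitions: the regular tetrahedron is locally minimal (if it is in the
class `C(G)`). Not part of the hand-in.
-/

open scoped RealInnerProductSpace

namespace Pool.Agent.Helper30.N9.Tet

theorem inner_coord (a b : E3) : ⟪a, b⟫ = a 0 * b 0 + a 1 * b 1 + a 2 * b 2 := by
  simp [PiLp.inner_apply, Fin.sum_univ_three, mul_comm]

theorem unit_coord {a : E3} (h : ‖a‖ = 1) : ⟪a, a⟫ = 1 := by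
  rw [real_inner_self_eq_norm_sq, h]
  norm_num

/-- the coefficients of the linear relation -/
noncomputable def w (q : Fin 4 → E3) : Fin 4 → ℝ :=
  ![det3 (q 1) (q 2) (q 3), -det3 (q 0) (q 2) (q 3), det3 (q 0) (q 1) (q 3),
    -det3 (q 0) (q 1) (q 2)]

theorem rel (q : Fin 4 → E3) (x : E3) :
    w q 0 * ⟪q 0, x⟫ + w q 1 * ⟪q 1, x⟫ + w q 2 * ⟪q 2, x⟫ + w q 3 * ⟪q 3, x⟫ = 0 := by
  simp only [inner_coord, w, det3, Matrix.cons_val]
  ring

theorem gram (a b c : E3) : det3 a b c ^ 2 = ⟪a, a⟫ * ⟪b, b⟫ * ⟪c, c⟫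
    + 2 * ⟪a, b⟫ * ⟪b, c⟫ * ⟪a, c⟫ - ⟪a, a⟫ * ⟪b, c⟫ ^ 2 - ⟪b, b⟫ * ⟪a, c⟫ ^ 2
    - ⟪c, c⟫ * ⟪a, b⟫ ^ 2 := by
  simp only [inner_coord, det3]
  ring

theorem w_cont (i : Fin 4) : Continuous fun q : Fin 4 → E3 => w q i := by
  have h : ∀ (j : Fin 4) (k : Fin 3), Continuous fun q : Fin 4 → E3 => q j k := by
    intro j k
    exact (EuclideanSpace.proj k : E3 →L[ℝ] ℝ).continuous.comp (continuous_apply j)
  have hd : ∀ a b c : Fin 4, Continuous fun q : Fin 4 → E3 => det3 (q a) (q b) (q c) := by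
    intro a b c
    unfold det3
    exact (((h a 0).mul (((h b 1).mul (h c 2)).sub ((h b 2).mul (h c 1)))).sub
      ((h a 1).mul (((h b 0).mul (h c 2)).sub ((h b 2).mul (h c 0))))).add
      ((h a 2).mul (((h b 0).mul (h c 1)).sub ((h b 1).mul (h c 0))))
  fin_cases i
  · exact hd 1 2 3
  · exact (hd 0 2 3).neg
  · exact hd 0 1 3
  · exact (hd 0 1 2).neg

/-- at the regular tetrahedron all coefficients are equal and not zero -/
theorem w_reg {p : Fin 4 → E3} (hp : ∀ i, ‖p i‖ = 1)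
    (hpp : ∀ i j, i ≠ j → ⟪p i, p j⟫ = -1 / 3) (i j : Fin 4) : 0 < w p i * w p j := by
  have r0 := rel p (p 0)
  have r1 := rel p (p 1)
  have r2 := rel p (p 2)
  have r3 := rel p (p 3)
  have u := fun i => unit_coord (hp i)
  rw [u 0, hpp 1 0 (by decide), hpp 2 0 (by decide), hpp 3 0 (by decide)] at r0
  rw [u 1, hpp 0 1 (by decide), hpp 2 1 (by decide), hpp 3 1 (by decide)] at r1
  rw [u 2, hpp 0 2 (by decide), hpp 1 2 (by decide), hpp 3 2 (by decide)] at r2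
  rw [u 3, hpp 0 3 (by decide), hpp 1 3 (by decide), hpp 2 3 (by decide)] at r3
  have hg := gram (p 1) (p 2) (p 3)
  rw [u 1, u 2, u 3, hpp 1 2 (by decide), hpp 2 3 (by decide), hpp 1 3 (by decide)] at hg
  have e0 : w p 0 = det3 (p 1) (p 2) (p 3) := rfl
  rw [← e0] at hg
  have hall : ∀ i, w p i = w p 0 := by
    intro i
    fin_cases i
    · rfl
    · show w p 1 = w p 0
      linarith
    · show w p 2 = w p 0
      linarith
    · show w p 3 = w p 0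
      linarith
  rw [hall i, hall j]
  nlinarith

/-- THE VECTOR LEMMA: near a regular tetrahedron no other tetrahedron has sides at most as long -/
theorem vec {p : Fin 4 → E3} (hp : ∀ i, ‖p i‖ = 1)
    (hpp : ∀ i j, i ≠ j → ⟪p i, p j⟫ = -1 / 3) :
    ∃ ε > 0, ∀ q : Fin 4 → E3, (∀ i, ‖q i‖ = 1) → (∀ i, dist (q i) (p i) < ε) →
      (∀ i j, i ≠ j → -1 / 3 ≤ ⟪q i, q j⟫) → ∀ i j, i ≠ j → ⟪q i, q j⟫ = -1 / 3 := by
  have hev : ∀ᶠ q in nhds p, ∀ i j, 0 < w q i * w q j := by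
    rw [Filter.eventually_all]
    intro i
    rw [Filter.eventually_all]
    intro j
    exact ((w_cont i).mul (w_cont j)).continuousAt.eventually (lt_mem_nhds (w_reg hp hpp i j))
  obtain ⟨ε, hε, H⟩ := Metric.eventually_nhds_iff.1 hev
  refine ⟨ε, hε, ?_⟩
  intro q hq hd hle
  have hw := H (y := q) ((dist_pi_lt_iff hε).2 hd)
  have r0 := rel q (q 0)
  have r1 := rel q (q 1)
  have r2 := rel q (q 2)
  have r3 := rel q (q 3)
  have u := fun i => unit_coord (hq i)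
  rw [u 0, real_inner_comm (q 0) (q 1), real_inner_comm (q 0) (q 2),
    real_inner_comm (q 0) (q 3)] at r0
  rw [u 1, real_inner_comm (q 1) (q 2), real_inner_comm (q 1) (q 3)] at r1
  rw [u 2, real_inner_comm (q 2) (q 3)] at r2
  rw [u 3] at r3
  have k01 := mul_nonneg (hw 0 1).le (by linarith [hle 0 1 (by decide)] :
    0 ≤ ⟪q 0, q 1⟫ + 1 / 3)
  have k02 := mul_nonneg (hw 0 2).le (by linarith [hle 0 2 (by decide)] :
    0 ≤ ⟪q 0, q 2⟫ + 1 / 3)
  have k03 := mul_nonneg (hw 0 3).le (by linarith [hle 0 3 (by decide)] :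
    0 ≤ ⟪q 0, q 3⟫ + 1 / 3)
  have k12 := mul_nonneg (hw 1 2).le (by linarith [hle 1 2 (by decide)] :
    0 ≤ ⟪q 1, q 2⟫ + 1 / 3)
  have k13 := mul_nonneg (hw 1 3).le (by linarith [hle 1 3 (by decide)] :
    0 ≤ ⟪q 1, q 3⟫ + 1 / 3)
  have k23 := mul_nonneg (hw 2 3).le (by linarith [hle 2 3 (by decide)] :
    0 ≤ ⟪q 2, q 3⟫ + 1 / 3)
  have h01 := hw 0 1
  have h02 := hw 0 2
  have h03 := hw 0 3
  have h12 := hw 1 2
  have h13 := hw 1 3
  have h23 := hw 2 3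
  have hs : 2 * (w q 0 * w q 1 * (⟪q 0, q 1⟫ + 1 / 3) + w q 0 * w q 2 * (⟪q 0, q 2⟫ + 1 / 3) +
      w q 0 * w q 3 * (⟪q 0, q 3⟫ + 1 / 3) + w q 1 * w q 2 * (⟪q 1, q 2⟫ + 1 / 3) +
      w q 1 * w q 3 * (⟪q 1, q 3⟫ + 1 / 3) + w q 2 * w q 3 * (⟪q 2, q 3⟫ + 1 / 3)) =
      -((w q 0 - w q 1) ^ 2 + (w q 0 - w q 2) ^ 2 + (w q 0 - w q 3) ^ 2 +
        (w q 1 - w q 2) ^ 2 + (w q 1 - w q 3) ^ 2 + (w q 2 - w q 3) ^ 2) / 3 := by
    linear_combination w q 0 * r0 + w q 1 * r1 + w q 2 * r2 + w q 3 * r3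
  have hpos : ∀ a b : ℝ, 0 ≤ (a - b) ^ 2 := fun a b => sq_nonneg _
  have p01 := hpos (w q 0) (w q 1)
  have p02 := hpos (w q 0) (w q 2)
  have p03 := hpos (w q 0) (w q 3)
  have p12 := hpos (w q 1) (w q 2)
  have p13 := hpos (w q 1) (w q 3)
  have p23 := hpos (w q 2) (w q 3)
  have key : ∀ x y : ℝ, 0 < x → x * (y + 1 / 3) = 0 → y = -1 / 3 := by
    intro x y hx h
    rcases mul_eq_zero.1 h with h | h
    · exact absurd h hx.ne'
    · linarith
  have e01 : ⟪q 0, q 1⟫ = -1 / 3 := key _ _ h01 (by linarith)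
  have e02 : ⟪q 0, q 2⟫ = -1 / 3 := key _ _ h02 (by linarith)
  have e03 : ⟪q 0, q 3⟫ = -1 / 3 := key _ _ h03 (by linarith)
  have e12 : ⟪q 1, q 2⟫ = -1 / 3 := key _ _ h12 (by linarith)
  have e13 : ⟪q 1, q 3⟫ = -1 / 3 := key _ _ h13 (by linarith)
  have e23 : ⟪q 2, q 3⟫ = -1 / 3 := key _ _ h23 (by linarith)
  intro i j hij
  fin_cases i <;> fin_cases j <;>
    first
    | exact absurd rfl hij
    | exact e01
    | exact e02
    | exact e03
    | exact e12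
    | exact e13
    | exact e23
    | (rw [real_inner_comm]; exact e01)
    | (rw [real_inner_comm]; exact e02)
    | (rw [real_inner_comm]; exact e03)
    | (rw [real_inner_comm]; exact e12)
    | (rw [real_inner_comm]; exact e13)
    | (rw [real_inner_comm]; exact e23)

theorem inner_mem {a b : E3} (ha : ‖a‖ = 1) (hb : ‖b‖ = 1) : -1 ≤ ⟪a, b⟫ ∧ ⟪a, b⟫ ≤ 1 := by
  have h := abs_real_inner_le_norm a b
  rw [ha, hb, mul_one] at h
  exact abs_le.1 h

/-- local minimality of the regular tetrahedron, given that it is in the class -/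
theorem locMin (M : PlaneGraph (Fin 4)) (hG : ∀ i j, i ≠ j → M.G.Adj i j) {p : Fin 4 → E3}
    (hC : M.InC p) (hpp : ∀ i j, i ≠ j → ⟪p i, p j⟫ = -1 / 3) : M.LocMin p := by
  refine ⟨hC, ?_⟩
  obtain ⟨ε, hε, H⟩ := vec hC.unit hpp
  refine ⟨ε, hε, ?_⟩
  intro q hq hd hle d
  have h2 : ∀ i j, i ≠ j → -1 / 3 ≤ ⟪q i, q j⟫ := by
    intro i j hij
    have h3 := hle ⟨(i, j), hG i j hij⟩
    unfold ang at h3
    have h4 : ⟪p i, p j⟫ ≤ ⟪q i, q j⟫ := by
      by_contra hlt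
      have h5 := Real.arccos_lt_arccos (inner_mem (hq.unit i) (hq.unit j)).1 (not_le.1 hlt)
        (inner_mem (hC.unit i) (hC.unit j)).2
      exact absurd h3 (not_le.2 h5)
    rw [hpp i j hij] at h4
    exact h4
  have h := H q hq.unit hd h2 d.fst d.snd d.adj.ne
  unfold ang
  rw [h, hpp d.fst d.snd d.adj.ne]

end Pool.Agent.Helper30.N9.Tet
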