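import Pool.Agent.Helper26.N9.Tet
import Pool.Agent.Helper93.N9.TetG

/-!
MP_9b91d1_co, test of the definitions: the regular tetrahedron is locally minimal. Not part of the
hand-in.
-/

open scoped RealInnerProductSpace

namespace Pool.Agent.Helper30.N9.Tet

theorem tet_locMin : tet.LocMin pt :=
  locMin tet (fun _ _ h => h) tet_inC (fun i j h => by rw [inner_pt, if_neg h])

/-- the hypotheses of the main theorem are satisfiable -/
theorem nonvacuous : tet.Conn3 ∧ tet.LocMin pt := ⟨tet_conn3, tet_locMin⟩

end Pool.Agent.Helper30.N9.Tet
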